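import Pool.Agent.Work.MP_1bed24_nt.Rep

/-!
If each point of a fibre runs into a critical point then the fibre equation divides a power of
the product of the Wronskians along the orbit.
-/

set_option autoImplicit false

namespace Pool.Agent.Work.MP_1bed24_nt

open Finset Polynomial

theorem null (b V : ℤ[X]) (h : ∀ r : ℂ, aeval r b = 0 → aeval r V = 0) :
    ∃ (c : ℤ) (m : ℕ) (G : ℤ[X]), c ≠ 0 ∧ 1 ≤ m ∧ C c * V ^ m = b * G := by
  have hev : ∀ (r : ℂ) (g : ℤ[X]), aeval r g = eval r (g.map (Int.castRingHom ℂ)) := by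
    intro r g
    rw [eval_map, aeval_def, algebraMap_int_eq]
  by_cases hb : b = 0
  · have hV : V = 0 := by
      apply Polynomial.map_injective (Int.castRingHom ℂ) Int.cast_injective
      rw [Polynomial.map_zero]
      apply Polynomial.funext
      intro r
      rw [← hev, eval_zero]
      exact h r (by rw [hb, map_zero])
    refine ⟨1, 1, 0, one_ne_zero, le_rfl, ?_⟩
    rw [hV, hb]
    simp
  · set B : ℂ[X] := b.map (Int.castRingHom ℂ) with hB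
    set W : ℂ[X] := V.map (Int.castRingHom ℂ) with hW
    have hB0 : B ≠ 0 := (Polynomial.map_ne_zero_iff Int.cast_injective).2 hb
    have hsp := IsAlgClosed.splits B
    have h1 : (B.roots.map (fun r => X - C r)).prod ∣ (B.roots.map (fun _ => W)).prod := by
      apply Multiset.prod_dvd_prod_of_dvd
      intro r hr
      rw [dvd_iff_isRoot, IsRoot.def, hW, ← hev]
      apply h
      rw [hev]
      exact (mem_roots hB0).1 hr
    rw [Multiset.map_const', Multiset.prod_replicate] at h1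
    have h2 : B ∣ W ^ (Multiset.card B.roots + 1) := by
      have h3 : B = C B.leadingCoeff * (B.roots.map (fun r => X - C r)).prod :=
        hsp.eq_prod_roots
      rw [h3]
      have hu : IsUnit (C B.leadingCoeff) := by
        rw [isUnit_C]
        exact (leadingCoeff_ne_zero.2 hB0).isUnit
      rw [← h3]
      conv_lhs => rw [h3]
      rw [hu.mul_left_dvd]
      exact h1.trans (pow_dvd_pow _ (Nat.le_succ _))
    have h4 : b.map (Int.castRingHom ℚ) ∣ (V.map (Int.castRingHom ℚ)) ^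
        (Multiset.card B.roots + 1) := by
      rw [← Polynomial.map_dvd_map' (algebraMap ℚ ℂ), Polynomial.map_pow, Polynomial.map_map,
        Polynomial.map_map]
      have e : (algebraMap ℚ ℂ).comp (Int.castRingHom ℚ) = Int.castRingHom ℂ :=
        RingHom.ext_int _ _
      rw [e]
      exact h2
    obtain ⟨g, hg⟩ := h4
    obtain ⟨c, G, hc, hG⟩ := clear_denoms g
    refine ⟨c, Multiset.card B.roots + 1, G, hc, by omega, ?_⟩
    apply Polynomial.map_injective (Int.castRingHom ℚ) Int.cast_injective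
    rw [Polynomial.map_mul, Polynomial.map_mul, Polynomial.map_pow, hg, hG, map_C]
    simp only [eq_intCast]
    ring

theorem chart_aux (p q : ℤ[X]) (n k : ℕ) (bz : ℤ × ℤ) (e : ℤ[X] × ℤ[X])
    (he : ∀ r : ℂ, mapv ((aeval r : ℤ[X] →ₐ[ℤ] ℂ) : ℤ[X] →+* ℂ) e ≠ 0)
    (H : ∀ y : ℂ × ℂ, y ≠ 0 → det (castv ℂ bz) ((Fm ℂ p q n)^[k] y) = 0 →
      ∃ i < k, Wf ℂ p q n ((Fm ℂ p q n)^[i] y) = 0) :
    ∃ (c : ℤ) (m : ℕ) (G : ℤ[X]), c ≠ 0 ∧ 1 ≤ m ∧ ∀ a : ℚ,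
      (c : ℚ) * (∏ i ∈ range k, Wf ℚ p q n ((Fm ℚ p q n)^[i]
        (mapv ((aeval a : ℤ[X] →ₐ[ℤ] ℚ) : ℤ[X] →+* ℚ) e))) ^ m =
      det (castv ℚ bz) ((Fm ℚ p q n)^[k] (mapv ((aeval a : ℤ[X] →ₐ[ℤ] ℚ) : ℤ[X] →+* ℚ) e)) *
        aeval a G := by
  set b : ℤ[X] := det (castv ℤ[X] bz) ((Fm ℤ[X] p q n)^[k] e) with hb
  set V : ℤ[X] := ∏ i ∈ range k, Wf ℤ[X] p q n ((Fm ℤ[X] p q n)^[i] e) with hV
  have hbm : ∀ (S : Type) [CommRing S] (φ : ℤ[X] →+* S),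
      φ b = det (castv S bz) ((Fm S p q n)^[k] (mapv φ e)) := by
    intro S _ φ
    rw [hb, ← det_map, mapv_castv, Fm_iter_map]
  have hVm : ∀ (S : Type) [CommRing S] (φ : ℤ[X] →+* S),
      φ V = ∏ i ∈ range k, Wf S p q n ((Fm S p q n)^[i] (mapv φ e)) := by
    intro S _ φ
    rw [hV, map_prod]
    refine prod_congr rfl fun i _ => ?_
    rw [← Wf_map, Fm_iter_map]
  obtain ⟨c, m, G, hc, hm, hG⟩ := null b V (by
    intro r hr
    have h1 := hbm ℂ ((aeval r : ℤ[X] →ₐ[ℤ] ℂ) : ℤ[X] →+* ℂ)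
    have h2 := hVm ℂ ((aeval r : ℤ[X] →ₐ[ℤ] ℂ) : ℤ[X] →+* ℂ)
    rw [RingHom.coe_coe] at h1 h2
    rw [h2]
    obtain ⟨i, hi, hi0⟩ := H _ (he r) (by rw [← h1, hr])
    exact prod_eq_zero (mem_range.2 hi) hi0)
  refine ⟨c, m, G, hc, hm, fun a => ?_⟩
  have h1 := hbm ℚ ((aeval a : ℤ[X] →ₐ[ℤ] ℚ) : ℤ[X] →+* ℚ)
  have h2 := hVm ℚ ((aeval a : ℤ[X] →ₐ[ℤ] ℚ) : ℤ[X] →+* ℚ)
  have h3 := congrArg (aeval a : ℤ[X] →ₐ[ℤ] ℚ) hG
  rw [RingHom.coe_coe] at h1 h2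
  rw [← h1, ← h2, ← map_mul, ← h3, map_mul, map_pow]
  simp

/-- the fibre equation in the two charts of the projective line -/
theorem chart (p q : ℤ[X]) (n k : ℕ) (bz : ℤ × ℤ)
    (H : ∀ y : ℂ × ℂ, y ≠ 0 → det (castv ℂ bz) ((Fm ℂ p q n)^[k] y) = 0 →
      ∃ i < k, Wf ℂ p q n ((Fm ℂ p q n)^[i] y) = 0) :
    ∃ (c : ℤ) (m : ℕ) (G₁ G₂ : ℤ[X]), c ≠ 0 ∧ 1 ≤ m ∧ ∀ a : ℚ,
      (c : ℚ) * (∏ i ∈ range k, Wf ℚ p q n ((Fm ℚ p q n)^[i] (a, 1))) ^ m =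
        det (castv ℚ bz) ((Fm ℚ p q n)^[k] (a, 1)) * aeval a G₁ ∧
      (c : ℚ) * (∏ i ∈ range k, Wf ℚ p q n ((Fm ℚ p q n)^[i] (1, a))) ^ m =
        det (castv ℚ bz) ((Fm ℚ p q n)^[k] (1, a)) * aeval a G₂ := by
  obtain ⟨c₁, m₁, G₁, hc₁, hm₁, h₁⟩ := chart_aux p q n k bz (X, 1) (by
    intro r h
    have := congrArg Prod.snd h
    simp [mapv] at this) H
  obtain ⟨c₂, m₂, G₂, hc₂, hm₂, h₂⟩ := chart_aux p q n k bz (1, X) (by
    intro r h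
    have := congrArg Prod.fst h
    simp [mapv] at this) H
  have e1 : ∀ a : ℚ, mapv ((aeval a : ℤ[X] →ₐ[ℤ] ℚ) : ℤ[X] →+* ℚ) ((X, 1) : ℤ[X] × ℤ[X]) =
      (a, 1) := by
    intro a
    simp [mapv]
  have e2 : ∀ a : ℚ, mapv ((aeval a : ℤ[X] →ₐ[ℤ] ℚ) : ℤ[X] →+* ℚ) ((1, X) : ℤ[X] × ℤ[X]) =
      (1, a) := by
    intro a
    simp [mapv]
  refine ⟨c₁ * c₂, m₁ + m₂,
    C c₂ * G₁ * (∏ i ∈ range k, Wf ℤ[X] p q n ((Fm ℤ[X] p q n)^[i] (X, 1))) ^ m₂,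
    C c₁ * G₂ * (∏ i ∈ range k, Wf ℤ[X] p q n ((Fm ℤ[X] p q n)^[i] (1, X))) ^ m₁,
    mul_ne_zero hc₁ hc₂, by omega, fun a => ⟨?_, ?_⟩⟩
  · have h := h₁ a
    rw [e1] at h
    have h3 : aeval a (∏ i ∈ range k, Wf ℤ[X] p q n ((Fm ℤ[X] p q n)^[i] (X, 1))) =
        ∏ i ∈ range k, Wf ℚ p q n ((Fm ℚ p q n)^[i] (a, 1)) := by
      rw [map_prod]
      refine prod_congr rfl fun i _ => ?_
      have := Wf_map ((aeval a : ℤ[X] →ₐ[ℤ] ℚ) : ℤ[X] →+* ℚ) p q n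
        ((Fm ℤ[X] p q n)^[i] (X, 1))
      rw [RingHom.coe_coe] at this
      rw [← this, ← Fm_iter_map, e1]
    rw [map_mul, map_mul, map_pow, h3, aeval_C]
    push_cast
    simp only [algebraMap_int_eq, eq_intCast]
    rw [pow_add]
    linear_combination ((c₂ : ℚ) * (∏ i ∈ range k, Wf ℚ p q n ((Fm ℚ p q n)^[i] (a, 1))) ^ m₂) * h
  · have h := h₂ a
    rw [e2] at h
    have h3 : aeval a (∏ i ∈ range k, Wf ℤ[X] p q n ((Fm ℤ[X] p q n)^[i] (1, X))) =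
        ∏ i ∈ range k, Wf ℚ p q n ((Fm ℚ p q n)^[i] (1, a)) := by
      rw [map_prod]
      refine prod_congr rfl fun i _ => ?_
      have := Wf_map ((aeval a : ℤ[X] →ₐ[ℤ] ℚ) : ℤ[X] →+* ℚ) p q n
        ((Fm ℤ[X] p q n)^[i] (1, X))
      rw [RingHom.coe_coe] at this
      rw [← this, ← Fm_iter_map, e2]
    rw [map_mul, map_mul, map_pow, h3, aeval_C]
    push_cast
    simp only [algebraMap_int_eq, eq_intCast]
    rw [pow_add]
    linear_combination ((c₁ : ℚ) * (∏ i ∈ range k, Wf ℚ p q n ((Fm ℚ p q n)^[i] (1, a))) ^ m₁) * h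

end Pool.Agent.Work.MP_1bed24_nt
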