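import Mathlib

/-!
A point whose forward orbit is contracting cannot return too close to itself.
-/

set_option autoImplicit false

namespace Pool.Agent.Work.MP_1bed24_nt

private theorem iter_lip {X : Type*} (f : X → X) (δ : X → X → ℝ) (A : ℝ) (hA : 1 ≤ A)
    (hlip : ∀ x y, δ (f x) (f y) ≤ A * δ x y) (m : ℕ) (x y : X) :
    δ (f^[m] x) (f^[m] y) ≤ A ^ m * δ x y := by
  induction m with
  | zero => simp
  | succ m ih =>
    rw [Function.iterate_succ_apply', Function.iterate_succ_apply']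
    calc _ ≤ A * δ (f^[m] x) (f^[m] y) := hlip _ _
      _ ≤ A * (A ^ m * δ x y) := by gcongr
      _ = _ := by ring

private theorem contraction {X : Type*} (f : X → X) (δ : X → X → ℝ) (w : X → ℝ) (β : X) (A : ℝ)
    (hA : 1 ≤ A) (hδ0 : ∀ x y, 0 ≤ δ x y) (hw0 : ∀ x, 0 ≤ w x)
    (hlip : ∀ x y, δ (f x) (f y) ≤ A * δ x y)
    (hcrit : ∀ x y, δ (f x) (f y) ≤ A * (δ x y * (w x + δ x y)))
    (i m : ℕ) (him : i < m) (x : X) :
    δ (f^[m] β) (f^[m] x) ≤ A ^ m * (δ β x * (w (f^[i] β) + A ^ m * δ β x)) := by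
  obtain ⟨r, rfl⟩ := Nat.exists_eq_add_of_lt him
  have hA0 : 0 < A := by linarith
  have h1 := iter_lip f δ A hA hlip i β x
  have h2 := iter_lip f δ A hA hlip r (f^[i + 1] β) (f^[i + 1] x)
  have h3 := hcrit (f^[i] β) (f^[i] x)
  rw [← Function.iterate_succ_apply' f i β, ← Function.iterate_succ_apply' f i x] at h3
  have e : i + r + 1 = r + (i + 1) := by ring
  rw [e, Function.iterate_add_apply f r (i + 1) β, Function.iterate_add_apply f r (i + 1) x]
  have hD := hδ0 (f^[i] β) (f^[i] x)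
  have hD' := hδ0 β x
  have hw := hw0 (f^[i] β)
  have h4 : δ (f^[i] β) (f^[i] x) * (w (f^[i] β) + δ (f^[i] β) (f^[i] x)) ≤
      A ^ i * δ β x * (w (f^[i] β) + A ^ (r + (i + 1)) * δ β x) := by
    have h5 : A ^ i * δ β x ≤ A ^ (r + (i + 1)) * δ β x := by
      gcongr
      omega
    gcongr
    exact h1.trans h5
  calc δ (f^[r] (f^[i + 1] β)) (f^[r] (f^[i + 1] x))
      ≤ A ^ r * δ (f^[i + 1] β) (f^[i + 1] x) := h2
    _ ≤ A ^ r * (A * (A ^ i * δ β x * (w (f^[i] β) + A ^ (r + (i + 1)) * δ β x))) := by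
        have := h3.trans (mul_le_mul_of_nonneg_left h4 hA0.le)
        gcongr
    _ = A ^ (r + (i + 1)) * (δ β x * (w (f^[i] β) + A ^ (r + (i + 1)) * δ β x)) := by ring

theorem metric_lemma {X : Type*} (f : X → X) (δ : X → X → ℝ) (w : X → ℝ) (β : X) (A : ℝ)
    (k : ℕ) (hA : 1 ≤ A) (hk : 1 ≤ k) (hδ0 : ∀ x y, 0 ≤ δ x y) (hw0 : ∀ x, 0 ≤ w x)
    (htri : ∀ x y z, δ x z ≤ δ x y + δ y z) (hsymm : ∀ x y, δ x y = δ y x)
    (hlip : ∀ x y, δ (f x) (f y) ≤ A * δ x y)
    (hcrit : ∀ x y, δ (f x) (f y) ≤ A * (δ x y * (w x + δ x y)))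
    (hsup : (∃ j, w (f^[j] β) = 0) ∨
      ∃ s, ∀ x, ∃ i < s, w (f^[i] x) ^ k ≤ A * δ (f^[s] x) β)
    (hne : ∀ m, 1 ≤ m → 0 < δ β (f^[m] β)) :
    ∃ B : ℝ, 1 ≤ B ∧ ∃ m₀ : ℕ, ∀ m, m₀ ≤ m → (B ^ m)⁻¹ ≤ δ β (f^[m] β) := by
  classical
  have hA0 : 0 < A := by linarith
  set B : ℝ := (32 * A) ^ (2 * k + 1) with hB
  have h32 : 1 ≤ 32 * A := by linarith
  have hB1 : 32 ≤ B := by
    calc (32 : ℝ) ≤ 32 * A := by linarith
      _ = (32 * A) ^ 1 := (pow_one _).symm
      _ ≤ (32 * A) ^ (2 * k + 1) := pow_le_pow_right₀ h32 (by omega)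
  -- index of the contracting step
  obtain ⟨j₀, hj₀⟩ : ∃ j₀ : ℕ, ∀ m, j₀ < m → ∃ i, i < m ∧
      w (f^[i] β) ^ k ≤ A * δ (f^[m] β) β := by
    rcases hsup with ⟨j, hj⟩ | h
    · refine ⟨j, fun m hm => ⟨j, hm, ?_⟩⟩
      rw [hj, zero_pow (by omega)]
      exact mul_nonneg hA0.le (hδ0 _ _)
    · obtain ⟨s, h⟩ := h
      refine ⟨s, fun m hm => ?_⟩
      obtain ⟨i, hi, h1⟩ := h (f^[m - s] β)
      refine ⟨i + (m - s), by omega, ?_⟩
      rw [← Function.iterate_add_apply, ← Function.iterate_add_apply,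
        Nat.add_sub_cancel' hm.le] at h1
      exact h1
  -- contraction at a very close return
  have hC : ∀ m, j₀ < m → δ β (f^[m] β) < (B ^ m)⁻¹ → ∀ x, δ β x ≤ 2 * δ β (f^[m] β) →
      δ (f^[m] β) (f^[m] x) ≤ δ β (f^[m] β) / 4 := by
    intro m hm hε x hx
    obtain ⟨i, him, hwi⟩ := hj₀ m hm
    set ε := δ β (f^[m] β) with hεdef
    have hε0 : 0 < ε := hne m (by omega)
    rw [hsymm, ← hεdef] at hwi
    have hm1 : 1 ≤ m := by omega
    have hAm : 0 < A ^ m := by positivity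
    have hBm : B ^ m = (32 * A) ^ ((2 * k + 1) * m) := by rw [hB, ← pow_mul]
    have hBpos : 0 < B ^ m := by positivity
    -- first bound
    have hb1 : A * ε ≤ ((16 * A ^ m)⁻¹) ^ k := by
      rw [inv_pow, le_inv_comm₀ (by positivity) (by positivity)]
      have h1 : (16 * A ^ m) ^ k * A ≤ B ^ m := by
        rw [hBm, mul_pow, mul_pow, ← pow_mul, mul_assoc, ← pow_succ]
        have h2 : (16 : ℝ) ^ k ≤ 32 ^ ((2 * k + 1) * m) := by
          calc (16 : ℝ) ^ k ≤ 32 ^ k := by gcongr; norm_num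
            _ ≤ 32 ^ ((2 * k + 1) * m) := by
                apply pow_le_pow_right₀ (by norm_num)
                nlinarith
        have h3 : A ^ (m * k + 1) ≤ A ^ ((2 * k + 1) * m) := by
          apply pow_le_pow_right₀ hA
          nlinarith
        gcongr
      have h4 : B ^ m ≤ ε⁻¹ := by
        rw [le_inv_comm₀ hBpos hε0]
        exact hε.le
      calc (16 * A ^ m) ^ k = (16 * A ^ m) ^ k * A * A⁻¹ := by
            rw [mul_assoc, mul_inv_cancel₀ hA0.ne', mul_one]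
        _ ≤ ε⁻¹ * A⁻¹ := by
            have := h1.trans h4
            gcongr
        _ = (A * ε)⁻¹ := by rw [mul_inv, mul_comm]
    have hwi' : w (f^[i] β) ≤ (16 * A ^ m)⁻¹ := by
      have := hwi.trans hb1
      exact le_of_pow_le_pow_left₀ (by omega) (by positivity) this
    have hb2 : ε ≤ (32 * A ^ m * A ^ m)⁻¹ := by
      rw [le_inv_comm₀ hε0 (by positivity)]
      have h4 : B ^ m ≤ ε⁻¹ := by
        rw [le_inv_comm₀ hBpos hε0]
        exact hε.le
      refine le_trans ?_ h4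
      rw [hBm, mul_pow, mul_assoc, ← pow_add]
      have h5 : (32 : ℝ) ≤ 32 ^ ((2 * k + 1) * m) := by
        calc (32 : ℝ) = 32 ^ 1 := (pow_one _).symm
          _ ≤ _ := by
            apply pow_le_pow_right₀ (by norm_num)
            nlinarith
      have h6 : A ^ (m + m) ≤ A ^ ((2 * k + 1) * m) := by
        apply pow_le_pow_right₀ hA
        nlinarith
      gcongr
    have h7 := contraction f δ w β A hA hδ0 hw0 hlip hcrit i m him x
    have hx0 := hδ0 β x
    calc δ (f^[m] β) (f^[m] x) ≤ A ^ m * (δ β x * (w (f^[i] β) + A ^ m * δ β x)) := h7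
      _ ≤ A ^ m * (2 * ε * ((16 * A ^ m)⁻¹ + A ^ m * (2 * (32 * A ^ m * A ^ m)⁻¹))) := by
          have h8 : δ β x ≤ 2 * (32 * A ^ m * A ^ m)⁻¹ := hx.trans (by linarith)
          have := hw0 (f^[i] β)
          gcongr
      _ = ε / 4 := by
          field_simp
          ring
  -- all multiples
  have hM : ∀ m, j₀ < m → δ β (f^[m] β) < (B ^ m)⁻¹ → ∀ r : ℕ, 1 ≤ r →
      δ β (f^[m] β) / 2 ≤ δ β (f^[r * m] β) ∧ δ β (f^[r * m] β) ≤ 2 * δ β (f^[m] β) := by
    intro m hm hε r hr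
    have hε0 : 0 < δ β (f^[m] β) := hne m (by omega)
    induction r, hr using Nat.le_induction with
    | base =>
      rw [one_mul]
      constructor <;> linarith
    | succ r hr ih =>
      have e : (r + 1) * m = m + r * m := by ring
      rw [e, Function.iterate_add_apply]
      have h1 := hC m hm hε _ ih.2
      have h2 := htri β (f^[m] β) (f^[m] (f^[r * m] β))
      have h3 := htri β (f^[m] (f^[r * m] β)) (f^[m] β)
      rw [hsymm (f^[m] (f^[r * m] β)) (f^[m] β)] at h3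
      constructor <;> linarith
  refine ⟨B, by linarith, ?_⟩
  by_contra hcon
  push Not at hcon
  obtain ⟨m, hm, hεm⟩ := hcon (j₀ + 1)
  have hε0 : 0 < δ β (f^[m] β) := hne m (by omega)
  obtain ⟨N, hN⟩ : ∃ N : ℕ, (B⁻¹) ^ N < δ β (f^[m] β) / 4 := by
    apply exists_pow_lt_of_lt_one (by positivity)
    rw [inv_lt_one₀ (by linarith)]
    linarith
  obtain ⟨n, hn, hεn⟩ := hcon (max N (j₀ + 1))
  have hnN : N ≤ n := (le_max_left _ _).trans hn
  have hnj : j₀ + 1 ≤ n := (le_max_right _ _).trans hn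
  have h1 := (hM m (by omega) hεm n (by omega)).1
  have h2 := (hM n (by omega) hεn m (by omega)).2
  rw [mul_comm m n] at h2
  have h3 : (B ^ n)⁻¹ ≤ (B⁻¹) ^ N := by
    rw [← inv_pow]
    apply pow_le_pow_of_le_one (by positivity)
    · exact inv_le_one_of_one_le₀ (by linarith)
    · exact hnN
  linarith

end Pool.Agent.Work.MP_1bed24_nt
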