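import Pool.Agent.Work.MP_1bed24_nt.Local
import Pool.Agent.Work.MP_1bed24_nt.Crit
import Pool.Agent.Work.MP_1bed24_nt.Metric

/-!
At every absolute value the orbit of the target returns only exponentially close to the target.
-/

set_option autoImplicit false

namespace Pool.Agent.Work.MP_1bed24_nt

open Finset Polynomial

variable (v : AbsoluteValue ℚ ℝ)

theorem normalize (y : ℚ × ℚ) (hy : y ≠ 0) : ∃ t a : ℚ, t ≠ 0 ∧ v a ≤ 1 ∧
    (y = smulv t (a, 1) ∨ y = smulv t (1, a)) := by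
  by_cases h : v y.1 ≤ v y.2
  · have h2 : y.2 ≠ 0 := by
      intro h2
      rw [h2, v.map_zero] at h
      have h1 : v y.1 = 0 := le_antisymm h (v.nonneg _)
      rw [v.eq_zero] at h1
      exact hy (Prod.ext h1 h2)
    refine ⟨y.2, y.1 / y.2, h2, ?_, Or.inl (eq_smulv y h2)⟩
    rw [map_div₀]
    exact div_le_one_of_le₀ h (v.nonneg _)
  · push Not at h
    have h1 : y.1 ≠ 0 := by
      intro h1
      rw [h1, v.map_zero] at h
      exact absurd h (not_lt.2 (v.nonneg _))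
    refine ⟨y.1, y.2 / y.1, h1, ?_, Or.inr ?_⟩
    · rw [map_div₀]
      exact div_le_one_of_le₀ h.le (v.nonneg _)
    · unfold smulv
      refine Prod.ext (by simp) ?_
      simp only
      field_simp

theorem nm_one_right (a : ℚ) (ha : v a ≤ 1) : nm v (a, 1) = 1 := by
  unfold nm
  simp only [v.map_one]
  exact max_eq_right ha

theorem nm_one_left (a : ℚ) (ha : v a ≤ 1) : nm v (1, a) = 1 := by
  unfold nm
  simp only [v.map_one]
  exact max_eq_left ha

theorem aeval_le (G : ℤ[X]) (a : ℚ) (ha : v a ≤ 1) :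
    v (aeval a G) ≤ SC v (cf ℚ G) G.natDegree := by
  rw [← form_one G G.natDegree le_rfl a]
  have := form_le v (cf ℚ G) G.natDegree (a, 1)
  rw [nm_one_right v a ha, one_pow, mul_one] at this
  exact this

section

variable (p q : ℤ[X]) (n : ℕ)

theorem lower_iter (hd : ratDeg p q = n + 1)
    (hcop : IsCoprime (p.map (Int.castRingHom ℚ)) (q.map (Int.castRingHom ℚ))) (i : ℕ) :
    ∃ γ : ℝ, 0 < γ ∧ ∀ x : ℚ × ℚ, nm v x = 1 → γ ≤ nm v ((Fm ℚ p q n)^[i] x) := by
  obtain ⟨c, hc0, hc1, hc⟩ := lower v p q n hd hcop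
  induction i with
  | zero => exact ⟨1, one_pos, fun x hx => by simp [hx]⟩
  | succ i ih =>
    obtain ⟨γ, hγ, h⟩ := ih
    refine ⟨c * γ ^ (n + 1), by positivity, fun x hx => ?_⟩
    rw [Function.iterate_succ_apply']
    have h1 := h x hx
    have hne : (Fm ℚ p q n)^[i] x ≠ 0 := by
      intro h0
      rw [h0] at h1
      unfold nm at h1
      simp at h1
      linarith
    refine le_trans ?_ (hc _ hne)
    gcongr

theorem upper_iter (i : ℕ) :
    ∃ Γ : ℝ, 0 < Γ ∧ ∀ x : ℚ × ℚ, nm v x = 1 → nm v ((Fm ℚ p q n)^[i] x) ≤ Γ := by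
  obtain ⟨C, hC1, hC⟩ := upper v p q n
  induction i with
  | zero => exact ⟨1, one_pos, fun x hx => by simp [hx]⟩
  | succ i ih =>
    obtain ⟨Γ, hΓ, h⟩ := ih
    refine ⟨C * Γ ^ (n + 1), by positivity, fun x hx => ?_⟩
    rw [Function.iterate_succ_apply']
    have h1 := h x hx
    have h0 := nm_nonneg v ((Fm ℚ p q n)^[i] x)
    refine (hC _).trans ?_
    gcongr

/-- the fibre equation turned into an inequality for the chordal distance -/
theorem fibre_bound (hd : ratDeg p q = n + 1)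
    (hcop : IsCoprime (p.map (Int.castRingHom ℚ)) (q.map (Int.castRingHom ℚ)))
    (k : ℕ) (β : Option ℚ)
    (H : ∀ y : ℂ × ℂ, y ≠ 0 → det (castv ℂ (repZ β)) ((Fm ℂ p q n)^[k] y) = 0 →
      ∃ i < k, Wf ℂ p q n ((Fm ℂ p q n)^[i] y) = 0) :
    ∃ (e : ℕ) (A : ℝ), 1 ≤ e ∧ 1 ≤ A ∧ ∀ z : Option ℚ, ∃ i < k,
      wv v p q n (rep ((ratMap ℚ p q)^[i] z)) ^ e ≤
        A * dv v (rep ((ratMap ℚ p q)^[k] z)) (rep β) := by
  have hk : 1 ≤ k := by
    by_contra hk
    have hk0 : k = 0 := by omega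
    subst hk0
    obtain ⟨i, hi, -⟩ := H (castv ℂ (repZ β)) (castv_ne _ (repZ_ne β) ℂ) (det_self _)
    omega
  obtain ⟨c, m, G₁, G₂, hc, hm, hG⟩ := chart p q n k (repZ β) H
  have hγ := fun i => lower_iter v p q n hd hcop i
  choose γ hγ0 hγ using hγ
  obtain ⟨Γ, hΓ0, hΓ⟩ := upper_iter v p q n k
  set Q : ℝ := (∏ i ∈ range k, γ i ^ (2 * n)) with hQ
  have hQ0 : 0 < Q := prod_pos fun i _ => pow_pos (hγ0 i) _
  have hc0 : 0 < v (c : ℚ) := v.pos (by exact_mod_cast hc)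
  set CG : ℝ := SC v (cf ℚ G₁) G₁.natDegree + SC v (cf ℚ G₂) G₂.natDegree + 1 with hCG
  have s1 := SC_nonneg v (cf ℚ G₁) G₁.natDegree
  have s2 := SC_nonneg v (cf ℚ G₂) G₂.natDegree
  have hCG0 : 0 < CG := by linarith
  have hb0 := nm_pos v (rep_ne β)
  set A' : ℝ := nm v (rep β) * Γ * CG / (v (c : ℚ) * Q ^ m) with hA'
  have hA'0 : 0 < A' := by positivity
  refine ⟨k * m, A' + 1, Nat.mul_pos hk hm, by linarith, fun z => ?_⟩
  -- normalised vector
  have main : ∀ (x : ℚ × ℚ) (t g : ℚ), nm v x = 1 → t ≠ 0 → rep z = smulv t x → v g ≤ CG →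
      (c : ℚ) * (∏ i ∈ range k, Wf ℚ p q n ((Fm ℚ p q n)^[i] x)) ^ m =
        det (castv ℚ (repZ β)) ((Fm ℚ p q n)^[k] x) * g →
      (∏ i ∈ range k, wv v p q n (rep ((ratMap ℚ p q)^[i] z))) ^ m ≤
        A' * dv v (rep ((ratMap ℚ p q)^[k] z)) (rep β) := by
    intro x t g hx ht hzx hg hid
    have hxne : x ≠ 0 := by
      intro h0
      rw [h0] at hx
      unfold nm at hx
      simp at hx
    have hrel : ∀ i, ∃ a : ℚ, a ≠ 0 ∧ (Fm ℚ p q n)^[i] x =
        smulv a (rep ((ratMap ℚ p q)^[i] z)) := by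
      intro i
      have := Fm_rep p q n hd hcop x hxne i
      have hz : toP ℚ x = z := by
        rw [← toP_rep z, hzx, toP_smulv t ht]
      rwa [hz] at this
    have hwv : ∀ i, wv v p q n (rep ((ratMap ℚ p q)^[i] z)) = wv v p q n ((Fm ℚ p q n)^[i] x) := by
      intro i
      obtain ⟨a, ha, h⟩ := hrel i
      rw [h, wv_smulv v p q n a ha]
    have hdv : dv v (rep ((ratMap ℚ p q)^[k] z)) (rep β) =
        dv v (rep β) ((Fm ℚ p q n)^[k] x) := by
      obtain ⟨a, ha, h⟩ := hrel k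
      rw [h, dv_comm]
      have := dv_smulv v 1 a one_ne_zero ha (rep β) (rep ((ratMap ℚ p q)^[k] z))
      rw [← this]
      congr 1
      unfold smulv
      simp
    rw [prod_congr rfl fun i _ => hwv i, hdv]
    have hid2 := congrArg v hid
    rw [map_mul, map_pow, map_mul, map_prod] at hid2
    have h1 : (∏ i ∈ range k, wv v p q n ((Fm ℚ p q n)^[i] x)) * Q ≤
        ∏ i ∈ range k, v (Wf ℚ p q n ((Fm ℚ p q n)^[i] x)) := by
      rw [hQ, ← prod_mul_distrib]
      refine prod_le_prod (fun i _ => mul_nonneg (wv_nonneg _ _ _ _ _)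
        (pow_nonneg (hγ0 i).le _)) fun i _ => ?_
      unfold wv
      have h2 := hγ i x hx
      have h3 : 0 < nm v ((Fm ℚ p q n)^[i] x) := lt_of_lt_of_le (hγ0 i) h2
      rw [div_mul_eq_mul_div, div_le_iff₀ (by positivity)]
      have h4 : γ i ^ (2 * n) ≤ nm v ((Fm ℚ p q n)^[i] x) ^ (2 * n) := by
        have := (hγ0 i).le
        gcongr
      exact mul_le_mul_of_nonneg_left h4 (v.nonneg _)
    have hk0 : 0 < nm v ((Fm ℚ p q n)^[k] x) := lt_of_lt_of_le (hγ0 k) (hγ k x hx)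
    have h5 : v (det (castv ℚ (repZ β)) ((Fm ℚ p q n)^[k] x)) ≤
        dv v (rep β) ((Fm ℚ p q n)^[k] x) * (nm v (rep β) * Γ) := by
      have e : v (det (castv ℚ (repZ β)) ((Fm ℚ p q n)^[k] x)) =
          dv v (rep β) ((Fm ℚ p q n)^[k] x) *
            (nm v (rep β) * nm v ((Fm ℚ p q n)^[k] x)) := by
        unfold dv
        rw [div_mul_cancel₀ _ (by positivity)]
        rfl
      rw [e]
      have := hΓ x hx
      have := dv_nonneg v (rep β) ((Fm ℚ p q n)^[k] x)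
      gcongr
    set P : ℝ := ∏ i ∈ range k, wv v p q n ((Fm ℚ p q n)^[i] x) with hP
    have hP0 : 0 ≤ P := prod_nonneg fun i _ => wv_nonneg _ _ _ _ _
    have hdv0 := dv_nonneg v (rep β) ((Fm ℚ p q n)^[k] x)
    have h6 : v (c : ℚ) * (P * Q) ^ m ≤
        dv v (rep β) ((Fm ℚ p q n)^[k] x) * (nm v (rep β) * Γ) * CG := by
      calc v (c : ℚ) * (P * Q) ^ m
          ≤ v (c : ℚ) * (∏ i ∈ range k, v (Wf ℚ p q n ((Fm ℚ p q n)^[i] x))) ^ m := by
            gcongr
        _ = v (det (castv ℚ (repZ β)) ((Fm ℚ p q n)^[k] x)) * v g := hid2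
        _ ≤ _ := by
            have := v.nonneg g
            gcongr
    rw [hA', div_mul_eq_mul_div, le_div_iff₀ (by positivity)]
    calc P ^ m * (v (c : ℚ) * Q ^ m) = v (c : ℚ) * (P * Q) ^ m := by
          rw [mul_pow]
          ring
      _ ≤ _ := h6
      _ = _ := by ring
  have hprod : (∏ i ∈ range k, wv v p q n (rep ((ratMap ℚ p q)^[i] z))) ^ m ≤
      A' * dv v (rep ((ratMap ℚ p q)^[k] z)) (rep β) := by
    obtain ⟨t, a, ht, ha, h | h⟩ := normalize v (rep z) (rep_ne z)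
    · exact main (a, 1) t (aeval a G₁) (nm_one_right v a ha) ht h
        ((aeval_le v G₁ a ha).trans (by linarith)) (hG a).1
    · exact main (1, a) t (aeval a G₂) (nm_one_left v a ha) ht h
        ((aeval_le v G₂ a ha).trans (by linarith)) (hG a).2
  obtain ⟨i, hi, hmin⟩ := exists_min_image (range k)
    (fun i => wv v p q n (rep ((ratMap ℚ p q)^[i] z))) ⟨0, mem_range.2 hk⟩
  refine ⟨i, mem_range.1 hi, ?_⟩
  have h7 : wv v p q n (rep ((ratMap ℚ p q)^[i] z)) ^ k ≤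
      ∏ j ∈ range k, wv v p q n (rep ((ratMap ℚ p q)^[j] z)) := by
    have h8 := prod_le_prod (s := range k)
      (f := fun _ => wv v p q n (rep ((ratMap ℚ p q)^[i] z)))
      (g := fun j => wv v p q n (rep ((ratMap ℚ p q)^[j] z)))
      (fun _ _ => wv_nonneg _ _ _ _ _) (fun j hj => hmin j hj)
    rwa [prod_const, card_range] at h8
  have hdv0 := dv_nonneg v (rep ((ratMap ℚ p q)^[k] z)) (rep β)
  calc wv v p q n (rep ((ratMap ℚ p q)^[i] z)) ^ (k * m)
      = (wv v p q n (rep ((ratMap ℚ p q)^[i] z)) ^ k) ^ m := pow_mul _ _ _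
    _ ≤ (∏ j ∈ range k, wv v p q n (rep ((ratMap ℚ p q)^[j] z))) ^ m := by
        have := pow_nonneg (wv_nonneg v p q n (rep ((ratMap ℚ p q)^[i] z))) k
        gcongr
    _ ≤ A' * dv v (rep ((ratMap ℚ p q)^[k] z)) (rep β) := hprod
    _ ≤ _ := by
        gcongr
        linarith

/-- exponential lower bound for the returns of the target at a place -/
theorem local_bound (hn : 1 ≤ n) (hd : ratDeg p q = n + 1)
    (hcop : IsCoprime (p.map (Int.castRingHom ℚ)) (q.map (Int.castRingHom ℚ)))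
    (β : Option ℚ)
    (H : (∃ j, Wf ℚ p q n (rep ((ratMap ℚ p q)^[j] β)) = 0) ∨
      ∃ k, ∀ y : ℂ × ℂ, y ≠ 0 → det (castv ℂ (repZ β)) ((Fm ℂ p q n)^[k] y) = 0 →
        ∃ i < k, Wf ℂ p q n ((Fm ℂ p q n)^[i] y) = 0)
    (hw : ∀ m, 1 ≤ m → (ratMap ℚ p q)^[m] β ≠ β) :
    ∃ B : ℝ, 1 ≤ B ∧ ∃ m₀ : ℕ, ∀ m, m₀ ≤ m →
      (B ^ m)⁻¹ ≤ dv v (rep β) (rep ((ratMap ℚ p q)^[m] β)) := by
  obtain ⟨A₁, hA₁, h₁⟩ := contract v p q n hn hd hcop
  have hstep : ∀ z : Option ℚ, ∃ a : ℚ, a ≠ 0 ∧ Fm ℚ p q n (rep z) =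
      smulv a (rep (ratMap ℚ p q z)) := by
    intro z
    have := Fm_rep p q n hd hcop (rep z) (rep_ne z) 1
    rw [toP_rep] at this
    exact this
  have hdvF : ∀ z w : Option ℚ, dv v (rep (ratMap ℚ p q z)) (rep (ratMap ℚ p q w)) =
      dv v (Fm ℚ p q n (rep z)) (Fm ℚ p q n (rep w)) := by
    intro z w
    obtain ⟨a, ha, h⟩ := hstep z
    obtain ⟨b, hb, h'⟩ := hstep w
    rw [h, h', dv_smulv v a b ha hb]
  have hK : ∃ (e : ℕ) (A₂ : ℝ), 1 ≤ e ∧ 1 ≤ A₂ ∧
      ((∃ j, wv v p q n (rep ((ratMap ℚ p q)^[j] β)) = 0) ∨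
      ∃ s, ∀ z, ∃ i < s, wv v p q n (rep ((ratMap ℚ p q)^[i] z)) ^ e ≤
        A₂ * dv v (rep ((ratMap ℚ p q)^[s] z)) (rep β)) := by
    rcases H with ⟨j, hj⟩ | ⟨k, hk⟩
    · refine ⟨1, 1, le_rfl, le_rfl, Or.inl ⟨j, ?_⟩⟩
      unfold wv
      rw [hj, v.map_zero, zero_div]
    · obtain ⟨e, A₂, he, hA₂, h⟩ := fibre_bound v p q n hd hcop k β hk
      exact ⟨e, A₂, he, hA₂, Or.inr ⟨k, h⟩⟩
  obtain ⟨e, A₂, he, hA₂, h₂⟩ := hK
  have hA : 1 ≤ max A₁ A₂ := hA₁.trans (le_max_left _ _)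
  refine metric_lemma (ratMap ℚ p q) (fun z w => dv v (rep z) (rep w))
    (fun z => wv v p q n (rep z)) β (max A₁ A₂) e hA he
    (fun z w => dv_nonneg v _ _) (fun z => wv_nonneg v _ _ _ _)
    (fun x y z => dv_tri v _ _ _ (rep_ne _) (rep_ne _) (rep_ne _))
    (fun x y => dv_comm v _ _) ?_ ?_ ?_ ?_
  · intro x y
    rw [hdvF]
    refine (h₁ _ _ (rep_ne x) (rep_ne y)).1.trans ?_
    have := dv_nonneg v (rep x) (rep y)
    gcongr
    exact le_max_left _ _
  · intro x y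
    rw [hdvF]
    refine (h₁ _ _ (rep_ne x) (rep_ne y)).2.trans ?_
    have := dv_nonneg v (rep x) (rep y)
    have := wv_nonneg v p q n (rep x)
    gcongr
    exact le_max_left _ _
  · rcases h₂ with h | ⟨s, h⟩
    · exact Or.inl h
    · refine Or.inr ⟨s, fun x => ?_⟩
      obtain ⟨i, hi, h3⟩ := h x
      refine ⟨i, hi, h3.trans ?_⟩
      have := dv_nonneg v (rep ((ratMap ℚ p q)^[s] x)) (rep β)
      gcongr
      exact le_max_right _ _
  · intro m hm
    have hne := hw m hm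
    have h1 := nm_pos v (rep_ne β)
    have h2 := nm_pos v (rep_ne ((ratMap ℚ p q)^[m] β))
    have h3 : det (rep β) (rep ((ratMap ℚ p q)^[m] β)) ≠ 0 := by
      intro h0
      apply hne
      -- proportional vectors
      set x := rep β
      set y := rep ((ratMap ℚ p q)^[m] β)
      have hx : x ≠ 0 := rep_ne β
      have hy : y ≠ 0 := rep_ne _
      have hxy : toP ℚ y = toP ℚ x := by
        unfold det at h0
        unfold toP
        by_cases a2 : x.2 = 0
        · have a1 : x.1 ≠ 0 := fun a1 => hx (Prod.ext a1 a2)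
          rw [a2, zero_mul, sub_zero] at h0
          have b2 : y.2 = 0 := by
            rcases mul_eq_zero.1 h0 with h | h
            · exact absurd h a1
            · exact h
          rw [if_pos a2, if_pos b2]
        · by_cases b2 : y.2 = 0
          · have b1 : y.1 ≠ 0 := fun b1 => hy (Prod.ext b1 b2)
            rw [b2, mul_zero, zero_sub, neg_eq_zero] at h0
            rcases mul_eq_zero.1 h0 with h | h
            · exact absurd h a2
            · exact absurd h b1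
          · rw [if_neg a2, if_neg b2]
            congr 1
            rw [div_eq_div_iff b2 a2]
            linear_combination -h0
      rw [toP_rep, toP_rep] at hxy
      exact hxy
    have h4 : 0 < v (det (rep β) (rep ((ratMap ℚ p q)^[m] β))) := v.pos h3
    change 0 < dv v (rep β) (rep ((ratMap ℚ p q)^[m] β))
    unfold dv
    positivity

end

end Pool.Agent.Work.MP_1bed24_nt
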