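import Pool.Agent.Work.MP_1bed24_nt.Forms

/-!
Divisibility and size of the Bezoutian.
-/

set_option autoImplicit false

namespace Pool.Agent.Work.MP_1bed24_nt

open Finset

section dvd

variable {R : Type*} [CommRing R]

theorem TT_dvd_fst (n i j : ℕ) (hi : i ≤ n + 1) (hj : j ≤ n + 1) (x y : R × R) :
    det x y ∣ x.1 ^ n * TT n i j x y - y.1 ^ n * TT n i j x x := by
  unfold TT
  split_ifs with h
  · rw [mul_sum, mul_sum, ← sum_sub_distrib]
    refine dvd_sum fun l _ => ?_
    obtain ⟨c, hc, -⟩ := mono_dvd_fst n (j + l) (i - 1 - l) (by omega) x y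
    rw [hc]
    exact dvd_mul_right _ _
  · rw [mul_neg, mul_neg, sub_neg_eq_add, neg_add_eq_sub, mul_sum, mul_sum, ← sum_sub_distrib]
    refine dvd_sum fun l _ => ?_
    obtain ⟨c, hc, -⟩ := mono_dvd_fst n (i + l) (j - 1 - l) (by omega) x y
    rw [← neg_sub, hc]
    exact (dvd_mul_right _ _).neg_right

theorem TT_dvd_snd (n i j : ℕ) (hi : i ≤ n + 1) (hj : j ≤ n + 1) (x y : R × R) :
    det x y ∣ x.2 ^ n * TT n i j x y - y.2 ^ n * TT n i j x x := by
  unfold TT
  split_ifs with h
  · rw [mul_sum, mul_sum, ← sum_sub_distrib]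
    refine dvd_sum fun l _ => ?_
    obtain ⟨c, hc, -⟩ := mono_dvd_snd n (j + l) (i - 1 - l) (by omega) x y
    rw [hc]
    exact (dvd_mul_right _ _).neg_right
  · rw [mul_neg, mul_neg, sub_neg_eq_add, neg_add_eq_sub, mul_sum, mul_sum, ← sum_sub_distrib]
    refine dvd_sum fun l _ => ?_
    obtain ⟨c, hc, -⟩ := mono_dvd_snd n (i + l) (j - 1 - l) (by omega) x y
    rw [← neg_sub, hc, neg_neg]
    exact dvd_mul_right _ _

theorem bez_dvd_fst (p q : ℕ → R) (n : ℕ) (x y : R × R) :
    det x y ∣ x.1 ^ n * bez p q n x y - y.1 ^ n * bez p q n x x := by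
  unfold bez
  rw [mul_sum, mul_sum, ← sum_sub_distrib]
  refine dvd_sum fun i hi => ?_
  rw [mul_sum, mul_sum, ← sum_sub_distrib]
  refine dvd_sum fun j hj => ?_
  rw [mem_range] at hi hj
  have e : x.1 ^ n * (p i * q j * TT n i j x y) - y.1 ^ n * (p i * q j * TT n i j x x) =
      p i * q j * (x.1 ^ n * TT n i j x y - y.1 ^ n * TT n i j x x) := by ring
  rw [e]
  exact (TT_dvd_fst n i j (by omega) (by omega) x y).mul_left _

theorem bez_dvd_snd (p q : ℕ → R) (n : ℕ) (x y : R × R) :
    det x y ∣ x.2 ^ n * bez p q n x y - y.2 ^ n * bez p q n x x := by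
  unfold bez
  rw [mul_sum, mul_sum, ← sum_sub_distrib]
  refine dvd_sum fun i hi => ?_
  rw [mul_sum, mul_sum, ← sum_sub_distrib]
  refine dvd_sum fun j hj => ?_
  rw [mem_range] at hi hj
  have e : x.2 ^ n * (p i * q j * TT n i j x y) - y.2 ^ n * (p i * q j * TT n i j x x) =
      p i * q j * (x.2 ^ n * TT n i j x y - y.2 ^ n * TT n i j x x) := by ring
  rw [e]
  exact (TT_dvd_snd n i j (by omega) (by omega) x y).mul_left _

end dvd

section size

variable (v : AbsoluteValue ℚ ℝ)

/-- sup norm -/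
def nm (x : ℚ × ℚ) : ℝ := max (v x.1) (v x.2)

theorem nm_nonneg (x : ℚ × ℚ) : 0 ≤ nm v x := le_max_of_le_left (v.nonneg _)

theorem fst_le (x : ℚ × ℚ) : v x.1 ≤ nm v x := le_max_left _ _

theorem snd_le (x : ℚ × ℚ) : v x.2 ≤ nm v x := le_max_right _ _

theorem nm_pos {x : ℚ × ℚ} (hx : x ≠ 0) : 0 < nm v x := by
  by_contra h
  push Not at h
  apply hx
  have h1 : v x.1 = 0 := le_antisymm ((fst_le v x).trans h) (v.nonneg _)
  have h2 : v x.2 = 0 := le_antisymm ((snd_le v x).trans h) (v.nonneg _)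
  rw [v.eq_zero] at h1 h2
  exact Prod.ext h1 h2

theorem mono_le (n a b : ℕ) (ha : a ≤ n) (hb : b ≤ n) (x y : ℚ × ℚ) :
    v (mono n a b x y) ≤ nm v x ^ n * nm v y ^ n := by
  unfold mono
  rw [map_mul, map_mul, map_mul, map_pow, map_pow, map_pow, map_pow]
  have e1 : nm v x ^ n = nm v x ^ a * nm v x ^ (n - a) := by
    rw [← pow_add]
    congr 1
    omega
  have e2 : nm v y ^ n = nm v y ^ b * nm v y ^ (n - b) := by
    rw [← pow_add]
    congr 1
    omega
  rw [e1, e2]
  have := fst_le v x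
  have := snd_le v x
  have := fst_le v y
  have := snd_le v y
  have := nm_nonneg v x
  have := nm_nonneg v y
  gcongr

private theorem geom_le (m : ℕ) (x y : ℚ × ℚ) :
    v (∑ l ∈ range m, (x.1 * y.2) ^ l * (x.2 * y.1) ^ (m - 1 - l)) ≤
      m * (nm v x * nm v y) ^ (m - 1) := by
  refine (v.sum_le _ _).trans ?_
  have h : ∀ l ∈ range m, v ((x.1 * y.2) ^ l * (x.2 * y.1) ^ (m - 1 - l)) ≤
      (nm v x * nm v y) ^ (m - 1) := by
    intro l hl
    rw [mem_range] at hl
    rw [map_mul, map_pow, map_pow, map_mul, map_mul]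
    have e : (nm v x * nm v y) ^ (m - 1) =
        (nm v x * nm v y) ^ l * (nm v x * nm v y) ^ (m - 1 - l) := by
      rw [← pow_add]
      congr 1
      omega
    rw [e]
    have := fst_le v x
    have := snd_le v x
    have := fst_le v y
    have := snd_le v y
    have := nm_nonneg v x
    have := nm_nonneg v y
    gcongr
  refine (sum_le_card_nsmul _ _ _ h).trans ?_
  rw [card_range, nsmul_eq_mul]

private theorem aux_le (n a k c : ℕ) (hn : 1 ≤ n) (hk : k + c = n) (ha : a ≤ n) (x y : ℚ × ℚ)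
    (z : ℚ) (hz : v z ≤ nm v x * nm v y) (g : ℚ)
    (hg : v g ≤ c * (nm v x * nm v y) ^ (c - 1)) :
    v (det x y * (x.1 ^ a * x.2 ^ (n - a) * z ^ k * g)) ≤
      n * (v (det x y) * (nm v x ^ (2 * n - 1) * nm v y ^ (n - 1))) := by
  have hX := nm_nonneg v x
  have hY := nm_nonneg v y
  rcases Nat.eq_zero_or_pos c with hc | hc
  · subst hc
    have h0 : v g = 0 := le_antisymm (by simpa using hg) (v.nonneg _)
    rw [map_mul, map_mul, h0, mul_zero, mul_zero]
    positivity
  · rw [map_mul, map_mul, map_mul, map_mul, map_pow, map_pow, map_pow]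
    have h1 : v x.1 ^ a * v x.2 ^ (n - a) ≤ nm v x ^ n := by
      have e1 : nm v x ^ n = nm v x ^ a * nm v x ^ (n - a) := by
        rw [← pow_add]
        congr 1
        omega
      rw [e1]
      have := fst_le v x
      have := snd_le v x
      gcongr
    have hc' : (c : ℝ) ≤ n := by exact_mod_cast (by omega : c ≤ n)
    calc v (det x y) * (v x.1 ^ a * v x.2 ^ (n - a) * v z ^ k * v g)
        ≤ v (det x y) * (nm v x ^ n * (nm v x * nm v y) ^ k *
          (n * (nm v x * nm v y) ^ (c - 1))) := by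
          have hg' : v g ≤ n * (nm v x * nm v y) ^ (c - 1) := hg.trans (by gcongr)
          have : 0 ≤ v (det x y) := v.nonneg _
          gcongr
      _ = n * (v (det x y) * (nm v x ^ (2 * n - 1) * nm v y ^ (n - 1))) := by
          have e2 : 2 * n - 1 = n + (n - 1) := by omega
          have e3 : n - 1 = k + (c - 1) := by omega
          rw [e2, pow_add, e3, mul_pow, mul_pow]
          ring

theorem TT_le (n i j : ℕ) (hi : i ≤ n + 1) (hj : j ≤ n + 1) (x y : ℚ × ℚ) :
    v (TT n i j x y) ≤ (n + 1) * (nm v x ^ n * nm v y ^ n) := by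
  have hX := nm_nonneg v x
  have hY := nm_nonneg v y
  have key : ∀ i j : ℕ, j < i → i ≤ n + 1 →
      v (∑ l ∈ range (i - j), mono n (j + l) (i - 1 - l) x y) ≤
        (n + 1) * (nm v x ^ n * nm v y ^ n) := by
    intro i j hji hi
    refine (v.sum_le _ _).trans ?_
    have h : ∀ l ∈ range (i - j), v (mono n (j + l) (i - 1 - l) x y) ≤
        nm v x ^ n * nm v y ^ n := by
      intro l hl
      rw [mem_range] at hl
      exact mono_le v n _ _ (by omega) (by omega) x y
    refine (sum_le_card_nsmul _ _ _ h).trans ?_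
    rw [card_range, nsmul_eq_mul]
    have : ((i - j : ℕ) : ℝ) ≤ n + 1 := by exact_mod_cast (by omega : i - j ≤ n + 1)
    gcongr
  unfold TT
  split_ifs with h
  · exact key i j h hi
  · rw [v.map_neg]
    rcases (not_lt.1 h).lt_or_eq with h1 | h1
    · exact key j i h1 hj
    · subst h1
      simp
      positivity

theorem TT_diff_fst (n i j : ℕ) (hn : 1 ≤ n) (hi : i ≤ n + 1) (hj : j ≤ n + 1) (x y : ℚ × ℚ) :
    v (x.1 ^ n * TT n i j x y - y.1 ^ n * TT n i j x x) ≤
      (n + 1) * (n * (v (det x y) * (nm v x ^ (2 * n - 1) * nm v y ^ (n - 1)))) := by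
  have hX := nm_nonneg v x
  have hY := nm_nonneg v y
  have hD : 0 ≤ v (det x y) := v.nonneg _
  have key : ∀ i j : ℕ, j < i → i ≤ n + 1 →
      v (x.1 ^ n * ∑ l ∈ range (i - j), mono n (j + l) (i - 1 - l) x y -
        y.1 ^ n * ∑ l ∈ range (i - j), mono n (j + l) (i - 1 - l) x x) ≤
      (n + 1) * (n * (v (det x y) * (nm v x ^ (2 * n - 1) * nm v y ^ (n - 1)))) := by
    intro i j hji hi
    rw [mul_sum, mul_sum, ← sum_sub_distrib]
    refine (v.sum_le _ _).trans ?_
    have h : ∀ l ∈ range (i - j), v (x.1 ^ n * mono n (j + l) (i - 1 - l) x y -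
        y.1 ^ n * mono n (j + l) (i - 1 - l) x x) ≤
        n * (v (det x y) * (nm v x ^ (2 * n - 1) * nm v y ^ (n - 1))) := by
      intro l hl
      rw [mem_range] at hl
      obtain ⟨c, hc, hc2⟩ := mono_dvd_fst n (j + l) (i - 1 - l) (by omega) x y
      rw [hc]
      refine aux_le v n (j + l) (i - 1 - l) (n - (i - 1 - l)) hn (by omega) (by omega) x y
        (x.1 * y.1) ?_ c ?_
      · rw [map_mul]
        exact mul_le_mul (fst_le v x) (fst_le v y) (v.nonneg _) hX
      · rw [hc2]
        exact geom_le v _ x y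
    refine (sum_le_card_nsmul _ _ _ h).trans ?_
    rw [card_range, nsmul_eq_mul]
    have : ((i - j : ℕ) : ℝ) ≤ n + 1 := by exact_mod_cast (by omega : i - j ≤ n + 1)
    gcongr
  unfold TT
  split_ifs with h
  · exact key i j h hi
  · rw [mul_neg, mul_neg, sub_neg_eq_add, neg_add_eq_sub, ← v.map_neg, neg_sub]
    rcases (not_lt.1 h).lt_or_eq with h1 | h1
    · exact key j i h1 hj
    · subst h1
      simp
      positivity

theorem TT_diff_snd (n i j : ℕ) (hn : 1 ≤ n) (hi : i ≤ n + 1) (hj : j ≤ n + 1) (x y : ℚ × ℚ) :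
    v (x.2 ^ n * TT n i j x y - y.2 ^ n * TT n i j x x) ≤
      (n + 1) * (n * (v (det x y) * (nm v x ^ (2 * n - 1) * nm v y ^ (n - 1)))) := by
  have hX := nm_nonneg v x
  have hY := nm_nonneg v y
  have hD : 0 ≤ v (det x y) := v.nonneg _
  have key : ∀ i j : ℕ, j < i → i ≤ n + 1 →
      v (x.2 ^ n * ∑ l ∈ range (i - j), mono n (j + l) (i - 1 - l) x y -
        y.2 ^ n * ∑ l ∈ range (i - j), mono n (j + l) (i - 1 - l) x x) ≤
      (n + 1) * (n * (v (det x y) * (nm v x ^ (2 * n - 1) * nm v y ^ (n - 1)))) := by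
    intro i j hji hi
    rw [mul_sum, mul_sum, ← sum_sub_distrib]
    refine (v.sum_le _ _).trans ?_
    have h : ∀ l ∈ range (i - j), v (x.2 ^ n * mono n (j + l) (i - 1 - l) x y -
        y.2 ^ n * mono n (j + l) (i - 1 - l) x x) ≤
        n * (v (det x y) * (nm v x ^ (2 * n - 1) * nm v y ^ (n - 1))) := by
      intro l hl
      rw [mem_range] at hl
      obtain ⟨c, hc, hc2⟩ := mono_dvd_snd n (j + l) (i - 1 - l) (by omega) x y
      rw [hc, v.map_neg]
      refine aux_le v n (j + l) (n - (i - 1 - l)) (i - 1 - l) hn (by omega) (by omega) x y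
        (x.2 * y.2) ?_ c ?_
      · rw [map_mul]
        exact mul_le_mul (snd_le v x) (snd_le v y) (v.nonneg _) hX
      · rw [hc2]
        exact geom_le v _ x y
    refine (sum_le_card_nsmul _ _ _ h).trans ?_
    rw [card_range, nsmul_eq_mul]
    have : ((i - j : ℕ) : ℝ) ≤ n + 1 := by exact_mod_cast (by omega : i - j ≤ n + 1)
    gcongr
  unfold TT
  split_ifs with h
  · exact key i j h hi
  · rw [mul_neg, mul_neg, sub_neg_eq_add, neg_add_eq_sub, ← v.map_neg, neg_sub]
    rcases (not_lt.1 h).lt_or_eq with h1 | h1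
    · exact key j i h1 hj
    · subst h1
      simp
      positivity

/-- a constant for the size of the Bezoutian -/
noncomputable def KB (p q : ℕ → ℚ) (n : ℕ) : ℝ :=
  ∑ i ∈ range (n + 2), ∑ j ∈ range (n + 2), v (p i * q j) * ((n + 1) * n + (n + 1))

theorem KB_nonneg (p q : ℕ → ℚ) (n : ℕ) : 0 ≤ KB v p q n := by
  unfold KB
  refine sum_nonneg fun i _ => sum_nonneg fun j _ => mul_nonneg (v.nonneg _) (by positivity)

theorem bez_le (p q : ℕ → ℚ) (n : ℕ) (x y : ℚ × ℚ) :
    v (bez p q n x y) ≤ KB v p q n * (nm v x ^ n * nm v y ^ n) := by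
  have hX := nm_nonneg v x
  have hY := nm_nonneg v y
  unfold bez KB
  refine (v.sum_le _ _).trans ?_
  rw [sum_mul]
  refine sum_le_sum fun i hi => ?_
  refine (v.sum_le _ _).trans ?_
  rw [sum_mul]
  refine sum_le_sum fun j hj => ?_
  rw [mem_range] at hi hj
  rw [map_mul, mul_assoc]
  refine mul_le_mul_of_nonneg_left ((TT_le v n i j (by omega) (by omega) x y).trans ?_)
    (v.nonneg _)
  have : 0 ≤ nm v x ^ n * nm v y ^ n := by positivity
  have h2 : (0 : ℝ) ≤ (n + 1) * n := by positivity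
  nlinarith

theorem bez_diff (p q : ℕ → ℚ) (n : ℕ) (hn : 1 ≤ n) (x y : ℚ × ℚ) :
    nm v x ^ n * v (bez p q n x y) ≤ nm v y ^ n * v (bez p q n x x) +
      KB v p q n * (v (det x y) * (nm v x ^ (2 * n - 1) * nm v y ^ (n - 1))) := by
  have hX := nm_nonneg v x
  have hY := nm_nonneg v y
  have hD : 0 ≤ v (det x y) := v.nonneg _
  have h1 : v (x.1 ^ n * bez p q n x y - y.1 ^ n * bez p q n x x) ≤
      KB v p q n * (v (det x y) * (nm v x ^ (2 * n - 1) * nm v y ^ (n - 1))) := by
    unfold bez KB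
    rw [mul_sum, mul_sum, ← sum_sub_distrib]
    refine (v.sum_le _ _).trans ?_
    rw [sum_mul]
    refine sum_le_sum fun i hi => ?_
    rw [mul_sum, mul_sum, ← sum_sub_distrib]
    refine (v.sum_le _ _).trans ?_
    rw [sum_mul]
    refine sum_le_sum fun j hj => ?_
    rw [mem_range] at hi hj
    have e : x.1 ^ n * (p i * q j * TT n i j x y) - y.1 ^ n * (p i * q j * TT n i j x x) =
        p i * q j * (x.1 ^ n * TT n i j x y - y.1 ^ n * TT n i j x x) := by ring
    rw [e, map_mul, mul_assoc]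
    refine mul_le_mul_of_nonneg_left
      ((TT_diff_fst v n i j hn (by omega) (by omega) x y).trans ?_) (v.nonneg _)
    have h0 : 0 ≤ v (det x y) * (nm v x ^ (2 * n - 1) * nm v y ^ (n - 1)) := by positivity
    have h2 : (0 : ℝ) ≤ n + 1 := by positivity
    nlinarith
  have h2 : v (x.2 ^ n * bez p q n x y - y.2 ^ n * bez p q n x x) ≤
      KB v p q n * (v (det x y) * (nm v x ^ (2 * n - 1) * nm v y ^ (n - 1))) := by
    unfold bez KB
    rw [mul_sum, mul_sum, ← sum_sub_distrib]
    refine (v.sum_le _ _).trans ?_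
    rw [sum_mul]
    refine sum_le_sum fun i hi => ?_
    rw [mul_sum, mul_sum, ← sum_sub_distrib]
    refine (v.sum_le _ _).trans ?_
    rw [sum_mul]
    refine sum_le_sum fun j hj => ?_
    rw [mem_range] at hi hj
    have e : x.2 ^ n * (p i * q j * TT n i j x y) - y.2 ^ n * (p i * q j * TT n i j x x) =
        p i * q j * (x.2 ^ n * TT n i j x y - y.2 ^ n * TT n i j x x) := by ring
    rw [e, map_mul, mul_assoc]
    refine mul_le_mul_of_nonneg_left
      ((TT_diff_snd v n i j hn (by omega) (by omega) x y).trans ?_) (v.nonneg _)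
    have h0 : 0 ≤ v (det x y) * (nm v x ^ (2 * n - 1) * nm v y ^ (n - 1)) := by positivity
    have h2 : (0 : ℝ) ≤ n + 1 := by positivity
    nlinarith
  have hb : 0 ≤ v (bez p q n x x) := v.nonneg _
  rcases max_choice (v x.1) (v x.2) with h | h
  · have hN : nm v x = v x.1 := h
    have h3 : v (x.1 ^ n * bez p q n x y) ≤ v (y.1 ^ n * bez p q n x x) +
        v (x.1 ^ n * bez p q n x y - y.1 ^ n * bez p q n x x) := by
      have := v.add_le (y.1 ^ n * bez p q n x x)
        (x.1 ^ n * bez p q n x y - y.1 ^ n * bez p q n x x)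
      rwa [add_sub_cancel] at this
    have h4 : v (y.1 ^ n * bez p q n x x) ≤ nm v y ^ n * v (bez p q n x x) := by
      rw [map_mul, map_pow]
      have := fst_le v y
      gcongr
    rw [map_mul, map_pow, ← hN] at h3
    linarith
  · have hN : nm v x = v x.2 := h
    have h3 : v (x.2 ^ n * bez p q n x y) ≤ v (y.2 ^ n * bez p q n x x) +
        v (x.2 ^ n * bez p q n x y - y.2 ^ n * bez p q n x x) := by
      have := v.add_le (y.2 ^ n * bez p q n x x)
        (x.2 ^ n * bez p q n x y - y.2 ^ n * bez p q n x x)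
      rwa [add_sub_cancel] at this
    have h4 : v (y.2 ^ n * bez p q n x x) ≤ nm v y ^ n * v (bez p q n x x) := by
      rw [map_mul, map_pow]
      have := snd_le v y
      gcongr
    rw [map_mul, map_pow, ← hN] at h3
    linarith

end size

end Pool.Agent.Work.MP_1bed24_nt
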