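import Pool.Agent.Work.MP_1bed24_nt.Homog

/-!
Bezout identities for a pair of coprime forms.
-/

set_option autoImplicit false

namespace Pool.Agent.Work.MP_1bed24_nt

open Finset Polynomial

theorem clear_denoms (a : ℚ[X]) : ∃ (c : ℤ) (A : ℤ[X]), c ≠ 0 ∧
    A.map (Int.castRingHom ℚ) = C (c : ℚ) * a := by
  obtain ⟨b, hb0, hb⟩ := IsLocalization.integerNormalization_spec (nonZeroDivisors ℤ) a
  refine ⟨b, IsLocalization.integerNormalization (nonZeroDivisors ℤ) a,
    nonZeroDivisors.ne_zero hb0, ?_⟩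
  rw [algebraMap_int_eq] at hb
  rw [hb]
  ext i
  simp

section field

variable {K : Type} [Field K]

theorem form_add (a b : ℤ[X]) (d : ℕ) (x : K × K) :
    form (cf K (a + b)) d x = form (cf K a) d x + form (cf K b) d x := by
  unfold form cf
  rw [← sum_add_distrib]
  refine sum_congr rfl fun i _ => ?_
  rw [coeff_add]
  push_cast
  ring

theorem form_C_mul (r : ℤ) (a : ℤ[X]) (d : ℕ) (x : K × K) :
    form (cf K (C r * a)) d x = r * form (cf K a) d x := by
  unfold form cf
  rw [mul_sum]
  refine sum_congr rfl fun i _ => ?_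
  rw [coeff_C_mul]
  push_cast
  ring

theorem form_C (r : ℤ) (d : ℕ) (x : K × K) : form (cf K (C r)) d x = r * x.2 ^ d := by
  by_cases h2 : x.2 = 0
  · have hx : x = (x.1, 0) := Prod.ext rfl h2
    rw [hx, form_inf]
    unfold cf
    rcases Nat.eq_zero_or_pos d with h | h
    · subst h
      simp
    · rw [coeff_C_of_ne_zero (by omega)]
      simp [h.ne']
  · rw [form_ne _ d (by simp) x h2, aeval_C]
    simp [mul_comm]

theorem form_mul (a b : ℤ[X]) (m k : ℕ) (ha : a.natDegree ≤ m) (hb : b.natDegree ≤ k)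
    (x : K × K) :
    form (cf K (a * b)) (m + k) x = form (cf K a) m x * form (cf K b) k x := by
  by_cases h2 : x.2 = 0
  · have hx : x = (x.1, 0) := Prod.ext rfl h2
    rw [hx, form_inf, form_inf, form_inf]
    unfold cf
    rw [coeff_mul_add_eq_of_natDegree_le ha hb]
    push_cast
    ring
  · rw [form_ne _ _ (natDegree_mul_le.trans (add_le_add ha hb)) x h2, form_ne _ _ ha x h2,
      form_ne _ _ hb x h2, map_mul]
    ring

theorem form_reflect (p : ℤ[X]) (d : ℕ) (x : K × K) :
    form (cf K (reflect d p)) d (x.2, x.1) = form (cf K p) d x := by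
  unfold form cf
  rw [← sum_range_reflect]
  refine sum_congr rfl fun i hi => ?_
  rw [mem_range] at hi
  have e : d + 1 - 1 - i = d - i := by omega
  have e2 : revAt d (d - i) = i := by
    rw [revAt_le (by omega)]
    omega
  simp only
  rw [e, coeff_reflect, e2]
  have e3 : d - (d - i) = i := by omega
  rw [e3]
  ring

end field

theorem bezout_aux (p q : ℤ[X]) (d : ℕ) (hp : p.natDegree ≤ d) (hq : q.natDegree ≤ d)
    (hcop : IsCoprime (p.map (Int.castRingHom ℚ)) (q.map (Int.castRingHom ℚ))) :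
    ∃ (R : ℤ) (N : ℕ) (u v : ℤ[X]), R ≠ 0 ∧ ∀ (K : Type) [Field K] (x : K × K),
      form (cf K u) N x * form (cf K p) d x + form (cf K v) N x * form (cf K q) d x =
        (R : K) * x.2 ^ (N + d) := by
  obtain ⟨a, b, hab⟩ := hcop
  obtain ⟨c₁, A, hc₁, hA⟩ := clear_denoms a
  obtain ⟨c₂, B, hc₂, hB⟩ := clear_denoms b
  have hid : C c₂ * A * p + C c₁ * B * q = C (c₁ * c₂) := by
    apply Polynomial.map_injective (Int.castRingHom ℚ) Int.cast_injective
    rw [Polynomial.map_add, Polynomial.map_mul, Polynomial.map_mul, Polynomial.map_mul,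
      Polynomial.map_mul, hA, hB, map_C, map_C, map_C]
    simp only [eq_intCast]
    push_cast
    rw [C_mul]
    linear_combination (C (c₁ : ℚ) * C (c₂ : ℚ)) * hab
  set N := max (C c₂ * A).natDegree (C c₁ * B).natDegree with hN
  refine ⟨c₁ * c₂, N, C c₂ * A, C c₁ * B, mul_ne_zero hc₁ hc₂, ?_⟩
  intro K _ x
  rw [← form_mul _ _ N d (le_max_left _ _) hp, ← form_mul _ _ N d (le_max_right _ _) hq,
    ← form_add, hid, form_C]

theorem coprime_reflect (p q : ℤ[X]) (d : ℕ) (hp : p.natDegree ≤ d) (hq : q.natDegree ≤ d)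
    (hcop : IsCoprime (p.map (Int.castRingHom ℚ)) (q.map (Int.castRingHom ℚ)))
    (hpd : p.coeff d ≠ 0) :
    IsCoprime ((reflect d p).map (Int.castRingHom ℚ)) ((reflect d q).map (Int.castRingHom ℚ)) := by
  obtain ⟨a, b, hab⟩ := hcop
  rw [← reflect_map, ← reflect_map]
  set P := p.map (Int.castRingHom ℚ) with hP
  set Q := q.map (Int.castRingHom ℚ) with hQ
  have hPd : P.natDegree ≤ d := natDegree_map_le.trans hp
  have hQd : Q.natDegree ≤ d := natDegree_map_le.trans hq
  set N := max a.natDegree b.natDegree with hN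
  have h1 : reflect N a * reflect d P + reflect N b * reflect d Q = X ^ (N + d) := by
    rw [← reflect_mul a P (le_max_left _ _) hPd, ← reflect_mul b Q (le_max_right _ _) hQd,
      ← reflect_add, hab, ← C_1, reflect_C, C_1, one_mul]
  have h2 : IsCoprime (reflect d P) (X ^ (N + d)) := by
    apply IsCoprime.pow_right
    apply IsCoprime.symm
    rw [Prime.coprime_iff_not_dvd prime_X, X_dvd_iff]
    rw [coeff_reflect, revAt_le (Nat.zero_le d), Nat.sub_zero, hP, coeff_map]
    simpa using hpd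
  obtain ⟨s, t, hst⟩ := h2
  exact ⟨s + t * reflect N a, t * reflect N b, by linear_combination hst + t * h1⟩

theorem bezout (p q : ℤ[X]) (n : ℕ) (hd : ratDeg p q = n + 1)
    (hcop : IsCoprime (p.map (Int.castRingHom ℚ)) (q.map (Int.castRingHom ℚ))) :
    ∃ (R : ℤ) (N₁ N₂ : ℕ) (u v u' v' : ℤ[X]), R ≠ 0 ∧ ∀ (K : Type) [Field K] (x : K × K),
      (form (cf K u) N₁ x * form (cf K p) (n + 1) x + form (cf K v) N₁ x *
        form (cf K q) (n + 1) x = (R : K) * x.2 ^ (N₁ + (n + 1))) ∧
      (form (cf K u') N₂ (x.2, x.1) * form (cf K p) (n + 1) x + form (cf K v') N₂ (x.2, x.1) *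
        form (cf K q) (n + 1) x = (R : K) * x.1 ^ (N₂ + (n + 1))) := by
  have hp : p.natDegree ≤ n + 1 := hd ▸ le_max_left _ _
  have hq : q.natDegree ≤ n + 1 := hd ▸ le_max_right _ _
  have hcop' : IsCoprime ((reflect (n + 1) p).map (Int.castRingHom ℚ))
      ((reflect (n + 1) q).map (Int.castRingHom ℚ)) := by
    unfold ratDeg at hd
    rcases max_choice p.natDegree q.natDegree with h | h
    · apply coprime_reflect p q _ hp hq hcop
      rw [hd] at h
      rw [h, coeff_natDegree, leadingCoeff_ne_zero]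
      intro h0
      rw [h0, natDegree_zero] at h
      omega
    · apply IsCoprime.symm
      apply coprime_reflect q p _ hq hp hcop.symm
      rw [hd] at h
      rw [h, coeff_natDegree, leadingCoeff_ne_zero]
      intro h0
      rw [h0, natDegree_zero] at h
      omega
  have hrd : ∀ r : ℤ[X], r.natDegree ≤ n + 1 → (reflect (n + 1) r).natDegree ≤ n + 1 := by
    intro r hr
    rw [natDegree_le_iff_coeff_eq_zero]
    intro i hi
    rw [coeff_reflect, revAt_eq_self_of_lt hi]
    exact coeff_eq_zero_of_natDegree_lt (lt_of_le_of_lt hr hi)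
  obtain ⟨R₁, N₁, u, v, hR₁, h₁⟩ := bezout_aux p q (n + 1) hp hq hcop
  obtain ⟨R₂, N₂, u', v', hR₂, h₂⟩ := bezout_aux _ _ (n + 1) (hrd p hp) (hrd q hq) hcop'
  refine ⟨R₁ * R₂, N₁, N₂, C R₂ * u, C R₂ * v, C R₁ * u', C R₁ * v', mul_ne_zero hR₁ hR₂, ?_⟩
  intro K _ x
  constructor
  · have := h₁ K x
    rw [form_C_mul, form_C_mul]
    push_cast
    linear_combination (R₂ : K) * this
  · have := h₂ K (x.2, x.1)
    rw [form_reflect, form_reflect] at this
    rw [form_C_mul, form_C_mul]
    push_cast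
    simp only at this
    linear_combination (R₁ : K) * this

end Pool.Agent.Work.MP_1bed24_nt
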