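import Pool.Agent.Work.MP_1bed24_nt.Growth

/-!
For all large `N` the determinant of `β` and `f^N(β)` has a primitive prime divisor.
-/

set_option autoImplicit false

namespace Pool.Agent.Work.MP_1bed24_nt

open Finset Polynomial

theorem dvd_of_parts (D T : ℕ) (hD : D ≠ 0) (S : Finset ℕ)
    (h : ∀ ℓ : ℕ, ℓ.Prime → ℓ ∉ S → ∀ t, ℓ ^ t ∣ D → ℓ ^ t ∣ T) :
    D ∣ (∏ ℓ ∈ S, ℓ ^ D.factorization ℓ) * T := by
  rw [Nat.dvd_iff_prime_pow_dvd_dvd]
  intro ℓ t hℓ ht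
  by_cases hS : ℓ ∈ S
  · refine Dvd.dvd.mul_right ?_ _
    refine Dvd.dvd.trans ?_ (dvd_prod_of_mem (fun ℓ => ℓ ^ D.factorization ℓ) hS)
    exact pow_dvd_pow ℓ ((hℓ.pow_dvd_iff_le_factorization hD).1 ht)
  · exact (h ℓ hℓ hS t ht).mul_left _

theorem exists_large (K : ℝ) (d : ℝ) (hd : 2 ≤ d) : ∃ N₀ : ℕ, ∀ N, N₀ ≤ N →
    K * N * d ^ (N / 2) < d ^ N := by
  have h1 := tendsto_pow_const_div_const_pow_of_one_lt 1 (by norm_num : (1 : ℝ) < 2)
  have h2 : ∀ᶠ m : ℕ in Filter.atTop, (m : ℝ) ^ 1 / 2 ^ m < 1 / (2 * |K| + 1) :=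
    h1.eventually (gt_mem_nhds (by positivity))
  obtain ⟨M₀, hM₀⟩ := Filter.eventually_atTop.1 h2
  refine ⟨2 * M₀ + 1, fun N hN => ?_⟩
  set M := N - N / 2 with hM
  have hMM : M₀ ≤ M := by omega
  have hN2 : N = N / 2 + M := by omega
  have hN3 : N ≤ 2 * M := by omega
  have h3 := hM₀ M hMM
  rw [pow_one, div_lt_div_iff₀ (by positivity) (by positivity), one_mul] at h3
  have hN4 : (N : ℝ) ≤ 2 * M := by exact_mod_cast hN3
  have hM1 : (1 : ℝ) ≤ M := by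
    have : 1 ≤ M := by omega
    exact_mod_cast this
  have h4 : K * N < d ^ M := by
    calc K * N ≤ |K| * N := by
          have := le_abs_self K
          gcongr
      _ ≤ |K| * (2 * M) := by gcongr
      _ < M * (2 * |K| + 1) := by nlinarith
      _ < 2 ^ M := h3
      _ ≤ d ^ M := by gcongr
  have h5 : 0 < d ^ (N / 2) := by positivity
  have h6 : d ^ N = d ^ M * d ^ (N / 2) := by
    rw [← pow_add]
    congr 1
    omega
  rw [h6]
  exact mul_lt_mul_of_pos_right h4 h5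

theorem core (p q : ℤ[X]) (n : ℕ) (hn : 1 ≤ n) (hd : ratDeg p q = n + 1)
    (hcop : IsCoprime (p.map (Int.castRingHom ℚ)) (q.map (Int.castRingHom ℚ)))
    (β : Option ℚ)
    (H : (∃ j, Wf ℚ p q n (rep ((ratMap ℚ p q)^[j] β)) = 0) ∨
      ∃ k, ∀ y : ℂ × ℂ, y ≠ 0 → det (castv ℂ (repZ β)) ((Fm ℂ p q n)^[k] y) = 0 →
        ∃ i < k, Wf ℂ p q n ((Fm ℂ p q n)^[i] y) = 0)
    (hw : Function.Injective fun m : ℕ => (ratMap ℚ p q)^[m] β) (E₀ : ℤ) (hE₀ : E₀ ≠ 0) :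
    ∃ N₀ : ℕ, ∀ N, N₀ ≤ N → ∃ ℓ : ℕ, ℓ.Prime ∧ ¬ (ℓ : ℤ) ∣ E₀ ∧ (ℓ : ℤ) ∣ Dm p q β N ∧
      ∀ M, 1 ≤ M → M < N → ¬ (ℓ : ℤ) ∣ Dm p q β M := by
  have hw' : ∀ m, 1 ≤ m → (ratMap ℚ p q)^[m] β ≠ β := by
    intro m hm h
    have := hw (show (fun m : ℕ => (ratMap ℚ p q)^[m] β) m =
      (fun m : ℕ => (ratMap ℚ p q)^[m] β) 0 from h)
    omega
  obtain ⟨E, hE, hgood⟩ := good p q n hd hcop β H hw'
  obtain ⟨c, C, hc0, hC0, N₁, hLup, hLlo⟩ := growth p q n hn hd hcop β hw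
  -- archimedean place
  obtain ⟨B, hB1, m₀, hB⟩ := local_bound Rat.AbsoluteValue.real p q n hn hd hcop β H hw'
  -- bad primes
  set S : Finset ℕ := (E * E₀).natAbs.primeFactors with hS
  have hEE : E * E₀ ≠ 0 := mul_ne_zero hE hE₀
  have hbad : ∀ ℓ : ℕ, ∃ (b : ℝ) (m₁ : ℕ), 1 ≤ b ∧ (ℓ ∈ S → ∀ N, m₁ ≤ N → 1 ≤ N →
      (ℓ : ℝ) ^ (Dm p q β N).natAbs.factorization ℓ ≤ b ^ N) := by
    intro ℓ
    by_cases hℓ : ℓ ∈ S
    · have hp : ℓ.Prime := Nat.prime_of_mem_primeFactors hℓ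
      have : Fact ℓ.Prime := ⟨hp⟩
      obtain ⟨b, hb1, m₁, hb⟩ := local_bound (Rat.AbsoluteValue.padic ℓ) p q n hn hd hcop β H hw'
      refine ⟨b, m₁, hb1, fun _ N hN hN1 => ?_⟩
      have h1 := hb N hN
      have hv : ∀ a b, Rat.AbsoluteValue.padic ℓ (a + b) ≤
          max (Rat.AbsoluteValue.padic ℓ a) (Rat.AbsoluteValue.padic ℓ b) := by
        intro a b
        rw [Rat.AbsoluteValue.padic_eq_padicNorm, Rat.AbsoluteValue.padic_eq_padicNorm,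
          Rat.AbsoluteValue.padic_eq_padicNorm]
        exact_mod_cast padicNorm.nonarchimedean
      have hint : ∀ a : ℤ, Rat.AbsoluteValue.padic ℓ (a : ℚ) ≤ 1 :=
        fun a => Rat.AbsoluteValue.padic_le_one ℓ a
      unfold dv at h1
      rw [nm_rep _ hv hint, nm_rep _ hv hint, mul_one, div_one, det_rep,
        Rat.AbsoluteValue.padic_eq_padicNorm] at h1
      change _ ≤ ((padicNorm ℓ ((Dm p q β N : ℤ) : ℚ) : ℚ) : ℝ) at h1
      have hD := Dm_ne p q β hw' N hN1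
      have h2 : padicNorm ℓ ((Dm p q β N : ℤ) : ℚ) =
          ((ℓ : ℚ) ^ (Dm p q β N).natAbs.factorization ℓ)⁻¹ := by
        rw [padicNorm.eq_zpow_of_nonzero (by exact_mod_cast hD), padicValRat.of_int,
          Nat.factorization_def _ hp, zpow_neg, zpow_natCast]
        rfl
      rw [h2] at h1
      push_cast at h1
      have hℓ0 : (0 : ℝ) < ℓ := by exact_mod_cast hp.pos
      rwa [inv_le_inv₀ (by positivity) (by positivity)] at h1
    · exact ⟨1, 0, le_rfl, fun h => absurd h hℓ⟩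
  choose b m₁ hb1 hb using hbad
  -- constants
  set K : ℝ := Real.log B + ∑ ℓ ∈ S, Real.log (b ℓ) + Real.log (2 * ht β) + C with hK
  have hlogB : 0 ≤ Real.log B := Real.log_nonneg hB1
  have hlogb : ∀ ℓ, 0 ≤ Real.log (b ℓ) := fun ℓ => Real.log_nonneg (hb1 ℓ)
  have hhβ := one_le_ht β
  have hlogh : 0 ≤ Real.log (2 * ht β) := Real.log_nonneg (by linarith)
  have hsum0 : 0 ≤ ∑ ℓ ∈ S, Real.log (b ℓ) := sum_nonneg fun ℓ _ => hlogb ℓ
  have hn' : (1 : ℝ) ≤ n := by exact_mod_cast hn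
  obtain ⟨N₂, hN₂⟩ := exists_large (K / c) (n + 1) (by linarith)
  refine ⟨max (max N₁ m₀) (max N₂ (∑ ℓ ∈ S, m₁ ℓ)) + 1, fun N hN => ?_⟩
  have hNN₁ : N₁ ≤ N := by
    have := le_max_left N₁ m₀
    have := le_max_left (max N₁ m₀) (max N₂ (∑ ℓ ∈ S, m₁ ℓ))
    omega
  have hNm₀ : m₀ ≤ N := by
    have := le_max_right N₁ m₀
    have := le_max_left (max N₁ m₀) (max N₂ (∑ ℓ ∈ S, m₁ ℓ))
    omega
  have hNN₂ : N₂ ≤ N := by
    have := le_max_left N₂ (∑ ℓ ∈ S, m₁ ℓ)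
    have := le_max_right (max N₁ m₀) (max N₂ (∑ ℓ ∈ S, m₁ ℓ))
    omega
  have hNm₁ : ∀ ℓ ∈ S, m₁ ℓ ≤ N := by
    intro ℓ hℓ
    have h1 := single_le_sum (f := m₁) (fun _ _ => Nat.zero_le _) hℓ
    have h2 := le_max_right N₂ (∑ ℓ ∈ S, m₁ ℓ)
    have h3 := le_max_right (max N₁ m₀) (max N₂ (∑ ℓ ∈ S, m₁ ℓ))
    omega
  have hN1 : 1 ≤ N := by omega
  by_contra hcon
  push Not at hcon
  -- the divisibility
  set T : ℕ := ∏ m ∈ Icc 1 (N / 2), (Dm p q β m).natAbs with hT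
  have hDN := Dm_ne p q β hw' N hN1
  have hD0 : (Dm p q β N).natAbs ≠ 0 := Int.natAbs_ne_zero.2 hDN
  have hTpos : 0 < T := prod_pos fun m hm =>
    Int.natAbs_pos.2 (Dm_ne p q β hw' m (mem_Icc.1 hm).1)
  have hdvd : (Dm p q β N).natAbs ∣
      (∏ ℓ ∈ S, ℓ ^ (Dm p q β N).natAbs.factorization ℓ) * T := by
    apply dvd_of_parts _ _ hD0
    intro ℓ hℓ hℓS t ht'
    rcases Nat.eq_zero_or_pos t with h0 | h0
    · rw [h0, pow_zero]
      exact one_dvd _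
    · have hnd : ¬ (ℓ : ℤ) ∣ E * E₀ := by
        intro h
        apply hℓS
        rw [hS, Nat.mem_primeFactors]
        exact ⟨hℓ, Int.natCast_dvd.1 h, Int.natAbs_ne_zero.2 hEE⟩
      have hnE : ¬ (ℓ : ℤ) ∣ E := fun h => hnd (h.mul_right _)
      have hnE₀ : ¬ (ℓ : ℤ) ∣ E₀ := fun h => hnd (h.mul_left _)
      have hℓN : (ℓ : ℤ) ∣ Dm p q β N := by
        rw [Int.natCast_dvd]
        exact (dvd_pow_self ℓ h0.ne').trans ht'
      obtain ⟨M, hM1, hMN, hM⟩ := hcon ℓ hℓ hnE₀ hℓN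
      obtain ⟨m, hm1, hm2, hm3⟩ := hgood ℓ hℓ hnE N M hM1 hMN hM hℓN
      have h1 := hm3 t (Int.natCast_dvd.2 ht')
      exact (Int.natCast_dvd.1 h1).trans (dvd_prod_of_mem (fun m => (Dm p q β m).natAbs)
        (mem_Icc.2 ⟨hm1, by omega⟩))
  have hSpos : 0 < ∏ ℓ ∈ S, ℓ ^ (Dm p q β N).natAbs.factorization ℓ :=
    prod_pos fun ℓ hℓ => pow_pos (Nat.prime_of_mem_primeFactors hℓ).pos _
  have hle := Nat.le_of_dvd (Nat.mul_pos hSpos hTpos) hdvd
  have hleR : (((Dm p q β N).natAbs : ℕ) : ℝ) ≤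
      (∏ ℓ ∈ S, (ℓ : ℝ) ^ (Dm p q β N).natAbs.factorization ℓ) * (T : ℝ) := by
    exact_mod_cast hle
  -- sizes of the determinants
  have habs : ∀ m, (((Dm p q β m).natAbs : ℕ) : ℝ) =
      Rat.AbsoluteValue.real (det (rep β) (rep ((ratMap ℚ p q)^[m] β))) := by
    intro m
    rw [det_rep, Rat.AbsoluteValue.real_eq_abs]
    change _ = ((|((Dm p q β m : ℤ) : ℚ)| : ℚ) : ℝ)
    rw [Nat.cast_natAbs]
    push_cast
    rfl
  have hdet_le : ∀ m, (((Dm p q β m).natAbs : ℕ) : ℝ) ≤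
      2 * ht β * ht ((ratMap ℚ p q)^[m] β) := by
    intro m
    rw [habs]
    set x := rep β
    set y := rep ((ratMap ℚ p q)^[m] β)
    have h1 : Rat.AbsoluteValue.real (det x y) ≤
        Rat.AbsoluteValue.real (x.1 * y.2) + Rat.AbsoluteValue.real (x.2 * y.1) := by
      unfold det
      rw [sub_eq_add_neg]
      refine (Rat.AbsoluteValue.real.add_le _ _).trans ?_
      rw [Rat.AbsoluteValue.real.map_neg]
    rw [map_mul, map_mul] at h1
    have h2 : Rat.AbsoluteValue.real x.1 * Rat.AbsoluteValue.real y.2 ≤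
        ht β * ht ((ratMap ℚ p q)^[m] β) :=
      mul_le_mul (fst_le _ _) (snd_le _ _) (Rat.AbsoluteValue.real.nonneg _) (by linarith)
    have h3 : Rat.AbsoluteValue.real x.2 * Rat.AbsoluteValue.real y.1 ≤
        ht β * ht ((ratMap ℚ p q)^[m] β) :=
      mul_le_mul (snd_le _ _) (fst_le _ _) (Rat.AbsoluteValue.real.nonneg _) (by linarith)
    linarith
  have hreal := hB N hNm₀
  unfold dv at hreal
  rw [← habs] at hreal
  change (B ^ N)⁻¹ ≤ _ / (ht β * ht ((ratMap ℚ p q)^[N] β)) at hreal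
  have hhN := one_le_ht ((ratMap ℚ p q)^[N] β)
  have hBpos : 0 < B ^ N := by positivity
  have hreal' : ht ((ratMap ℚ p q)^[N] β) ≤ B ^ N * (((Dm p q β N).natAbs : ℕ) : ℝ) := by
    rw [le_div_iff₀ (by positivity), inv_mul_le_iff₀ hBpos] at hreal
    nlinarith
  -- logarithms
  have hlogT : Real.log (T : ℝ) ≤ N * Real.log (2 * ht β) + N * (C * (n + 1) ^ (N / 2)) := by
    rw [hT, Nat.cast_prod, Real.log_prod fun m hm => by
      have := Int.natAbs_pos.2 (Dm_ne p q β hw' m (mem_Icc.1 hm).1)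
      positivity]
    have h1 : ∀ m ∈ Icc 1 (N / 2), Real.log (((Dm p q β m).natAbs : ℕ) : ℝ) ≤
        Real.log (2 * ht β) + C * (n + 1) ^ (N / 2) := by
      intro m hm
      rw [mem_Icc] at hm
      have h2 : (0 : ℝ) < (((Dm p q β m).natAbs : ℕ) : ℝ) := by
        have := Int.natAbs_pos.2 (Dm_ne p q β hw' m hm.1)
        positivity
      have h3 := Real.log_le_log h2 (hdet_le m)
      have h4 := one_le_ht ((ratMap ℚ p q)^[m] β)
      rw [Real.log_mul (by positivity) (by positivity)] at h3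
      have h5 := hLup m
      have h6 : C * (n + 1 : ℝ) ^ m ≤ C * (n + 1) ^ (N / 2) := by
        have : (1 : ℝ) ≤ n + 1 := by linarith
        gcongr
        exact hm.2
      linarith
    refine (sum_le_card_nsmul _ _ _ h1).trans ?_
    rw [Nat.card_Icc, nsmul_eq_mul, Nat.add_sub_cancel, ← mul_add]
    have h7 : ((N / 2 : ℕ) : ℝ) ≤ N := by exact_mod_cast Nat.div_le_self N 2
    gcongr
  have hlogS : Real.log (∏ ℓ ∈ S, (ℓ : ℝ) ^ (Dm p q β N).natAbs.factorization ℓ) ≤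
      N * ∑ ℓ ∈ S, Real.log (b ℓ) := by
    rw [Real.log_prod fun ℓ hℓ => by
      have := (Nat.prime_of_mem_primeFactors hℓ).pos
      positivity, mul_sum]
    refine sum_le_sum fun ℓ hℓ => ?_
    have h1 := hb ℓ hℓ N (hNm₁ ℓ hℓ) hN1
    have h2 := (Nat.prime_of_mem_primeFactors hℓ).pos
    have h3 := Real.log_le_log (by positivity) h1
    rwa [Real.log_pow (n := N)] at h3
  have hSposR : (0 : ℝ) < ∏ ℓ ∈ S, (ℓ : ℝ) ^ (Dm p q β N).natAbs.factorization ℓ := by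
    exact_mod_cast hSpos
  have hTposR : (0 : ℝ) < (T : ℝ) := by exact_mod_cast hTpos
  have hDposR : (0 : ℝ) < (((Dm p q β N).natAbs : ℕ) : ℝ) := by
    have := Int.natAbs_pos.2 hDN
    positivity
  have e1 := Real.log_le_log hDposR hleR
  rw [Real.log_mul hSposR.ne' hTposR.ne'] at e1
  have e2 := Real.log_le_log (by linarith) hreal'
  rw [Real.log_mul (by positivity) (by positivity), Real.log_pow] at e2
  have e3 := hLlo N hNN₁
  have hdpos : (1 : ℝ) ≤ (n + 1 : ℝ) ^ (N / 2) := one_le_pow₀ (by linarith)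
  have hN0 : (0 : ℝ) ≤ N := by positivity
  have e4 : c * (n + 1) ^ N ≤ K * N * (n + 1) ^ (N / 2) := by
    calc c * (n + 1) ^ N ≤ N * Real.log B + (N * ∑ ℓ ∈ S, Real.log (b ℓ)) +
          (N * Real.log (2 * ht β) + N * (C * (n + 1) ^ (N / 2))) := by linarith
      _ = N * (Real.log B + ∑ ℓ ∈ S, Real.log (b ℓ) + Real.log (2 * ht β)) * 1 +
          N * (C * (n + 1) ^ (N / 2)) := by ring
      _ ≤ N * (Real.log B + ∑ ℓ ∈ S, Real.log (b ℓ) + Real.log (2 * ht β)) *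
          (n + 1) ^ (N / 2) + N * (C * (n + 1) ^ (N / 2)) := by
          gcongr
      _ = K * N * (n + 1) ^ (N / 2) := by
          rw [hK]
          ring
  have e5 := hN₂ N hNN₂
  have e6 : K / c * N * (n + 1 : ℝ) ^ (N / 2) = (K * N * (n + 1) ^ (N / 2)) / c := by ring
  rw [e6, div_lt_iff₀ hc0] at e5
  linarith

end Pool.Agent.Work.MP_1bed24_nt
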