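import Mathlib

/-!
Rational functions `p / q` with integer polynomials `p`, `q`, acting on the projective line over
a field `K`, written as `Option K` (the value `none` is the point at infinity).
-/

set_option autoImplicit false

namespace Pool.Agent.Work.MP_1bed24_nt

open Polynomial

/-- degree of the rational function `p / q` (for coprime `p`, `q`) -/
def ratDeg (p q : ℤ[X]) : ℕ := max p.natDegree q.natDegree

open Classical in
/-- the map `x ↦ p x / q x` on `K ∪ {∞}`; `none` is `∞`. -/
noncomputable def ratMap (K : Type) [Field K] (p q : ℤ[X]) : Option K → Option K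
  | none => if (q.coeff (ratDeg p q) : K) = 0 then none
      else some ((p.coeff (ratDeg p q) : K) / (q.coeff (ratDeg p q) : K))
  | some x => if aeval x q = 0 then none else some (aeval x p / aeval x q)

/-- critical points of `p / q` in `K ∪ {∞}`: the zeros of the Wronskian `p' q - p q'`, seen as a
form of degree `2 d - 2` where `d` is the degree of `p / q`. -/
def IsCritical (K : Type) [Field K] (p q : ℤ[X]) : Option K → Prop
  | none => p.coeff (ratDeg p q) * q.coeff (ratDeg p q - 1) =
      p.coeff (ratDeg p q - 1) * q.coeff (ratDeg p q)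
  | some x => aeval x (derivative p * q - p * derivative q) = 0

/-- the Zsigmondy set of the sequence of numerators of `fⁿ(α) - β`, `n ≥ 1`, for `f = p / q`:
the indices `n ≥ 1` with `fⁿ(α)` finite and different from `β` such that each prime dividing the
numerator of `fⁿ(α) - β` divides the numerator of `fᵏ(α) - β` for some `1 ≤ k < n` with
`fᵏ(α)` finite and different from `β`. -/
def zsigSet (p q : ℤ[X]) (α β : ℚ) : Set ℕ :=
  {n | 1 ≤ n ∧ ∃ y : ℚ, (ratMap ℚ p q)^[n] (some α) = some y ∧ y ≠ β ∧
    ∀ ℓ : ℕ, ℓ.Prime → (ℓ : ℤ) ∣ (y - β).num →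
      ∃ k : ℕ, 1 ≤ k ∧ k < n ∧ ∃ z : ℚ, (ratMap ℚ p q)^[k] (some α) = some z ∧ z ≠ β ∧
        (ℓ : ℤ) ∣ (z - β).num}

end Pool.Agent.Work.MP_1bed24_nt
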