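import Mathlib

/-!
Binary forms and the Bezoutian of a pair of binary forms, over a commutative ring.
-/

set_option autoImplicit false

namespace Pool.Agent.Work.MP_1bed24_nt

open Finset

section ring

variable {R : Type*} [CommRing R]

/-- determinant of two vectors -/
def det (x y : R × R) : R := x.1 * y.2 - x.2 * y.1

/-- binary form of degree `d` with coefficients `c` -/
def form (c : ℕ → R) (d : ℕ) (x : R × R) : R := ∑ i ∈ range (d + 1), c i * (x.1 ^ i * x.2 ^ (d - i))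

/-- bihomogeneous monomial of bidegree `(n, n)` -/
def mono (n a b : ℕ) (x y : R × R) : R := x.1 ^ a * x.2 ^ (n - a) * (y.1 ^ b * y.2 ^ (n - b))

/-- the quotient of `m_i(x) m_j(y) - m_j(x) m_i(y)` by `det x y`, `m_i(x) = x₁^i x₂^(n+1-i)` -/
def TT (n i j : ℕ) (x y : R × R) : R :=
  if j < i then ∑ l ∈ range (i - j), mono n (j + l) (i - 1 - l) x y
  else -∑ l ∈ range (j - i), mono n (i + l) (j - 1 - l) x y

/-- the Bezoutian of the forms with coefficients `p` and `q` of degree `n + 1` -/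
def bez (p q : ℕ → R) (n : ℕ) (x y : R × R) : R :=
  ∑ i ∈ range (n + 2), ∑ j ∈ range (n + 2), p i * q j * TT n i j x y

theorem det_self (x : R × R) : det x x = 0 := by
  unfold det
  ring

theorem det_swap (x y : R × R) : det x y = -det y x := by
  unfold det
  ring

theorem geom_term (n i j : ℕ) (hj : j < i) (hi : i ≤ n + 1) (x y : R × R) :
    x.1 ^ i * x.2 ^ (n + 1 - i) * (y.1 ^ j * y.2 ^ (n + 1 - j)) -
      x.1 ^ j * x.2 ^ (n + 1 - j) * (y.1 ^ i * y.2 ^ (n + 1 - i)) =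
      det x y * ∑ l ∈ range (i - j), mono n (j + l) (i - 1 - l) x y := by
  have h := Commute.geom_sum₂_mul (Commute.all (x.1 * y.2) (x.2 * y.1)) (i - j)
  have e1 : ∑ l ∈ range (i - j), mono n (j + l) (i - 1 - l) x y =
      (x.1 * y.1) ^ j * (x.2 * y.2) ^ (n + 1 - i) *
        ∑ l ∈ range (i - j), (x.1 * y.2) ^ l * (x.2 * y.1) ^ (i - j - 1 - l) := by
    rw [mul_sum]
    refine sum_congr rfl fun l hl => ?_
    rw [mem_range] at hl
    unfold mono
    have e2 : n - (j + l) = (n + 1 - i) + (i - j - 1 - l) := by omega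
    have e3 : i - 1 - l = j + (i - j - 1 - l) := by omega
    have e4 : n - (i - 1 - l) = (n + 1 - i) + l := by omega
    rw [e4, e2, e3]
    ring
  have h2 : det x y * ∑ l ∈ range (i - j), mono n (j + l) (i - 1 - l) x y =
      (x.1 * y.1) ^ j * (x.2 * y.2) ^ (n + 1 - i) *
        ((x.1 * y.2) ^ (i - j) - (x.2 * y.1) ^ (i - j)) := by
    rw [e1, ← h]
    unfold det
    ring
  rw [h2]
  have e5 : i = j + (i - j) := by omega
  have e6 : n + 1 - j = (n + 1 - i) + (i - j) := by omega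
  rw [e6]
  generalize n + 1 - i = b
  generalize hk : i - j = k
  have e7 : i = j + k := by omega
  rw [e7]
  ring

theorem det_form_term (n i j : ℕ) (hi : i ≤ n + 1) (hj : j ≤ n + 1) (x y : R × R) :
    x.1 ^ i * x.2 ^ (n + 1 - i) * (y.1 ^ j * y.2 ^ (n + 1 - j)) -
      x.1 ^ j * x.2 ^ (n + 1 - j) * (y.1 ^ i * y.2 ^ (n + 1 - i)) =
      det x y * TT n i j x y := by
  unfold TT
  split_ifs with h
  · exact geom_term n i j h hi x y
  · rcases (not_lt.1 h).lt_or_eq with h1 | h1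
    · have := geom_term n j i h1 hj x y
      rw [mul_neg, ← this]
      ring
    · subst h1
      simp

theorem det_form (p q : ℕ → R) (n : ℕ) (x y : R × R) :
    form p (n + 1) x * form q (n + 1) y - form q (n + 1) x * form p (n + 1) y =
      det x y * bez p q n x y := by
  unfold form bez
  rw [sum_mul_sum, mul_comm (∑ i ∈ range (n + 1 + 1), q i * (x.1 ^ i * x.2 ^ (n + 1 - i))),
    sum_mul_sum, ← sum_sub_distrib, mul_sum]
  refine sum_congr rfl fun i hi => ?_
  rw [← sum_sub_distrib, mul_sum]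
  refine sum_congr rfl fun j hj => ?_
  rw [mem_range] at hi hj
  have := det_form_term n i j (by omega) (by omega) x y
  linear_combination (p i * q j) * this

theorem mono_dvd_fst (n a b : ℕ) (hb : b ≤ n) (x y : R × R) :
    ∃ c : R, x.1 ^ n * mono n a b x y - y.1 ^ n * mono n a b x x =
      det x y * (x.1 ^ a * x.2 ^ (n - a) * (x.1 * y.1) ^ b * c) ∧
      c = ∑ l ∈ range (n - b), (x.1 * y.2) ^ l * (x.2 * y.1) ^ (n - b - 1 - l) := by
  refine ⟨_, ?_, rfl⟩
  have h := Commute.geom_sum₂_mul (Commute.all (x.1 * y.2) (x.2 * y.1)) (n - b)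
  unfold mono det
  obtain ⟨k, rfl⟩ := Nat.exists_eq_add_of_le hb
  rw [Nat.add_sub_cancel_left] at h ⊢
  have e : (x.1 * y.2 - x.2 * y.1) * (x.1 ^ a * x.2 ^ (b + k - a) * (x.1 * y.1) ^ b *
      ∑ l ∈ range k, (x.1 * y.2) ^ l * (x.2 * y.1) ^ (k - 1 - l)) =
      x.1 ^ a * x.2 ^ (b + k - a) * (x.1 * y.1) ^ b *
      ((∑ l ∈ range k, (x.1 * y.2) ^ l * (x.2 * y.1) ^ (k - 1 - l)) *
        (x.1 * y.2 - x.2 * y.1)) := by ring
  rw [e, h]
  ring

theorem mono_dvd_snd (n a b : ℕ) (hb : b ≤ n) (x y : R × R) :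
    ∃ c : R, x.2 ^ n * mono n a b x y - y.2 ^ n * mono n a b x x =
      -(det x y * (x.1 ^ a * x.2 ^ (n - a) * (x.2 * y.2) ^ (n - b) * c)) ∧
      c = ∑ l ∈ range b, (x.1 * y.2) ^ l * (x.2 * y.1) ^ (b - 1 - l) := by
  refine ⟨_, ?_, rfl⟩
  have h := Commute.geom_sum₂_mul (Commute.all (x.1 * y.2) (x.2 * y.1)) b
  unfold mono det
  obtain ⟨k, rfl⟩ := Nat.exists_eq_add_of_le hb
  rw [Nat.add_sub_cancel_left]
  have e : (x.1 * y.2 - x.2 * y.1) * (x.1 ^ a * x.2 ^ (b + k - a) * (x.2 * y.2) ^ k *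
      ∑ l ∈ range b, (x.1 * y.2) ^ l * (x.2 * y.1) ^ (b - 1 - l)) =
      x.1 ^ a * x.2 ^ (b + k - a) * (x.2 * y.2) ^ k *
      ((∑ l ∈ range b, (x.1 * y.2) ^ l * (x.2 * y.1) ^ (b - 1 - l)) *
        (x.1 * y.2 - x.2 * y.1)) := by ring
  rw [e, h]
  ring

end ring

end Pool.Agent.Work.MP_1bed24_nt
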