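import Pool.Agent.Work.MP_1bed24_nt.Bad

/-!
Good primes: the valuation of the returns of the target does not grow.
-/

set_option autoImplicit false

namespace Pool.Agent.Work.MP_1bed24_nt

open Finset Polynomial

theorem good_lemma {X : Type*} (f : X → X) (δ : X → X → ℝ) (W : X → Prop) (β : X) (m : ℕ)
    (hδ0 : ∀ x y, 0 ≤ δ x y) (hsymm : ∀ x y, δ x y = δ y x)
    (hult : ∀ x y z, δ x z ≤ max (δ x y) (δ y z))
    (hle : ∀ x y, δ (f x) (f y) ≤ δ x y)
    (hW : ∀ x y, W x → 0 < δ x y → δ x y < 1 → δ (f x) (f y) < δ x y)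
    (hm : δ β (f^[m] β) < 1) (hm0 : 0 < δ β (f^[m] β)) (hm1 : 1 ≤ m)
    (hmin : ∀ m', 1 ≤ m' → m' < m → ¬ δ β (f^[m'] β) < 1) (hcr : ∃ i < m, W (f^[i] β))
    (N : ℕ) (hN1 : 1 ≤ N) (hN : δ β (f^[N] β) < 1) :
    m ∣ N ∧ δ β (f^[m] β) ≤ δ β (f^[N] β) := by
  have hiter : ∀ (i : ℕ) (x y : X), δ (f^[i] x) (f^[i] y) ≤ δ x y := by
    intro i x y
    induction i with
    | zero => exact le_rfl
    | succ i ih =>
      rw [Function.iterate_succ_apply', Function.iterate_succ_apply']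
      exact (hle _ _).trans ih
  have key : ∀ x, δ β x ≤ δ β (f^[m] β) → δ (f^[m] β) (f^[m] x) < δ β (f^[m] β) := by
    intro x hx
    obtain ⟨i, hi, hWi⟩ := hcr
    have h1 := hiter i β x
    have h2 : δ (f^[m] β) (f^[m] x) ≤ δ (f^[i + 1] β) (f^[i + 1] x) := by
      have h3 := hiter (m - (i + 1)) (f^[i + 1] β) (f^[i + 1] x)
      rw [← Function.iterate_add_apply, ← Function.iterate_add_apply,
        Nat.sub_add_cancel (by omega : i + 1 ≤ m)] at h3
      exact h3
    rcases (hδ0 (f^[i] β) (f^[i] x)).lt_or_eq with h0 | h0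
    · have h4 := hW _ _ hWi h0 (by linarith)
      rw [← Function.iterate_succ_apply' f, ← Function.iterate_succ_apply' f] at h4
      change δ (f^[i + 1] β) (f^[i + 1] x) < _ at h4
      linarith
    · have h4 := hle (f^[i] β) (f^[i] x)
      rw [← Function.iterate_succ_apply' f, ← Function.iterate_succ_apply' f] at h4
      change δ (f^[i + 1] β) (f^[i + 1] x) ≤ _ at h4
      linarith
  have hmul : ∀ r : ℕ, 1 ≤ r → δ β (f^[r * m] β) = δ β (f^[m] β) := by
    intro r hr
    induction r, hr using Nat.le_induction with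
    | base => rw [one_mul]
    | succ r hr ih =>
      have e : (r + 1) * m = m + r * m := by ring
      rw [e, Function.iterate_add_apply]
      have h1 := key _ ih.le
      have h2 := hult β (f^[m] β) (f^[m] (f^[r * m] β))
      have h3 := hult β (f^[m] (f^[r * m] β)) (f^[m] β)
      rw [hsymm (f^[m] (f^[r * m] β)) (f^[m] β)] at h3
      apply le_antisymm
      · rwa [max_eq_left h1.le] at h2
      · rcases max_choice (δ β (f^[m] (f^[r * m] β))) (δ (f^[m] β) (f^[m] (f^[r * m] β))) with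
          h | h
        · rwa [h] at h3
        · rw [h] at h3
          linarith
  have hdm := Nat.div_add_mod N m
  set r := N / m with hr
  set s := N % m with hs
  have hsm : s < m := Nat.mod_lt _ (by omega)
  rcases Nat.eq_zero_or_pos s with h0 | h0
  · have hN' : N = r * m := by
      rw [← hdm, h0, add_zero, mul_comm]
    have hr1 : 1 ≤ r := by
      rw [Nat.one_le_iff_ne_zero]
      intro h
      rw [h, zero_mul] at hN'
      omega
    refine ⟨⟨r, by rw [hN', mul_comm]⟩, ?_⟩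
    rw [hN', hmul r hr1]
  · exfalso
    apply hmin s h0 hsm
    rcases Nat.eq_zero_or_pos r with h1 | h1
    · have : s = N := by rw [← hdm, h1, mul_zero, zero_add]
      rw [this]
      exact hN
    · have h2 := hiter s β (f^[r * m] β)
      rw [← Function.iterate_add_apply, hmul r h1] at h2
      have h3 : s + r * m = N := by rw [← hdm]; ring
      rw [h3] at h2
      have h4 := hult β (f^[N] β) (f^[s] β)
      rw [hsymm (f^[N] β) (f^[s] β)] at h4
      exact lt_of_le_of_lt h4 (max_lt hN (lt_of_le_of_lt h2 hm))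

section place

variable (v : AbsoluteValue ℚ ℝ) (hv : ∀ a b, v (a + b) ≤ max (v a) (v b))
  (hint : ∀ a : ℤ, v (a : ℚ) ≤ 1)

include hv in
theorem v_sum_le {ι : Type*} (s : Finset ι) (f : ι → ℚ) (h : ∀ i ∈ s, v (f i) ≤ 1) :
    v (∑ i ∈ s, f i) ≤ 1 := by
  classical
  induction s using Finset.induction_on with
  | empty => simp
  | insert a s ha ih =>
    rw [sum_insert ha]
    refine (hv _ _).trans (max_le (h a (mem_insert_self a s)) (ih fun i hi => ?_))
    exact h i (mem_insert_of_mem hi)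

include hv hint

theorem v_aeval_le (G : ℤ[X]) (a : ℚ) (ha : v a ≤ 1) : v (aeval a G) ≤ 1 := by
  rw [aeval_eq_sum_range]
  refine v_sum_le v hv _ _ fun i _ => ?_
  rw [zsmul_eq_mul, map_mul, map_pow]
  exact mul_le_one₀ (hint _) (pow_nonneg (v.nonneg _) _) (pow_le_one₀ (v.nonneg _) ha)

theorem nm_rep (z : Option ℚ) : nm v (rep z) = 1 := by
  apply le_antisymm
  · exact max_le (hint _) (hint _)
  · obtain ⟨s, t, hst⟩ := repZ_coprime z
    have h1 : (1 : ℚ) = (s : ℚ) * (rep z).1 + (t : ℚ) * (rep z).2 := by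
      unfold rep castv
      simp only
      exact_mod_cast hst.symm
    have h2 := hv ((s : ℚ) * (rep z).1) ((t : ℚ) * (rep z).2)
    rw [← h1, v.map_one, map_mul, map_mul] at h2
    refine h2.trans (max_le ?_ ?_)
    · calc v (s : ℚ) * v (rep z).1 ≤ 1 * nm v (rep z) :=
          mul_le_mul (hint s) (fst_le v _) (v.nonneg _) zero_le_one
        _ = _ := one_mul _
    · calc v (t : ℚ) * v (rep z).2 ≤ 1 * nm v (rep z) :=
          mul_le_mul (hint t) (snd_le v _) (v.nonneg _) zero_le_one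
        _ = _ := one_mul _

theorem det_ult (x y z : Option ℚ) :
    v (det (rep x) (rep z)) ≤ max (v (det (rep x) (rep y))) (v (det (rep y) (rep z))) := by
  have h1 := hv (det (rep y) (rep z) * (rep x).1) (det (rep x) (rep y) * (rep z).1)
  have h2 := hv (det (rep y) (rep z) * (rep x).2) (det (rep x) (rep y) * (rep z).2)
  rw [← det_tri_fst, map_mul, map_mul, map_mul] at h1
  rw [← det_tri_snd, map_mul, map_mul, map_mul] at h2
  have hy := nm_rep v hv hint y
  have hx1 : v (rep x).1 ≤ 1 := (fst_le v _).trans (nm_rep v hv hint x).le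
  have hx2 : v (rep x).2 ≤ 1 := (snd_le v _).trans (nm_rep v hv hint x).le
  have hz1 : v (rep z).1 ≤ 1 := (fst_le v _).trans (nm_rep v hv hint z).le
  have hz2 : v (rep z).2 ≤ 1 := (snd_le v _).trans (nm_rep v hv hint z).le
  have a1 : v (det (rep y) (rep z)) * v (rep x).1 ≤ v (det (rep y) (rep z)) :=
    mul_le_of_le_one_right (v.nonneg _) hx1
  have a2 : v (det (rep y) (rep z)) * v (rep x).2 ≤ v (det (rep y) (rep z)) :=
    mul_le_of_le_one_right (v.nonneg _) hx2
  have a3 : v (det (rep x) (rep y)) * v (rep z).1 ≤ v (det (rep x) (rep y)) :=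
    mul_le_of_le_one_right (v.nonneg _) hz1
  have a4 : v (det (rep x) (rep y)) * v (rep z).2 ≤ v (det (rep x) (rep y)) :=
    mul_le_of_le_one_right (v.nonneg _) hz2
  rw [max_comm]
  rcases max_choice (v (rep y).1) (v (rep y).2) with h | h
  · have h3 : v (rep y).1 = 1 := by rw [← hy]; exact h.symm
    rw [h3, mul_one] at h1
    exact h1.trans (max_le_max a1 a3)
  · have h3 : v (rep y).2 = 1 := by rw [← hy]; exact h.symm
    rw [h3, mul_one] at h2
    exact h2.trans (max_le_max a2 a4)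

omit hv in
theorem bez_int (p q : ℤ[X]) (n : ℕ) (x y : ℤ × ℤ) :
    v (bez (cf ℚ p) (cf ℚ q) n (castv ℚ x) (castv ℚ y)) ≤ 1 := by
  rw [castv_eq, castv_eq, bez_map]
  exact hint _

theorem bez_lt (p q : ℤ[X]) (n : ℕ) (x y : Option ℚ) (hW : v (Wf ℚ p q n (rep x)) < 1)
    (hd : v (det (rep x) (rep y)) < 1) :
    v (bez (cf ℚ p) (cf ℚ q) n (rep x) (rep y)) < 1 := by
  have hmul : ∀ a b : ℤ, a ∣ b → v (b : ℚ) ≤ v (a : ℚ) := by
    rintro a b ⟨c, rfl⟩
    push_cast
    rw [map_mul]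
    exact mul_le_of_le_one_right (v.nonneg _) (hint c)
  have hy1 : v (rep y).1 ≤ 1 := (fst_le v _).trans (nm_rep v hv hint y).le
  have hy2 : v (rep y).2 ≤ 1 := (snd_le v _).trans (nm_rep v hv hint y).le
  have hdet : v ((det (repZ x) (repZ y) : ℤ) : ℚ) < 1 := by
    have := det_map (Int.castRingHom ℚ) (repZ x) (repZ y)
    rw [eq_intCast] at this
    rw [← this]
    exact hd
  have hb1 : ((bez (cf ℤ p) (cf ℤ q) n (repZ x) (repZ y) : ℤ) : ℚ) =
      bez (cf ℚ p) (cf ℚ q) n (rep x) (rep y) := by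
    have := bez_map (Int.castRingHom ℚ) p q n (repZ x) (repZ y)
    rw [eq_intCast] at this
    rw [← this]
    rfl
  have hb2 : ((bez (cf ℤ p) (cf ℤ q) n (repZ x) (repZ x) : ℤ) : ℚ) = Wf ℚ p q n (rep x) := by
    have := bez_map (Int.castRingHom ℚ) p q n (repZ x) (repZ x)
    rw [eq_intCast] at this
    rw [← this]
    rfl
  have key : ∀ a b : ℤ, v (b : ℚ) ≤ 1 → det (repZ x) (repZ y) ∣
      a ^ n * bez (cf ℤ p) (cf ℤ q) n (repZ x) (repZ y) -
        b ^ n * bez (cf ℤ p) (cf ℤ q) n (repZ x) (repZ x) → v (a : ℚ) = 1 →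
      v (bez (cf ℚ p) (cf ℚ q) n (rep x) (rep y)) < 1 := by
    intro a b hb hdvd ha
    have h1 := lt_of_le_of_lt (hmul _ _ hdvd) hdet
    push_cast at h1
    rw [hb1, hb2] at h1
    have h2 := hv ((a : ℚ) ^ n * bez (cf ℚ p) (cf ℚ q) n (rep x) (rep y) -
      (b : ℚ) ^ n * Wf ℚ p q n (rep x)) ((b : ℚ) ^ n * Wf ℚ p q n (rep x))
    rw [sub_add_cancel] at h2
    have h3 : v ((b : ℚ) ^ n * Wf ℚ p q n (rep x)) < 1 := by
      rw [map_mul, map_pow]
      exact lt_of_le_of_lt (mul_le_of_le_one_left (v.nonneg _) (pow_le_one₀ (v.nonneg _) hb)) hW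
    have h4 := lt_of_le_of_lt h2 (max_lt h1 h3)
    rwa [map_mul, map_pow, ha, one_pow, one_mul] at h4
  rcases max_choice (v (rep x).1) (v (rep x).2) with h | h
  · have h3 : v (rep x).1 = 1 := by rw [← nm_rep v hv hint x]; exact h.symm
    exact key _ _ hy1 (bez_dvd_fst (cf ℤ p) (cf ℤ q) n (repZ x) (repZ y)) h3
  · have h3 : v (rep x).2 = 1 := by rw [← nm_rep v hv hint x]; exact h.symm
    exact key _ _ hy2 (bez_dvd_snd (cf ℤ p) (cf ℤ q) n (repZ x) (repZ y)) h3

variable (p q : ℤ[X]) (n : ℕ)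
  (hF : ∀ z : Option ℚ, ∃ a : ℤ, v (a : ℚ) = 1 ∧
    Fm ℤ p q n (repZ z) = smulv a (repZ (ratMap ℚ p q z)))

include hF

omit hv hint in
theorem hF_rat (z : Option ℚ) : ∃ a : ℚ, v a = 1 ∧
    Fm ℚ p q n (rep z) = smulv a (rep (ratMap ℚ p q z)) := by
  obtain ⟨a, ha, h⟩ := hF z
  refine ⟨a, ha, ?_⟩
  unfold rep
  rw [Fm_castv, h]
  unfold castv smulv
  push_cast
  rfl

omit hv hint in
theorem hF_iter (k : ℕ) (z : Option ℚ) : ∃ a : ℚ, v a = 1 ∧
    (Fm ℚ p q n)^[k] (rep z) = smulv a (rep ((ratMap ℚ p q)^[k] z)) := by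
  induction k with
  | zero => exact ⟨1, v.map_one, by simp [smulv]⟩
  | succ k ih =>
    obtain ⟨a, ha, h⟩ := ih
    obtain ⟨b, hb, h'⟩ := hF_rat v p q n hF ((ratMap ℚ p q)^[k] z)
    refine ⟨a ^ (n + 1) * b, ?_, ?_⟩
    · rw [map_mul, map_pow, ha, hb]
      simp
    · rw [Function.iterate_succ_apply', Function.iterate_succ_apply', h, Fm_smul, h']
      unfold smulv
      simp only
      rw [mul_assoc, mul_assoc]

omit hv hint in
theorem det_step (x y : Option ℚ) :
    v (det (rep (ratMap ℚ p q x)) (rep (ratMap ℚ p q y))) =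
      v (det (rep x) (rep y)) * v (bez (cf ℚ p) (cf ℚ q) n (rep x) (rep y)) := by
  obtain ⟨a, ha, h⟩ := hF_rat v p q n hF x
  obtain ⟨b, hb, h'⟩ := hF_rat v p q n hF y
  have h1 := det_Fm p q n (rep x) (rep y)
  rw [h, h', det_smul] at h1
  have h2 := congrArg v h1
  rw [map_mul, map_mul, map_mul, ha, hb, one_mul, one_mul] at h2
  exact h2

end place

end Pool.Agent.Work.MP_1bed24_nt
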