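import Pool.Agent.Work.MP_1bed24_nt.Good

/-!
Good primes: assembly.
-/

set_option autoImplicit false

namespace Pool.Agent.Work.MP_1bed24_nt

open Finset Polynomial

/-- the determinant of the primitive vectors of `β` and `f^m(β)` -/
noncomputable def Dm (p q : ℤ[X]) (β : Option ℚ) (m : ℕ) : ℤ :=
  det (repZ β) (repZ ((ratMap ℚ p q)^[m] β))

theorem det_rep (x y : Option ℚ) : det (rep x) (rep y) = ((det (repZ x) (repZ y) : ℤ) : ℚ) := by
  have := det_map (Int.castRingHom ℚ) (repZ x) (repZ y)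
  rw [eq_intCast] at this
  rw [← this]
  rfl

theorem eq_of_det (x y : Option ℚ) (h : det (repZ x) (repZ y) = 0) : y = x := by
  have h0 : det (rep x) (rep y) = 0 := by
    rw [det_rep, h, Int.cast_zero]
  have hx : rep x ≠ 0 := rep_ne x
  have hy : rep y ≠ 0 := rep_ne y
  have hxy : toP ℚ (rep y) = toP ℚ (rep x) := by
    unfold det at h0
    unfold toP
    by_cases a2 : (rep x).2 = 0
    · have a1 : (rep x).1 ≠ 0 := fun a1 => hx (Prod.ext a1 a2)
      rw [a2, zero_mul, sub_zero] at h0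
      have b2 : (rep y).2 = 0 := by
        rcases mul_eq_zero.1 h0 with h | h
        · exact absurd h a1
        · exact h
      rw [if_pos a2, if_pos b2]
    · by_cases b2 : (rep y).2 = 0
      · have b1 : (rep y).1 ≠ 0 := fun b1 => hy (Prod.ext b1 b2)
        rw [b2, mul_zero, zero_sub, neg_eq_zero] at h0
        rcases mul_eq_zero.1 h0 with h | h
        · exact absurd h a2
        · exact absurd h b1
      · rw [if_neg a2, if_neg b2]
        congr 1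
        rw [div_eq_div_iff b2 a2]
        linear_combination -h0
  rwa [toP_rep, toP_rep] at hxy

theorem Dm_ne (p q : ℤ[X]) (β : Option ℚ) (hw : ∀ m, 1 ≤ m → (ratMap ℚ p q)^[m] β ≠ β) (m : ℕ)
    (hm : 1 ≤ m) : Dm p q β m ≠ 0 := fun h => hw m hm (eq_of_det _ _ h)

/-- the fibre equation at a good place -/
theorem fibre_good (p q : ℤ[X]) (n k : ℕ)
    (v : AbsoluteValue ℚ ℝ) (hv : ∀ a b, v (a + b) ≤ max (v a) (v b))
    (hint : ∀ a : ℤ, v (a : ℚ) ≤ 1)
    (hF : ∀ z : Option ℚ, ∃ a : ℤ, v (a : ℚ) = 1 ∧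
      Fm ℤ p q n (repZ z) = smulv a (repZ (ratMap ℚ p q z)))
    (β : Option ℚ) (c : ℤ) (hc : v (c : ℚ) = 1) (m : ℕ) (G₁ G₂ : ℤ[X])
    (hG : ∀ a : ℚ,
      (c : ℚ) * (∏ i ∈ range k, Wf ℚ p q n ((Fm ℚ p q n)^[i] (a, 1))) ^ m =
        det (castv ℚ (repZ β)) ((Fm ℚ p q n)^[k] (a, 1)) * aeval a G₁ ∧
      (c : ℚ) * (∏ i ∈ range k, Wf ℚ p q n ((Fm ℚ p q n)^[i] (1, a))) ^ m =
        det (castv ℚ (repZ β)) ((Fm ℚ p q n)^[k] (1, a)) * aeval a G₂)
    (z : Option ℚ) (hz : v (det (rep β) (rep ((ratMap ℚ p q)^[k] z))) < 1) :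
    ∃ i < k, v (Wf ℚ p q n (rep ((ratMap ℚ p q)^[i] z))) < 1 := by
  have main : ∀ (x : ℚ × ℚ) (t g : ℚ), nm v x = 1 → rep z = smulv t x → v g ≤ 1 →
      (c : ℚ) * (∏ i ∈ range k, Wf ℚ p q n ((Fm ℚ p q n)^[i] x)) ^ m =
        det (castv ℚ (repZ β)) ((Fm ℚ p q n)^[k] x) * g →
      ∃ i < k, v (Wf ℚ p q n (rep ((ratMap ℚ p q)^[i] z))) < 1 := by
    intro x t g hx hzx hg hid
    have ht : v t = 1 := by
      have h1 := nm_rep v hv hint z
      rw [hzx, nm_smulv, hx, mul_one] at h1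
      exact h1
    have ht0 : t ≠ 0 := by
      intro h
      rw [h, v.map_zero] at ht
      exact zero_ne_one ht
    have hx2 : x = smulv t⁻¹ (rep z) := by
      rw [hzx]
      unfold smulv
      refine Prod.ext ?_ ?_
      · simp only
        field_simp
      · simp only
        field_simp
    have hti : v t⁻¹ = 1 := by rw [map_inv₀, ht, inv_one]
    have hW : ∀ i, v (Wf ℚ p q n ((Fm ℚ p q n)^[i] x)) =
        v (Wf ℚ p q n (rep ((ratMap ℚ p q)^[i] z))) := by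
      intro i
      obtain ⟨a, ha, h⟩ := hF_iter v p q n hF i z
      rw [hx2, Fm_iter_smul, h, Wf_smul, Wf_smul, map_mul, map_mul, map_pow, map_pow, map_pow,
        ha, hti]
      simp
    have hdet : v (det (castv ℚ (repZ β)) ((Fm ℚ p q n)^[k] x)) =
        v (det (rep β) (rep ((ratMap ℚ p q)^[k] z))) := by
      obtain ⟨a, ha, h⟩ := hF_iter v p q n hF k z
      have e1 : castv ℚ (repZ β) = smulv 1 (rep β) := by
        unfold smulv rep
        simp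
      rw [hx2, Fm_iter_smul, h]
      have e2 : smulv (t⁻¹ ^ (n + 1) ^ k) (smulv a (rep ((ratMap ℚ p q)^[k] z))) =
          smulv (t⁻¹ ^ (n + 1) ^ k * a) (rep ((ratMap ℚ p q)^[k] z)) := by
        unfold smulv
        simp only
        rw [mul_assoc, mul_assoc]
      rw [e1, e2, det_smul, map_mul, map_mul, map_mul, map_pow, ha, hti]
      simp
    have hid2 := congrArg v hid
    rw [map_mul, map_pow, map_mul, map_prod, hc, one_mul, hdet] at hid2
    have hlt : (∏ i ∈ range k, v (Wf ℚ p q n ((Fm ℚ p q n)^[i] x))) ^ m < 1 := by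
      rw [hid2]
      exact lt_of_le_of_lt (mul_le_of_le_one_right (v.nonneg _) hg) hz
    by_contra hcon
    push Not at hcon
    have h1 : 1 ≤ ∏ i ∈ range k, v (Wf ℚ p q n ((Fm ℚ p q n)^[i] x)) := by
      apply Finset.one_le_prod
      intro i hi
      rw [hW]
      exact hcon i (mem_range.1 hi)
    exact absurd hlt (not_lt.2 (one_le_pow₀ h1))
  obtain ⟨t, a, ht, ha, h | h⟩ := normalize v (rep z) (rep_ne z)
  · exact main (a, 1) t (aeval a G₁) (nm_one_right v a ha) h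
      (v_aeval_le v hv hint G₁ a ha) (hG a).1
  · exact main (1, a) t (aeval a G₂) (nm_one_left v a ha) h
      (v_aeval_le v hv hint G₂ a ha) (hG a).2

/-- at good primes the valuation of a return is that of the first return -/
theorem good (p q : ℤ[X]) (n : ℕ) (hd : ratDeg p q = n + 1)
    (hcop : IsCoprime (p.map (Int.castRingHom ℚ)) (q.map (Int.castRingHom ℚ)))
    (β : Option ℚ)
    (H : (∃ j, Wf ℚ p q n (rep ((ratMap ℚ p q)^[j] β)) = 0) ∨
      ∃ k, ∀ y : ℂ × ℂ, y ≠ 0 → det (castv ℂ (repZ β)) ((Fm ℂ p q n)^[k] y) = 0 →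
        ∃ i < k, Wf ℂ p q n ((Fm ℂ p q n)^[i] y) = 0)
    (hw : ∀ m, 1 ≤ m → (ratMap ℚ p q)^[m] β ≠ β) :
    ∃ E : ℤ, E ≠ 0 ∧ ∀ ℓ : ℕ, ℓ.Prime → ¬ (ℓ : ℤ) ∣ E → ∀ N M : ℕ, 1 ≤ M → M < N →
      (ℓ : ℤ) ∣ Dm p q β M → (ℓ : ℤ) ∣ Dm p q β N → ∃ m, 1 ≤ m ∧ 2 * m ≤ N ∧
        ∀ t : ℕ, ((ℓ ^ t : ℕ) : ℤ) ∣ Dm p q β N → ((ℓ ^ t : ℕ) : ℤ) ∣ Dm p q β m := by
  obtain ⟨R, hR, hRz⟩ := Fm_repZ p q n hd hcop
  -- the contracting step
  have hcr : ∃ (c : ℤ) (j₀ : ℕ), c ≠ 0 ∧ ∀ v : AbsoluteValue ℚ ℝ,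
      (∀ a b, v (a + b) ≤ max (v a) (v b)) → (∀ a : ℤ, v (a : ℚ) ≤ 1) → v (c : ℚ) = 1 →
      (∀ z : Option ℚ, ∃ a : ℤ, v (a : ℚ) = 1 ∧
        Fm ℤ p q n (repZ z) = smulv a (repZ (ratMap ℚ p q z))) →
      ∀ m, j₀ < m → v (det (rep β) (rep ((ratMap ℚ p q)^[m] β))) < 1 →
        ∃ i < m, v (Wf ℚ p q n (rep ((ratMap ℚ p q)^[i] β))) < 1 := by
    rcases H with ⟨j, hj⟩ | ⟨k, hk⟩
    · refine ⟨1, j, one_ne_zero, ?_⟩
      intro v _ _ _ _ m hm _
      refine ⟨j, hm, ?_⟩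
      rw [hj, v.map_zero]
      exact zero_lt_one
    · obtain ⟨c, m', G₁, G₂, hc, hm', hG⟩ := chart p q n k (repZ β) hk
      refine ⟨c, k, hc, ?_⟩
      intro v hv hint hcv hF m hm hlt
      have e : (ratMap ℚ p q)^[m] β = (ratMap ℚ p q)^[k] ((ratMap ℚ p q)^[m - k] β) := by
        rw [← Function.iterate_add_apply, Nat.add_sub_cancel' hm.le]
      rw [e] at hlt
      obtain ⟨i, hi, h⟩ := fibre_good p q n k v hv hint hF β c hcv m' G₁ G₂ hG _ hlt
      refine ⟨i + (m - k), by omega, ?_⟩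
      rw [Function.iterate_add_apply]
      exact h
  obtain ⟨c, j₀, hc, hcr⟩ := hcr
  refine ⟨R * c * ∏ m ∈ Icc 1 j₀, Dm p q β m, ?_, ?_⟩
  · refine mul_ne_zero (mul_ne_zero hR hc) (prod_ne_zero_iff.2 fun m hm => ?_)
    exact Dm_ne p q β hw m (mem_Icc.1 hm).1
  · intro ℓ hℓ hE N M hM1 hMN hM hN
    have : Fact ℓ.Prime := ⟨hℓ⟩
    have hER : ¬ (ℓ : ℤ) ∣ R := fun h => hE ((h.mul_right _).mul_right _)
    have hEc : ¬ (ℓ : ℤ) ∣ c := fun h => hE ((h.mul_left _).mul_right _)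
    have hED : ∀ m, 1 ≤ m → m ≤ j₀ → ¬ (ℓ : ℤ) ∣ Dm p q β m := fun m h1 h2 h =>
      hE ((h.trans (dvd_prod_of_mem _ (mem_Icc.2 ⟨h1, h2⟩))).mul_left _)
    set v := Rat.AbsoluteValue.padic ℓ with hvdef
    have hvint : ∀ a : ℤ, v (a : ℚ) ≤ 1 := fun a => Rat.AbsoluteValue.padic_le_one ℓ a
    have hv : ∀ a b, v (a + b) ≤ max (v a) (v b) := by
      intro a b
      rw [hvdef, Rat.AbsoluteValue.padic_eq_padicNorm, Rat.AbsoluteValue.padic_eq_padicNorm,
        Rat.AbsoluteValue.padic_eq_padicNorm]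
      exact_mod_cast padicNorm.nonarchimedean
    have hv1 : ∀ a : ℤ, ¬ (ℓ : ℤ) ∣ a → v (a : ℚ) = 1 := by
      intro a ha
      rw [hvdef, Rat.AbsoluteValue.padic_eq_padicNorm]
      exact_mod_cast (padicNorm.int_eq_one_iff a).2 ha
    have hvlt : ∀ a : ℤ, v (a : ℚ) < 1 ↔ (ℓ : ℤ) ∣ a := by
      intro a
      rw [hvdef, Rat.AbsoluteValue.padic_eq_padicNorm, ← padicNorm.int_lt_one_iff]
      exact_mod_cast Iff.rfl
    have hF : ∀ z : Option ℚ, ∃ a : ℤ, v (a : ℚ) = 1 ∧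
        Fm ℤ p q n (repZ z) = smulv a (repZ (ratMap ℚ p q z)) := by
      intro z
      obtain ⟨a, ha, haR, h⟩ := hRz z
      exact ⟨a, hv1 a fun h' => hER (h'.trans haR), h⟩
    have hD : ∀ m, v (det (rep β) (rep ((ratMap ℚ p q)^[m] β))) = v ((Dm p q β m : ℤ) : ℚ) := by
      intro m
      rw [det_rep]
      rfl
    classical
    have hex : ∃ m, 1 ≤ m ∧ (ℓ : ℤ) ∣ Dm p q β m := ⟨M, hM1, hM⟩
    set m := Nat.find hex with hmdef
    obtain ⟨hm1, hmD⟩ : 1 ≤ m ∧ (ℓ : ℤ) ∣ Dm p q β m := Nat.find_spec hex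
    have hmM : m ≤ M := Nat.find_min' hex ⟨hM1, hM⟩
    have hmmin : ∀ m', 1 ≤ m' → m' < m → ¬ (ℓ : ℤ) ∣ Dm p q β m' := fun m' h1 h2 h =>
      Nat.find_min hex h2 ⟨h1, h⟩
    have hj : j₀ < m := by
      by_contra h
      exact hED m hm1 (not_lt.1 h) hmD
    have hg := good_lemma (ratMap ℚ p q) (fun x y => v (det (rep x) (rep y)))
      (fun x => v (Wf ℚ p q n (rep x)) < 1) β m (fun x y => v.nonneg _)
      (fun x y => by rw [det_swap, v.map_neg]) (fun x y z => det_ult v hv hvint x y z)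
      (fun x y => by
        rw [det_step v p q n hF]
        exact mul_le_of_le_one_right (v.nonneg _) (bez_int v hvint p q n _ _))
      (fun x y hW h0 h1 => by
        rw [det_step v p q n hF]
        have h2 := bez_lt v hv hvint p q n x y hW h1
        exact mul_lt_of_lt_one_right h0 h2)
      (by rw [hD]; exact (hvlt _).2 hmD)
      (by rw [hD]; exact v.pos (by exact_mod_cast Dm_ne p q β hw m hm1)) hm1
      (fun m' h1 h2 h => hmmin m' h1 h2 ((hvlt _).1 (by rw [← hD]; exact h)))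
      (hcr v hv hvint (hv1 c hEc) hF m hj (by rw [hD]; exact (hvlt _).2 hmD))
      N (by omega) (by rw [hD]; exact (hvlt _).2 hN)
    obtain ⟨hdvd, hle⟩ := hg
    refine ⟨m, hm1, ?_, fun t ht => ?_⟩
    · obtain ⟨r, hr⟩ := hdvd
      rcases r with _ | _ | r
      · omega
      · omega
      · rw [hr]
        nlinarith
    · rw [padicNorm.dvd_iff_norm_le] at ht ⊢
      simp only [hD] at hle
      rw [hvdef, Rat.AbsoluteValue.padic_eq_padicNorm, Rat.AbsoluteValue.padic_eq_padicNorm]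
        at hle
      have hle' : padicNorm ℓ (Dm p q β m : ℚ) ≤ padicNorm ℓ (Dm p q β N : ℚ) := by
        exact_mod_cast hle
      exact hle'.trans ht

end Pool.Agent.Work.MP_1bed24_nt
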