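import Pool.Agent.Work.MP_1bed24_nt.GoodP

/-!
Heights along a wandering orbit.
-/

set_option autoImplicit false

namespace Pool.Agent.Work.MP_1bed24_nt

open Finset Polynomial

/-- the height of a point -/
noncomputable def ht (z : Option ℚ) : ℝ := nm Rat.AbsoluteValue.real (rep z)

theorem one_le_ht (z : Option ℚ) : 1 ≤ ht z := by
  unfold ht nm
  rcases z with _ | x
  · refine le_max_of_le_left ?_
    unfold rep castv repZ
    simp
  · refine le_max_of_le_right ?_
    unfold rep castv repZ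
    simp only [Rat.AbsoluteValue.real_eq_abs]
    have := x.den_pos
    rw [abs_of_nonneg (by positivity)]
    exact_mod_cast this

theorem repZ_injective : Function.Injective repZ := by
  intro x y h
  rw [← toP_rep x, ← toP_rep y]
  unfold rep
  rw [h]

theorem ht_finite (B : ℝ) : {z : Option ℚ | ht z ≤ B}.Finite := by
  obtain ⟨b, hb⟩ := exists_nat_ge B
  have hfin : ((Set.Icc (-(b : ℤ)) b) ×ˢ (Set.Icc (-(b : ℤ)) b)).Finite :=
    (Set.finite_Icc _ _).prod (Set.finite_Icc _ _)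
  refine (hfin.preimage (repZ_injective.injOn)).subset ?_
  intro z hz
  have hz' : ht z ≤ b := le_trans hz hb
  have h1 : Rat.AbsoluteValue.real (rep z).1 ≤ b := (fst_le _ _).trans hz'
  have h2 : Rat.AbsoluteValue.real (rep z).2 ≤ b := (snd_le _ _).trans hz'
  rw [Rat.AbsoluteValue.real_eq_abs] at h1 h2
  unfold rep castv at h1 h2
  simp only at h1 h2
  have h1' : |(repZ z).1| ≤ (b : ℤ) := by exact_mod_cast h1
  have h2' : |(repZ z).2| ≤ (b : ℤ) := by exact_mod_cast h2
  rw [abs_le] at h1' h2'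
  exact ⟨⟨h1'.1, h1'.2⟩, ⟨h2'.1, h2'.2⟩⟩

theorem ht_map (p q : ℤ[X]) (n : ℕ) (hd : ratDeg p q = n + 1)
    (hcop : IsCoprime (p.map (Int.castRingHom ℚ)) (q.map (Int.castRingHom ℚ))) :
    ∃ C : ℝ, 1 ≤ C ∧ ∀ z : Option ℚ, ht (ratMap ℚ p q z) ≤ C * ht z ^ (n + 1) ∧
      ht z ^ (n + 1) ≤ C * ht (ratMap ℚ p q z) := by
  obtain ⟨R, hR, hRz⟩ := Fm_repZ p q n hd hcop
  obtain ⟨C, hC1, hC⟩ := upper Rat.AbsoluteValue.real p q n
  obtain ⟨c, hc0, hc1, hc⟩ := lower Rat.AbsoluteValue.real p q n hd hcop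
  have hR1 : (1 : ℝ) ≤ |(R : ℝ)| := by
    exact_mod_cast Int.one_le_abs hR
  refine ⟨C + |(R : ℝ)| / c, by
    have : 0 ≤ |(R : ℝ)| / c := by positivity
    linarith, fun z => ?_⟩
  obtain ⟨a, ha, haR, h⟩ := hRz z
  have hnm : nm Rat.AbsoluteValue.real (Fm ℚ p q n (rep z)) =
      |(a : ℝ)| * ht (ratMap ℚ p q z) := by
    have h1 : Fm ℚ p q n (rep z) = smulv (a : ℚ) (rep (ratMap ℚ p q z)) := by
      unfold rep
      rw [Fm_castv, h]
      unfold castv smulv
      push_cast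
      rfl
    rw [h1, nm_smulv, Rat.AbsoluteValue.real_eq_abs]
    unfold ht
    push_cast
    rfl
  have ha1 : (1 : ℝ) ≤ |(a : ℝ)| := by
    exact_mod_cast Int.one_le_abs ha
  have haR' : |(a : ℝ)| ≤ |(R : ℝ)| := by
    have : |a| ≤ |R| := Int.le_of_dvd (abs_pos.2 hR) ((abs_dvd_abs a R).2 haR)
    exact_mod_cast this
  have h0 := one_le_ht (ratMap ℚ p q z)
  have h0' := one_le_ht z
  have hup := hC (rep z)
  have hlo := hc (rep z) (rep_ne z)
  rw [hnm] at hup hlo
  change _ ≤ C * ht z ^ (n + 1) at hup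
  change c * ht z ^ (n + 1) ≤ _ at hlo
  constructor
  · have h2 : 0 ≤ |(R : ℝ)| / c * ht z ^ (n + 1) := by positivity
    nlinarith
  · have h3 : ht z ^ (n + 1) ≤ |(R : ℝ)| / c * ht (ratMap ℚ p q z) := by
      rw [div_mul_eq_mul_div, le_div_iff₀ hc0]
      nlinarith
    nlinarith

/-- the logarithm of the height along a wandering orbit grows like `d ^ m` -/
theorem growth (p q : ℤ[X]) (n : ℕ) (hn : 1 ≤ n) (hd : ratDeg p q = n + 1)
    (hcop : IsCoprime (p.map (Int.castRingHom ℚ)) (q.map (Int.castRingHom ℚ)))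
    (β : Option ℚ) (hw : Function.Injective fun m : ℕ => (ratMap ℚ p q)^[m] β) :
    ∃ c C : ℝ, 0 < c ∧ 0 < C ∧ ∃ N₀ : ℕ,
      (∀ m, Real.log (ht ((ratMap ℚ p q)^[m] β)) ≤ C * (n + 1) ^ m) ∧
      ∀ m, N₀ ≤ m → c * (n + 1) ^ m ≤ Real.log (ht ((ratMap ℚ p q)^[m] β)) := by
  obtain ⟨K, hK1, hK⟩ := ht_map p q n hd hcop
  set L : ℕ → ℝ := fun m => Real.log (ht ((ratMap ℚ p q)^[m] β)) with hL
  set κ : ℝ := Real.log K with hκ
  have hκ0 : 0 ≤ κ := Real.log_nonneg hK1
  have hh : ∀ m, 1 ≤ ht ((ratMap ℚ p q)^[m] β) := fun m => one_le_ht _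
  have hL0 : ∀ m, 0 ≤ L m := fun m => Real.log_nonneg (hh m)
  have hup : ∀ m, L (m + 1) ≤ (n + 1) * L m + κ := by
    intro m
    have h1 := (hK ((ratMap ℚ p q)^[m] β)).1
    rw [← Function.iterate_succ_apply' (ratMap ℚ p q)] at h1
    have h2 := Real.log_le_log (by linarith [hh (m + 1)]) h1
    rw [Real.log_mul (by linarith) (by have := hh m; positivity), Real.log_pow] at h2
    push_cast at h2
    simp only [hL]
    linarith
  have hlo : ∀ m, (n + 1) * L m - κ ≤ L (m + 1) := by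
    intro m
    have h1 := (hK ((ratMap ℚ p q)^[m] β)).2
    rw [← Function.iterate_succ_apply' (ratMap ℚ p q)] at h1
    have h2 := Real.log_le_log (by have := hh m; positivity) h1
    rw [Real.log_mul (by linarith) (by have := hh (m + 1); positivity), Real.log_pow] at h2
    push_cast at h2
    simp only [hL]
    linarith
  have hn' : (1 : ℝ) ≤ n := by exact_mod_cast hn
  have hU : ∀ m, L m + κ ≤ (n + 1) ^ m * (L 0 + κ) := by
    intro m
    induction m with
    | zero => simp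
    | succ m ih =>
      have := hup m
      calc L (m + 1) + κ ≤ (n + 1) * (L m + κ) := by nlinarith
        _ ≤ (n + 1) * ((n + 1) ^ m * (L 0 + κ)) := by gcongr
        _ = _ := by ring
  obtain ⟨n₀, hn₀⟩ : ∃ n₀, κ + 1 ≤ L n₀ := by
    by_contra hcon
    push Not at hcon
    have hfin := ht_finite (Real.exp (κ + 1))
    have hinf : (Set.range fun m : ℕ => (ratMap ℚ p q)^[m] β).Infinite :=
      Set.infinite_range_of_injective hw
    apply hinf
    refine hfin.subset ?_
    rintro _ ⟨m, rfl⟩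
    have h1 := hcon m
    have h2 : ht ((ratMap ℚ p q)^[m] β) ≤ Real.exp (κ + 1) := by
      rw [← Real.log_le_iff_le_exp (by linarith [hh m])]
      exact h1.le
    exact h2
  have hLo : ∀ m, (n + 1 : ℝ) ^ m ≤ L (n₀ + m) - κ := by
    intro m
    induction m with
    | zero =>
      rw [add_zero, pow_zero]
      linarith
    | succ m ih =>
      have h1 := hlo (n₀ + m)
      rw [← add_assoc]
      calc (n + 1 : ℝ) ^ (m + 1) = (n + 1) * (n + 1) ^ m := by ring
        _ ≤ (n + 1) * (L (n₀ + m) - κ) := by gcongr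
        _ ≤ L (n₀ + m + 1) - κ := by nlinarith
  refine ⟨((n + 1 : ℝ) ^ n₀)⁻¹, L 0 + κ + 1, by positivity, by linarith [hL0 0], n₀, ?_, ?_⟩
  · intro m
    have h1 := hU m
    have h2 : (0 : ℝ) < (n + 1) ^ m := by positivity
    change L m ≤ _
    nlinarith
  · intro m hm
    obtain ⟨r, rfl⟩ := Nat.exists_eq_add_of_le hm
    have h1 := hLo r
    change _ ≤ L (n₀ + r)
    rw [pow_add, inv_mul_cancel_left₀ (by positivity)]
    linarith

end Pool.Agent.Work.MP_1bed24_nt
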