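import Pool.Agent.Work.MP_1bed24_nt.Defs
import Pool.Agent.Work.MP_1bed24_nt.Forms

/-!
The homogeneous lift of a rational function and its Wronskian, over a commutative ring.
-/

set_option autoImplicit false

namespace Pool.Agent.Work.MP_1bed24_nt

open Finset Polynomial

section ring

variable {R S : Type} [CommRing R] [CommRing S]

/-- the coefficients of an integer polynomial in a ring -/
def cf (R : Type) [CommRing R] (p : ℤ[X]) (i : ℕ) : R := (p.coeff i : R)

/-- multiplication of a vector by a scalar -/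
def smulv (a : R) (x : R × R) : R × R := (a * x.1, a * x.2)

/-- image of a vector under a ring homomorphism -/
def mapv (φ : R →+* S) (x : R × R) : S × S := (φ x.1, φ x.2)

/-- the lift `(P, Q)` of `p / q`, with `P`, `Q` forms of degree `n + 1` -/
def Fm (R : Type) [CommRing R] (p q : ℤ[X]) (n : ℕ) (x : R × R) : R × R :=
  (form (cf R p) (n + 1) x, form (cf R q) (n + 1) x)

/-- the Wronskian form -/
def Wf (R : Type) [CommRing R] (p q : ℤ[X]) (n : ℕ) (x : R × R) : R :=
  bez (cf R p) (cf R q) n x x

theorem cf_map (φ : R →+* S) (p : ℤ[X]) (i : ℕ) : φ (cf R p i) = cf S p i := by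
  unfold cf
  exact map_intCast φ _

theorem form_map (φ : R →+* S) (p : ℤ[X]) (d : ℕ) (x : R × R) :
    form (cf S p) d (mapv φ x) = φ (form (cf R p) d x) := by
  unfold form mapv
  rw [map_sum]
  refine sum_congr rfl fun i _ => ?_
  rw [map_mul, map_mul, map_pow, map_pow, cf_map]

theorem det_map (φ : R →+* S) (x y : R × R) : det (mapv φ x) (mapv φ y) = φ (det x y) := by
  unfold det mapv
  simp

theorem mono_map (φ : R →+* S) (n a b : ℕ) (x y : R × R) :
    mono n a b (mapv φ x) (mapv φ y) = φ (mono n a b x y) := by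
  unfold mono mapv
  simp

theorem TT_map (φ : R →+* S) (n i j : ℕ) (x y : R × R) :
    TT n i j (mapv φ x) (mapv φ y) = φ (TT n i j x y) := by
  unfold TT
  split_ifs
  · rw [map_sum]
    exact sum_congr rfl fun l _ => mono_map φ _ _ _ x y
  · rw [map_neg, map_sum]
    congr 1
    exact sum_congr rfl fun l _ => mono_map φ _ _ _ x y

theorem bez_map (φ : R →+* S) (p q : ℤ[X]) (n : ℕ) (x y : R × R) :
    bez (cf S p) (cf S q) n (mapv φ x) (mapv φ y) = φ (bez (cf R p) (cf R q) n x y) := by
  unfold bez
  rw [map_sum]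
  refine sum_congr rfl fun i _ => ?_
  rw [map_sum]
  refine sum_congr rfl fun j _ => ?_
  rw [map_mul, map_mul, TT_map, cf_map, cf_map]

theorem Fm_map (φ : R →+* S) (p q : ℤ[X]) (n : ℕ) (x : R × R) :
    Fm S p q n (mapv φ x) = mapv φ (Fm R p q n x) := by
  unfold Fm
  rw [form_map, form_map]
  rfl

theorem Wf_map (φ : R →+* S) (p q : ℤ[X]) (n : ℕ) (x : R × R) :
    Wf S p q n (mapv φ x) = φ (Wf R p q n x) := bez_map φ p q n x x

theorem Fm_iter_map (φ : R →+* S) (p q : ℤ[X]) (n k : ℕ) (x : R × R) :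
    (Fm S p q n)^[k] (mapv φ x) = mapv φ ((Fm R p q n)^[k] x) := by
  induction k with
  | zero => rfl
  | succ k ih => rw [Function.iterate_succ_apply', Function.iterate_succ_apply', ih, Fm_map]

theorem form_smul (c : ℕ → R) (d : ℕ) (a : R) (x : R × R) :
    form c d (smulv a x) = a ^ d * form c d x := by
  unfold form smulv
  rw [mul_sum]
  refine sum_congr rfl fun i hi => ?_
  rw [mem_range] at hi
  obtain ⟨k, hk⟩ := Nat.exists_eq_add_of_le (by omega : i ≤ d)
  subst hk
  rw [Nat.add_sub_cancel_left]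
  ring

theorem mono_smul (n a b : ℕ) (ha : a ≤ n) (hb : b ≤ n) (s t : R) (x y : R × R) :
    mono n a b (smulv s x) (smulv t y) = s ^ n * t ^ n * mono n a b x y := by
  unfold mono smulv
  have e1 : s ^ n = s ^ a * s ^ (n - a) := by rw [← pow_add]; congr 1; omega
  have e2 : t ^ n = t ^ b * t ^ (n - b) := by rw [← pow_add]; congr 1; omega
  rw [e1, e2]
  ring

theorem TT_smul (n i j : ℕ) (hi : i ≤ n + 1) (hj : j ≤ n + 1) (s t : R) (x y : R × R) :
    TT n i j (smulv s x) (smulv t y) = s ^ n * t ^ n * TT n i j x y := by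
  unfold TT
  split_ifs with h
  · rw [mul_sum]
    refine sum_congr rfl fun l hl => ?_
    rw [mem_range] at hl
    exact mono_smul n _ _ (by omega) (by omega) s t x y
  · rw [mul_neg, mul_sum]
    congr 1
    refine sum_congr rfl fun l hl => ?_
    rw [mem_range] at hl
    exact mono_smul n _ _ (by omega) (by omega) s t x y

theorem bez_smul (p q : ℕ → R) (n : ℕ) (s t : R) (x y : R × R) :
    bez p q n (smulv s x) (smulv t y) = s ^ n * t ^ n * bez p q n x y := by
  unfold bez
  rw [mul_sum]
  refine sum_congr rfl fun i hi => ?_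
  rw [mul_sum]
  refine sum_congr rfl fun j hj => ?_
  rw [mem_range] at hi hj
  rw [TT_smul n i j (by omega) (by omega)]
  ring

theorem det_smul (s t : R) (x y : R × R) : det (smulv s x) (smulv t y) = s * t * det x y := by
  unfold det smulv
  ring

theorem Fm_smul (p q : ℤ[X]) (n : ℕ) (a : R) (x : R × R) :
    Fm R p q n (smulv a x) = smulv (a ^ (n + 1)) (Fm R p q n x) := by
  unfold Fm
  rw [form_smul, form_smul]
  rfl

theorem Wf_smul (p q : ℤ[X]) (n : ℕ) (a : R) (x : R × R) :
    Wf R p q n (smulv a x) = a ^ (2 * n) * Wf R p q n x := by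
  unfold Wf
  rw [bez_smul, two_mul, pow_add]

theorem Fm_iter_smul (p q : ℤ[X]) (n k : ℕ) (a : R) (x : R × R) :
    (Fm R p q n)^[k] (smulv a x) = smulv (a ^ ((n + 1) ^ k)) ((Fm R p q n)^[k] x) := by
  induction k with
  | zero => simp
  | succ k ih =>
    rw [Function.iterate_succ_apply', Function.iterate_succ_apply', ih, Fm_smul, ← pow_mul,
      ← pow_succ]

theorem det_Fm (p q : ℤ[X]) (n : ℕ) (x y : R × R) :
    det (Fm R p q n x) (Fm R p q n y) = det x y * bez (cf R p) (cf R q) n x y :=
  det_form (cf R p) (cf R q) n x y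

theorem form_inf (c : ℕ → R) (d : ℕ) (a : R) : form c d (a, 0) = c d * a ^ d := by
  unfold form
  rw [sum_range_succ, sum_eq_zero, zero_add]
  · simp
  · intro i hi
    rw [mem_range] at hi
    simp only
    rw [zero_pow (by omega), mul_zero, mul_zero]

end ring

section field

variable {K : Type} [Field K]

theorem form_one (p : ℤ[X]) (d : ℕ) (h : p.natDegree ≤ d) (t : K) :
    form (cf K p) d (t, 1) = aeval t p := by
  rw [aeval_eq_sum_range' (Nat.lt_succ_of_le h)]
  unfold form cf
  refine sum_congr rfl fun i _ => ?_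
  simp only [one_pow, mul_one]
  rw [zsmul_eq_mul]

theorem eq_smulv (x : K × K) (h : x.2 ≠ 0) : x = smulv x.2 (x.1 / x.2, 1) := by
  unfold smulv
  ext
  · simp only
    field_simp
  · simp

theorem form_ne (p : ℤ[X]) (d : ℕ) (h : p.natDegree ≤ d) (x : K × K) (hx : x.2 ≠ 0) :
    form (cf K p) d x = x.2 ^ d * aeval (x.1 / x.2) p := by
  conv_lhs => rw [eq_smulv x hx]
  rw [form_smul, form_one p d h]

theorem bez_one_one (p q : ℤ[X]) (n : ℕ) (hp : p.natDegree ≤ n + 1) (hq : q.natDegree ≤ n + 1)
    (t : K) :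
    bez (cf K p) (cf K q) n (t, 1) (t, 1) = aeval t (derivative p * q - p * derivative q) := by
  have h := det_form (cf K[X] p) (cf K[X] q) n ((X, 1) : K[X] × K[X]) (C t, 1)
  set g : K[X] := bez (cf K[X] p) (cf K[X] q) n ((X, 1) : K[X] × K[X]) (C t, 1) with hg
  have hev : ∀ (r : ℤ[X]), r.natDegree ≤ n + 1 →
      form (cf K[X] r) (n + 1) ((X, 1) : K[X] × K[X]) = r.map (Int.castRingHom K) := by
    intro r hr
    unfold form cf
    conv_rhs => rw [as_sum_range' (r.map (Int.castRingHom K)) (n + 1 + 1)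
      (lt_of_le_of_lt natDegree_map_le (Nat.lt_succ_of_le hr))]
    refine sum_congr rfl fun i _ => ?_
    simp only [one_pow, mul_one]
    rw [← C_mul_X_pow_eq_monomial, coeff_map]
    simp
  have hev2 : ∀ (r : ℤ[X]), r.natDegree ≤ n + 1 →
      form (cf K[X] r) (n + 1) ((C t, 1) : K[X] × K[X]) = C (aeval t r) := by
    intro r hr
    have h1 := form_map (C : K →+* K[X]) r (n + 1) (t, 1)
    unfold mapv at h1
    simp only [map_one] at h1
    rw [h1, form_one r (n + 1) hr]
  rw [hev p hp, hev q hq, hev2 p hp, hev2 q hq] at h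
  have hgt : eval t g = bez (cf K p) (cf K q) n (t, 1) (t, 1) := by
    have h1 := bez_map (evalRingHom t) p q n ((X, 1) : K[X] × K[X]) (C t, 1)
    unfold mapv at h1
    simp only [coe_evalRingHom, eval_X, eval_one, eval_C] at h1
    rw [hg, h1]
  have h2 := congrArg (fun r : K[X] => eval t (derivative r)) h
  unfold det at h2
  simp only [derivative_sub, derivative_mul, derivative_C, derivative_X,
    eval_sub, eval_add, eval_mul, eval_C, eval_X, mul_one, mul_zero, add_zero,
    one_mul, sub_self, zero_mul, sub_zero, derivative_map] at h2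
  rw [← hgt, ← h2, map_sub, map_mul, map_mul, eval_map, eval_map]
  simp only [aeval_def, algebraMap_int_eq]
  ring

theorem bez_inf_inf (p q : ℤ[X]) (n : ℕ) :
    bez (cf K p) (cf K q) n (1, 0) (1, 0) =
      (p.coeff (n + 1) * q.coeff n - p.coeff n * q.coeff (n + 1) : ℤ) := by
  have h := det_form (cf K[X] p) (cf K[X] q) n ((1, X) : K[X] × K[X]) (1, 0)
  set g : K[X] := bez (cf K[X] p) (cf K[X] q) n ((1, X) : K[X] × K[X]) (1, 0) with hg
  rw [form_inf, form_inf, one_pow, mul_one, mul_one] at h
  have hgt : g.coeff 0 = bez (cf K p) (cf K q) n (1, 0) (1, 0) := by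
    rw [coeff_zero_eq_eval_zero]
    have h1 := bez_map (evalRingHom (0 : K)) p q n ((1, X) : K[X] × K[X]) (1, 0)
    unfold mapv at h1
    simp only [coe_evalRingHom, eval_X, eval_one, eval_zero] at h1
    rw [hg, h1]
  have hev : ∀ (r : ℤ[X]), (form (cf K[X] r) (n + 1) ((1, X) : K[X] × K[X])).coeff 1 =
      (r.coeff n : K) := by
    intro r
    unfold form cf
    rw [finsetSum_coeff, sum_eq_single n]
    · simp only [one_pow, one_mul]
      rw [← Polynomial.C_eq_intCast, coeff_C_mul, coeff_X_pow]
      simp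
    · intro i hi hin
      rw [mem_range] at hi
      simp only [one_pow, one_mul]
      rw [← Polynomial.C_eq_intCast, coeff_C_mul, coeff_X_pow, if_neg (by omega), mul_zero]
    · intro hn
      exact absurd (mem_range.2 (by omega)) hn
  have h2 := congrArg (fun r : K[X] => r.coeff 1) h
  have e : det ((1, X) : K[X] × K[X]) (1, 0) = -X := by
    unfold det
    simp
  simp only [cf] at h2
  rw [e] at h2
  simp only [coeff_sub, neg_mul, coeff_neg] at h2
  rw [← Polynomial.C_eq_intCast, ← Polynomial.C_eq_intCast, coeff_mul_C, coeff_mul_C] at h2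
  have h3 : (X * g).coeff 1 = g.coeff 0 := by
    exact coeff_X_mul g 0
  rw [h3, hgt] at h2
  rw [hev p, hev q] at h2
  push_cast
  linear_combination h2

/-- the point of the projective line given by a vector -/
noncomputable def toP (K : Type) [Field K] (x : K × K) : Option K :=
  open Classical in if x.2 = 0 then none else some (x.1 / x.2)

theorem toP_Fm (p q : ℤ[X]) (n : ℕ) (hd : ratDeg p q = n + 1) (x : K × K) (hx : x ≠ 0) :
    toP K (Fm K p q n x) = ratMap K p q (toP K x) := by
  have hp : p.natDegree ≤ n + 1 := hd ▸ le_max_left _ _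
  have hq : q.natDegree ≤ n + 1 := hd ▸ le_max_right _ _
  unfold toP
  by_cases h2 : x.2 = 0
  · have h1 : x.1 ≠ 0 := by
      intro h1
      exact hx (Prod.ext h1 h2)
    have hx' : x = (x.1, 0) := Prod.ext rfl h2
    rw [if_pos h2]
    unfold ratMap Fm
    simp only
    rw [hx', form_inf, form_inf, hd]
    unfold cf
    have hpow : x.1 ^ (n + 1) ≠ 0 := pow_ne_zero _ h1
    by_cases hc : (q.coeff (n + 1) : K) = 0
    · rw [if_pos hc, if_pos (by simp [hc])]
    · rw [if_neg hc, if_neg (mul_ne_zero hc hpow)]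
      congr 1
      field_simp
  · rw [if_neg h2]
    unfold ratMap Fm
    simp only
    rw [form_ne p _ hp x h2, form_ne q _ hq x h2]
    have hpow : x.2 ^ (n + 1) ≠ 0 := pow_ne_zero _ h2
    by_cases hc : aeval (x.1 / x.2) q = 0
    · rw [if_pos hc, if_pos (by simp [hc])]
    · rw [if_neg hc, if_neg (mul_ne_zero hpow hc)]
      congr 1
      field_simp

theorem Wf_eq_zero [CharZero K] (p q : ℤ[X]) (n : ℕ) (hd : ratDeg p q = n + 1) (x : K × K)
    (hx : x ≠ 0) : Wf K p q n x = 0 ↔ IsCritical K p q (toP K x) := by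
  have hp : p.natDegree ≤ n + 1 := hd ▸ le_max_left _ _
  have hq : q.natDegree ≤ n + 1 := hd ▸ le_max_right _ _
  unfold toP
  by_cases h2 : x.2 = 0
  · have h1 : x.1 ≠ 0 := by
      intro h1
      exact hx (Prod.ext h1 h2)
    have hx' : x = smulv x.1 (1, 0) := by
      unfold smulv
      exact Prod.ext (by simp) (by simp [h2])
    rw [if_pos h2]
    unfold IsCritical
    simp only
    rw [hd, Nat.add_sub_cancel, hx', Wf_smul]
    unfold Wf
    rw [bez_inf_inf]
    constructor
    · intro h
      rcases mul_eq_zero.1 h with h | h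
      · exact absurd h (pow_ne_zero _ h1)
      · rw [Int.cast_eq_zero] at h
        linarith
    · intro h
      rw [sub_eq_zero.2 h]
      simp
  · rw [if_neg h2]
    unfold IsCritical
    simp only
    rw [← bez_one_one p q n hp hq]
    conv_lhs => rw [eq_smulv x h2]
    rw [Wf_smul]
    constructor
    · intro h
      rcases mul_eq_zero.1 h with h | h
      · exact absurd h (pow_ne_zero _ h2)
      · exact h
    · intro h
      unfold Wf
      rw [h, mul_zero]

theorem toP_iter (p q : ℤ[X]) (n : ℕ) (hd : ratDeg p q = n + 1)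
    (hF : ∀ x : K × K, x ≠ 0 → Fm K p q n x ≠ 0) (k : ℕ) (x : K × K) (hx : x ≠ 0) :
    (Fm K p q n)^[k] x ≠ 0 ∧ toP K ((Fm K p q n)^[k] x) = (ratMap K p q)^[k] (toP K x) := by
  induction k with
  | zero => exact ⟨hx, rfl⟩
  | succ k ih =>
    rw [Function.iterate_succ_apply', Function.iterate_succ_apply']
    exact ⟨hF _ ih.1, by rw [toP_Fm p q n hd _ ih.1, ih.2]⟩

theorem toP_smulv (a : K) (ha : a ≠ 0) (x : K × K) : toP K (smulv a x) = toP K x := by
  unfold toP smulv
  by_cases h2 : x.2 = 0
  · rw [if_pos h2, if_pos (by simp [h2])]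
  · rw [if_neg h2, if_neg (mul_ne_zero ha h2)]
    congr 1
    simp only
    field_simp

/-- vectors with the same image are proportional -/
theorem eq_of_toP_eq (x y : K × K) (hx : x ≠ 0) (hy : y ≠ 0) (h : toP K x = toP K y) :
    ∃ a : K, a ≠ 0 ∧ x = smulv a y := by
  unfold toP at h
  by_cases h2 : x.2 = 0
  · have h1 : x.1 ≠ 0 := fun h1 => hx (Prod.ext h1 h2)
    rw [if_pos h2] at h
    by_cases k2 : y.2 = 0
    · have k1 : y.1 ≠ 0 := fun k1 => hy (Prod.ext k1 k2)
      refine ⟨x.1 / y.1, div_ne_zero h1 k1, ?_⟩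
      unfold smulv
      refine Prod.ext ?_ ?_
      · simp only
        field_simp
      · simp [h2, k2]
    · rw [if_neg k2] at h
      exact absurd h (by simp)
  · rw [if_neg h2] at h
    by_cases k2 : y.2 = 0
    · rw [if_pos k2] at h
      exact absurd h (by simp)
    · rw [if_neg k2] at h
      have h3 : x.1 / x.2 = y.1 / y.2 := Option.some.inj h
      refine ⟨x.2 / y.2, div_ne_zero h2 k2, ?_⟩
      unfold smulv
      refine Prod.ext ?_ ?_
      · simp only
        rw [div_eq_div_iff h2 k2] at h3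
        field_simp
        linear_combination h3
      · simp only
        field_simp

end field

end Pool.Agent.Work.MP_1bed24_nt
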