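import Pool.Agent.Work.MP_1bed24_nt.Bezout

/-!
Primitive integral vectors representing rational points of the projective line.
-/

set_option autoImplicit false

namespace Pool.Agent.Work.MP_1bed24_nt

open Finset Polynomial

/-- primitive integral vector of a point -/
def repZ : Option ℚ → ℤ × ℤ
  | none => (1, 0)
  | some x => (x.num, (x.den : ℤ))

/-- an integral vector seen in a ring -/
def castv (R : Type) [CommRing R] (x : ℤ × ℤ) : R × R := ((x.1 : R), (x.2 : R))

/-- the rational vector of a point -/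
def rep (z : Option ℚ) : ℚ × ℚ := castv ℚ (repZ z)

theorem castv_eq (R : Type) [CommRing R] (x : ℤ × ℤ) :
    castv R x = mapv (Int.castRingHom R) x := rfl

theorem mapv_castv {R S : Type} [CommRing R] [CommRing S] (φ : R →+* S) (x : ℤ × ℤ) :
    mapv φ (castv R x) = castv S x := by
  unfold mapv castv
  simp

theorem repZ_coprime (z : Option ℚ) : IsCoprime (repZ z).1 (repZ z).2 := by
  rcases z with _ | x
  · exact isCoprime_one_left
  · exact Rat.isCoprime_num_den x

theorem repZ_ne (z : Option ℚ) : repZ z ≠ 0 := by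
  rcases z with _ | x
  · intro h
    have := congrArg Prod.fst h
    simp [repZ] at this
  · intro h
    have := congrArg Prod.snd h
    simp [repZ] at this

theorem castv_ne (x : ℤ × ℤ) (h : x ≠ 0) (K : Type) [Field K] [CharZero K] : castv K x ≠ 0 := by
  intro h0
  apply h
  have h1 := congrArg Prod.fst h0
  have h2 := congrArg Prod.snd h0
  unfold castv at h1 h2
  simp only [Prod.fst_zero, Prod.snd_zero, Int.cast_eq_zero] at h1 h2
  exact Prod.ext h1 h2

theorem rep_ne (z : Option ℚ) : rep z ≠ 0 := castv_ne _ (repZ_ne z) ℚ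

theorem toP_rep (z : Option ℚ) : toP ℚ (rep z) = z := by
  rcases z with _ | x
  · unfold toP rep castv repZ
    simp
  · unfold toP rep castv repZ
    simp only
    rw [if_neg (by simp)]
    congr 1
    exact_mod_cast Rat.num_div_den x

/-- an integral vector is an integral multiple of the primitive one -/
theorem exists_mul_repZ (y : ℤ × ℤ) (hy : y ≠ 0) :
    ∃ a : ℤ, a ≠ 0 ∧ y = smulv a (repZ (toP ℚ (castv ℚ y))) := by
  unfold toP castv
  by_cases h2 : y.2 = 0
  · have h1 : y.1 ≠ 0 := fun h1 => hy (Prod.ext h1 h2)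
    refine ⟨y.1, h1, ?_⟩
    simp only
    rw [if_pos (by simp [h2])]
    unfold smulv repZ
    exact Prod.ext (by simp) (by simp [h2])
  · obtain ⟨c, hc1, hc2⟩ := Rat.exists_eq_mul_div_num_and_eq_mul_div_den y.1 h2
    refine ⟨c, ?_, ?_⟩
    · intro h
      apply h2
      rw [hc2, h, zero_mul]
    · simp only
      rw [if_neg (by exact_mod_cast h2)]
      unfold smulv repZ
      exact Prod.ext hc1 hc2

section map

variable (p q : ℤ[X]) (n : ℕ)

theorem Fm_ne (hd : ratDeg p q = n + 1)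
    (hcop : IsCoprime (p.map (Int.castRingHom ℚ)) (q.map (Int.castRingHom ℚ)))
    (K : Type) [Field K] [CharZero K] (x : K × K) (hx : x ≠ 0) : Fm K p q n x ≠ 0 := by
  intro h0
  obtain ⟨R, N₁, N₂, u, v, u', v', hR, h⟩ := bezout p q n hd hcop
  obtain ⟨h1, h2⟩ := h K x
  have e1 : form (cf K p) (n + 1) x = 0 := congrArg Prod.fst h0
  have e2 : form (cf K q) (n + 1) x = 0 := congrArg Prod.snd h0
  rw [e1, e2, mul_zero, mul_zero, add_zero] at h1 h2
  have hRK : (R : K) ≠ 0 := by exact_mod_cast hR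
  apply hx
  apply Prod.ext
  · rcases mul_eq_zero.1 h2.symm with h | h
    · exact absurd h hRK
    · exact (pow_eq_zero_iff (by omega)).1 h
  · rcases mul_eq_zero.1 h1.symm with h | h
    · exact absurd h hRK
    · exact (pow_eq_zero_iff (by omega)).1 h

theorem Fm_castv (R : Type) [CommRing R] (x : ℤ × ℤ) :
    Fm R p q n (castv R x) = castv R (Fm ℤ p q n x) := by
  rw [castv_eq, Fm_map, ← castv_eq]

/-- the lift of a primitive vector is a bounded multiple of a primitive vector -/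
theorem Fm_repZ (hd : ratDeg p q = n + 1)
    (hcop : IsCoprime (p.map (Int.castRingHom ℚ)) (q.map (Int.castRingHom ℚ))) :
    ∃ R : ℤ, R ≠ 0 ∧ ∀ z : Option ℚ, ∃ a : ℤ, a ≠ 0 ∧ a ∣ R ∧
      Fm ℤ p q n (repZ z) = smulv a (repZ (ratMap ℚ p q z)) := by
  obtain ⟨R, N₁, N₂, u, v, u', v', hR, h⟩ := bezout p q n hd hcop
  refine ⟨R, hR, fun z => ?_⟩
  have hF : Fm ℤ p q n (repZ z) ≠ 0 := by
    intro h0
    have h1 := Fm_castv p q n ℚ (repZ z)
    rw [h0] at h1
    apply Fm_ne p q n hd hcop ℚ _ (rep_ne z)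
    unfold rep
    rw [h1]
    unfold castv
    simp
  obtain ⟨a, ha, hF2⟩ := exists_mul_repZ _ hF
  rw [← Fm_castv] at hF2
  have e : toP ℚ (Fm ℚ p q n (castv ℚ (repZ z))) = ratMap ℚ p q z := by
    have h3 := toP_Fm p q n hd (rep z) (rep_ne z)
    rw [toP_rep] at h3
    exact h3
  rw [e] at hF2
  refine ⟨a, ha, ?_, hF2⟩
  obtain ⟨h1, h2⟩ := h ℚ (castv ℚ (repZ z))
  have hP : form (cf ℤ p) (n + 1) (repZ z) = a * (repZ (ratMap ℚ p q z)).1 :=
    congrArg Prod.fst hF2
  have hQ : form (cf ℤ q) (n + 1) (repZ z) = a * (repZ (ratMap ℚ p q z)).2 :=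
    congrArg Prod.snd hF2
  have d1 : a ∣ R * (repZ z).2 ^ (N₁ + (n + 1)) := by
    have h1' : form (cf ℤ u) N₁ (repZ z) * form (cf ℤ p) (n + 1) (repZ z) +
        form (cf ℤ v) N₁ (repZ z) * form (cf ℤ q) (n + 1) (repZ z) =
        R * (repZ z).2 ^ (N₁ + (n + 1)) := by
      rw [castv_eq, form_map, form_map, form_map, form_map] at h1
      unfold mapv at h1
      simp only [eq_intCast] at h1
      exact_mod_cast h1
    rw [← h1', hP, hQ]
    exact dvd_add ((dvd_mul_right a _).mul_left _) ((dvd_mul_right a _).mul_left _)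
  have d2 : a ∣ R * (repZ z).1 ^ (N₂ + (n + 1)) := by
    have hsw : (((castv ℚ (repZ z)).2, (castv ℚ (repZ z)).1) : ℚ × ℚ) =
        mapv (Int.castRingHom ℚ) ((repZ z).2, (repZ z).1) := by
      unfold castv mapv
      simp
    have h2' : form (cf ℤ u') N₂ ((repZ z).2, (repZ z).1) * form (cf ℤ p) (n + 1) (repZ z) +
        form (cf ℤ v') N₂ ((repZ z).2, (repZ z).1) * form (cf ℤ q) (n + 1) (repZ z) =
        R * (repZ z).1 ^ (N₂ + (n + 1)) := by
      rw [hsw, castv_eq, form_map, form_map, form_map, form_map] at h2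
      unfold mapv at h2
      simp only [eq_intCast] at h2
      exact_mod_cast h2
    rw [← h2', hP, hQ]
    exact dvd_add ((dvd_mul_right a _).mul_left _) ((dvd_mul_right a _).mul_left _)
  have hco : IsCoprime ((repZ z).1 ^ (N₂ + (n + 1))) ((repZ z).2 ^ (N₁ + (n + 1))) :=
    (repZ_coprime z).pow
  obtain ⟨s, t, hst⟩ := hco
  have : R = s * (R * (repZ z).1 ^ (N₂ + (n + 1))) + t * (R * (repZ z).2 ^ (N₁ + (n + 1))) := by
    linear_combination (-R) * hst
  rw [this]
  exact dvd_add (d2.mul_left _) (d1.mul_left _)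

theorem Fm_rep (hd : ratDeg p q = n + 1)
    (hcop : IsCoprime (p.map (Int.castRingHom ℚ)) (q.map (Int.castRingHom ℚ)))
    (x : ℚ × ℚ) (hx : x ≠ 0) (k : ℕ) :
    ∃ a : ℚ, a ≠ 0 ∧ (Fm ℚ p q n)^[k] x = smulv a (rep ((ratMap ℚ p q)^[k] (toP ℚ x))) := by
  obtain ⟨h1, h2⟩ := toP_iter p q n hd (fun y hy => Fm_ne p q n hd hcop ℚ y hy) k x hx
  exact eq_of_toP_eq _ _ h1 (rep_ne _) (by rw [h2, toP_rep])

end map

end Pool.Agent.Work.MP_1bed24_nt
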