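import Pool.Agent.Work.MP_1bed24_nt.Bez
import Pool.Agent.Work.MP_1bed24_nt.Rep

/-!
The chordal distance on the projective line at an absolute value, and how a rational map acts
on it.
-/

set_option autoImplicit false

namespace Pool.Agent.Work.MP_1bed24_nt

open Finset Polynomial

variable (v : AbsoluteValue ℚ ℝ)

/-- chordal distance of two vectors -/
noncomputable def dv (x y : ℚ × ℚ) : ℝ := v (det x y) / (nm v x * nm v y)

theorem nm_smulv (a : ℚ) (x : ℚ × ℚ) : nm v (smulv a x) = v a * nm v x := by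
  unfold nm smulv
  rw [map_mul, map_mul, mul_max_of_nonneg _ _ (v.nonneg a)]

theorem dv_nonneg (x y : ℚ × ℚ) : 0 ≤ dv v x y := by
  unfold dv
  have := nm_nonneg v x
  have := nm_nonneg v y
  have := v.nonneg (det x y)
  positivity

theorem dv_comm (x y : ℚ × ℚ) : dv v x y = dv v y x := by
  unfold dv
  rw [det_swap, v.map_neg, mul_comm (nm v x)]

theorem dv_smulv (a b : ℚ) (ha : a ≠ 0) (hb : b ≠ 0) (x y : ℚ × ℚ) :
    dv v (smulv a x) (smulv b y) = dv v x y := by
  unfold dv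
  rw [det_smul, nm_smulv, nm_smulv, map_mul, map_mul]
  have h1 : v a ≠ 0 := v.ne_zero ha
  have h2 : v b ≠ 0 := v.ne_zero hb
  rw [show v a * nm v x * (v b * nm v y) = v a * v b * (nm v x * nm v y) by ring]
  exact mul_div_mul_left _ _ (mul_ne_zero h1 h2)

theorem det_tri_fst {R : Type*} [CommRing R] (x y z : R × R) :
    det x z * y.1 = det y z * x.1 + det x y * z.1 := by
  unfold det
  ring

theorem det_tri_snd {R : Type*} [CommRing R] (x y z : R × R) :
    det x z * y.2 = det y z * x.2 + det x y * z.2 := by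
  unfold det
  ring

theorem det_tri (x y z : ℚ × ℚ) :
    v (det x z) * nm v y ≤ v (det y z) * nm v x + v (det x y) * nm v z := by
  have h1 := v.add_le (det y z * x.1) (det x y * z.1)
  have h2 := v.add_le (det y z * x.2) (det x y * z.2)
  rw [← det_tri_fst, map_mul, map_mul, map_mul] at h1
  rw [← det_tri_snd, map_mul, map_mul, map_mul] at h2
  have a1 := mul_le_mul_of_nonneg_left (fst_le v x) (v.nonneg (det y z))
  have a2 := mul_le_mul_of_nonneg_left (snd_le v x) (v.nonneg (det y z))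
  have a3 := mul_le_mul_of_nonneg_left (fst_le v z) (v.nonneg (det x y))
  have a4 := mul_le_mul_of_nonneg_left (snd_le v z) (v.nonneg (det x y))
  rcases max_choice (v y.1) (v y.2) with h | h
  · have : nm v y = v y.1 := h
    rw [this]
    linarith
  · have : nm v y = v y.2 := h
    rw [this]
    linarith

theorem dv_tri (x y z : ℚ × ℚ) (hx : x ≠ 0) (hy : y ≠ 0) (hz : z ≠ 0) :
    dv v x z ≤ dv v x y + dv v y z := by
  have h := det_tri v x y z
  have hx' := nm_pos v hx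
  have hy' := nm_pos v hy
  have hz' := nm_pos v hz
  unfold dv
  rw [div_add_div _ _ (by positivity) (by positivity), div_le_div_iff₀ (by positivity)
    (by positivity)]
  have e : v (det x z) * (nm v x * nm v y * (nm v y * nm v z)) =
      (v (det x z) * nm v y) * (nm v x * nm v y * nm v z) := by ring
  rw [e]
  calc (v (det x z) * nm v y) * (nm v x * nm v y * nm v z)
      ≤ (v (det y z) * nm v x + v (det x y) * nm v z) * (nm v x * nm v y * nm v z) := by
        gcongr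
    _ = _ := by ring

/-- the size of the Wronskian -/
noncomputable def wv (p q : ℤ[X]) (n : ℕ) (x : ℚ × ℚ) : ℝ :=
  v (Wf ℚ p q n x) / nm v x ^ (2 * n)

theorem wv_nonneg (p q : ℤ[X]) (n : ℕ) (x : ℚ × ℚ) : 0 ≤ wv v p q n x := by
  unfold wv
  have := nm_nonneg v x
  have := v.nonneg (Wf ℚ p q n x)
  positivity

theorem wv_smulv (p q : ℤ[X]) (n : ℕ) (a : ℚ) (ha : a ≠ 0) (x : ℚ × ℚ) :
    wv v p q n (smulv a x) = wv v p q n x := by
  unfold wv
  rw [Wf_smul, nm_smulv, map_mul, map_pow, mul_pow]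
  have h1 : v a ≠ 0 := v.ne_zero ha
  exact mul_div_mul_left _ _ (pow_ne_zero _ h1)

/-- a bound for the coefficients of a form -/
noncomputable def SC (c : ℕ → ℚ) (d : ℕ) : ℝ := ∑ i ∈ range (d + 1), v (c i)

theorem SC_nonneg (c : ℕ → ℚ) (d : ℕ) : 0 ≤ SC v c d := sum_nonneg fun _ _ => v.nonneg _

theorem form_le (c : ℕ → ℚ) (d : ℕ) (x : ℚ × ℚ) : v (form c d x) ≤ SC v c d * nm v x ^ d := by
  unfold form SC
  refine (v.sum_le _ _).trans ?_
  rw [sum_mul]
  refine sum_le_sum fun i hi => ?_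
  rw [mem_range] at hi
  rw [map_mul, map_mul, map_pow, map_pow]
  refine mul_le_mul_of_nonneg_left ?_ (v.nonneg _)
  have e : nm v x ^ d = nm v x ^ i * nm v x ^ (d - i) := by
    rw [← pow_add]
    congr 1
    omega
  rw [e]
  have := fst_le v x
  have := snd_le v x
  have := nm_nonneg v x
  gcongr

theorem upper (p q : ℤ[X]) (n : ℕ) : ∃ C : ℝ, 1 ≤ C ∧ ∀ x, nm v (Fm ℚ p q n x) ≤
    C * nm v x ^ (n + 1) := by
  refine ⟨SC v (cf ℚ p) (n + 1) + SC v (cf ℚ q) (n + 1) + 1, ?_, fun x => ?_⟩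
  · have := SC_nonneg v (cf ℚ p) (n + 1)
    have := SC_nonneg v (cf ℚ q) (n + 1)
    linarith
  · have h1 := SC_nonneg v (cf ℚ p) (n + 1)
    have h2 := SC_nonneg v (cf ℚ q) (n + 1)
    have h3 : 0 ≤ nm v x ^ (n + 1) := pow_nonneg (nm_nonneg v x) _
    unfold Fm
    unfold nm at *
    refine max_le ?_ ?_
    · refine (form_le v (cf ℚ p) (n + 1) x).trans ?_
      unfold nm
      gcongr
      linarith
    · refine (form_le v (cf ℚ q) (n + 1) x).trans ?_
      unfold nm
      gcongr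
      linarith

theorem nm_swap (x : ℚ × ℚ) : nm v (x.2, x.1) = nm v x := by
  unfold nm
  exact max_comm _ _

/-- lower bound for the lift, from the Bezout identities -/
theorem lower_aux (p q : ℤ[X]) (n : ℕ) (R : ℤ) (N₁ N₂ : ℕ) (u w u' w' : ℤ[X])
    (h : ∀ x : ℚ × ℚ,
      (form (cf ℚ u) N₁ x * form (cf ℚ p) (n + 1) x + form (cf ℚ w) N₁ x *
        form (cf ℚ q) (n + 1) x = (R : ℚ) * x.2 ^ (N₁ + (n + 1))) ∧
      (form (cf ℚ u') N₂ (x.2, x.1) * form (cf ℚ p) (n + 1) x + form (cf ℚ w') N₂ (x.2, x.1) *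
        form (cf ℚ q) (n + 1) x = (R : ℚ) * x.1 ^ (N₂ + (n + 1))))
    (τ C : ℝ) (hτ0 : 0 ≤ τ) (hτ : ∀ a b : ℚ, v (a + b) ≤ τ * max (v a) (v b))
    (hu : ∀ x, v (form (cf ℚ u) N₁ x) ≤ C * nm v x ^ N₁)
    (hw : ∀ x, v (form (cf ℚ w) N₁ x) ≤ C * nm v x ^ N₁)
    (hu' : ∀ x, v (form (cf ℚ u') N₂ x) ≤ C * nm v x ^ N₂)
    (hw' : ∀ x, v (form (cf ℚ w') N₂ x) ≤ C * nm v x ^ N₂) (x : ℚ × ℚ) (hx : x ≠ 0) :
    v R * nm v x ^ (n + 1) ≤ τ * C * nm v (Fm ℚ p q n x) := by
  have hn := nm_pos v hx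
  obtain ⟨h1, h2⟩ := h x
  have key : ∀ (a b : ℚ) (N : ℕ), v a ≤ C * nm v x ^ N → v b ≤ C * nm v x ^ N →
      v (a * form (cf ℚ p) (n + 1) x + b * form (cf ℚ q) (n + 1) x) ≤
        τ * C * nm v (Fm ℚ p q n x) * nm v x ^ N := by
    intro a b N ha hb
    refine (hτ _ _).trans ?_
    have hF0 := nm_nonneg v (Fm ℚ p q n x)
    have hP : v (form (cf ℚ p) (n + 1) x) ≤ nm v (Fm ℚ p q n x) := fst_le v (Fm ℚ p q n x)
    have hQ : v (form (cf ℚ q) (n + 1) x) ≤ nm v (Fm ℚ p q n x) := snd_le v (Fm ℚ p q n x)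
    have h3 : max (v (a * form (cf ℚ p) (n + 1) x)) (v (b * form (cf ℚ q) (n + 1) x)) ≤
        C * nm v x ^ N * nm v (Fm ℚ p q n x) := by
      refine max_le ?_ ?_
      · rw [map_mul]
        exact mul_le_mul ha hP (v.nonneg _) ((v.nonneg _).trans ha)
      · rw [map_mul]
        exact mul_le_mul hb hQ (v.nonneg _) ((v.nonneg _).trans hb)
    calc τ * max (v (a * form (cf ℚ p) (n + 1) x)) (v (b * form (cf ℚ q) (n + 1) x))
        ≤ τ * (C * nm v x ^ N * nm v (Fm ℚ p q n x)) := by gcongr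
      _ = _ := by ring
  rcases max_choice (v x.1) (v x.2) with hm | hm
  · have hm' : nm v x = v x.1 := hm
    have h3 := key _ _ N₂ (by have := hu' (x.2, x.1); rwa [nm_swap] at this)
      (by have := hw' (x.2, x.1); rwa [nm_swap] at this)
    rw [h2, map_mul, map_pow, ← hm', pow_add] at h3
    have h4 : 0 < nm v x ^ N₂ := by positivity
    refine le_of_mul_le_mul_right ?_ h4
    calc v R * nm v x ^ (n + 1) * nm v x ^ N₂ = v R * (nm v x ^ N₂ * nm v x ^ (n + 1)) := by ring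
      _ ≤ _ := h3
  · have hm' : nm v x = v x.2 := hm
    have h3 := key _ _ N₁ (hu x) (hw x)
    rw [h1, map_mul, map_pow, ← hm', pow_add] at h3
    have h4 : 0 < nm v x ^ N₁ := by positivity
    refine le_of_mul_le_mul_right ?_ h4
    calc v R * nm v x ^ (n + 1) * nm v x ^ N₁ = v R * (nm v x ^ N₁ * nm v x ^ (n + 1)) := by ring
      _ ≤ _ := h3

theorem lower (p q : ℤ[X]) (n : ℕ) (hd : ratDeg p q = n + 1)
    (hcop : IsCoprime (p.map (Int.castRingHom ℚ)) (q.map (Int.castRingHom ℚ))) :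
    ∃ c : ℝ, 0 < c ∧ c ≤ 1 ∧ ∀ x, x ≠ 0 → c * nm v x ^ (n + 1) ≤ nm v (Fm ℚ p q n x) := by
  obtain ⟨R, N₁, N₂, u, w, u', w', hR, h⟩ := bezout p q n hd hcop
  set C : ℝ := SC v (cf ℚ u) N₁ + SC v (cf ℚ w) N₁ + SC v (cf ℚ u') N₂ + SC v (cf ℚ w') N₂ + 1
    with hC
  have s1 := SC_nonneg v (cf ℚ u) N₁
  have s2 := SC_nonneg v (cf ℚ w) N₁
  have s3 := SC_nonneg v (cf ℚ u') N₂
  have s4 := SC_nonneg v (cf ℚ w') N₂
  have hR0 : 0 < v R := v.pos (by exact_mod_cast hR)
  have hC0 : 0 < C := by linarith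
  have h1 := lower_aux v p q n R N₁ N₂ u w u' w' (fun x => h ℚ x) 2 C (by norm_num)
    (fun a b => by
      have := v.add_le a b
      have h2 := le_max_left (v a) (v b)
      have h3 := le_max_right (v a) (v b)
      linarith)
    (fun x => (form_le v _ _ x).trans (mul_le_mul_of_nonneg_right (by linarith)
      (pow_nonneg (nm_nonneg v x) _)))
    (fun x => (form_le v _ _ x).trans (mul_le_mul_of_nonneg_right (by linarith)
      (pow_nonneg (nm_nonneg v x) _)))
    (fun x => (form_le v _ _ x).trans (mul_le_mul_of_nonneg_right (by linarith)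
      (pow_nonneg (nm_nonneg v x) _)))
    (fun x => (form_le v _ _ x).trans (mul_le_mul_of_nonneg_right (by linarith)
      (pow_nonneg (nm_nonneg v x) _)))
  refine ⟨min 1 (v R / (2 * C)), by positivity, min_le_left _ _, fun x hx => ?_⟩
  have h2 := h1 x hx
  have h3 : 0 ≤ nm v x ^ (n + 1) := pow_nonneg (nm_nonneg v x) _
  calc min 1 (v R / (2 * C)) * nm v x ^ (n + 1) ≤ v R / (2 * C) * nm v x ^ (n + 1) := by
        gcongr
        exact min_le_right _ _
    _ = (v R * nm v x ^ (n + 1)) / (2 * C) := by ring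
    _ ≤ (2 * C * nm v (Fm ℚ p q n x)) / (2 * C) := by gcongr
    _ = _ := by field_simp

theorem wv_le (p q : ℤ[X]) (n : ℕ) (x : ℚ × ℚ) (hx : x ≠ 0) :
    wv v p q n x ≤ KB v (cf ℚ p) (cf ℚ q) n := by
  have h := bez_le v (cf ℚ p) (cf ℚ q) n x x
  have hn := nm_pos v hx
  unfold wv Wf
  rw [div_le_iff₀ (by positivity), two_mul, pow_add]
  exact h

/-- Lipschitz bound and contraction near the critical points -/
theorem contract (p q : ℤ[X]) (n : ℕ) (hn : 1 ≤ n) (hd : ratDeg p q = n + 1)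
    (hcop : IsCoprime (p.map (Int.castRingHom ℚ)) (q.map (Int.castRingHom ℚ))) :
    ∃ A : ℝ, 1 ≤ A ∧ ∀ x y : ℚ × ℚ, x ≠ 0 → y ≠ 0 →
      dv v (Fm ℚ p q n x) (Fm ℚ p q n y) ≤ A * dv v x y ∧
      dv v (Fm ℚ p q n x) (Fm ℚ p q n y) ≤ A * (dv v x y * (wv v p q n x + dv v x y)) := by
  obtain ⟨c, hc0, hc1, hc⟩ := lower v p q n hd hcop
  set K := KB v (cf ℚ p) (cf ℚ q) n with hK
  have hK0 : 0 ≤ K := KB_nonneg v _ _ n
  refine ⟨(K + 1) / c ^ 2, ?_, fun x y hx hy => ?_⟩
  · rw [le_div_iff₀ (by positivity)]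
    have : c ^ 2 ≤ 1 := pow_le_one₀ hc0.le hc1
    linarith
  · have hX := nm_pos v hx
    have hY := nm_pos v hy
    have hD := v.nonneg (det x y)
    have hB := v.nonneg (bez (cf ℚ p) (cf ℚ q) n x y)
    have h1 := bez_le v (cf ℚ p) (cf ℚ q) n x y
    have h2 := bez_diff v (cf ℚ p) (cf ℚ q) n hn x y
    rw [← hK] at h1 h2
    have hFx := hc x hx
    have hFy := hc y hy
    -- the quotient of the Bezoutian
    set b : ℝ := v (bez (cf ℚ p) (cf ℚ q) n x y) / (nm v x ^ n * nm v y ^ n) with hb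
    have hb0 : 0 ≤ b := by positivity
    have hb1 : b ≤ K := by
      rw [hb, div_le_iff₀ (by positivity)]
      exact h1
    have hb2 : b ≤ wv v p q n x + K * dv v x y := by
      unfold wv dv Wf
      rw [hb, div_le_iff₀ (by positivity)]
      have e : (v (bez (cf ℚ p) (cf ℚ q) n x x) / nm v x ^ (2 * n) +
          K * (v (det x y) / (nm v x * nm v y))) * (nm v x ^ n * nm v y ^ n) =
          (nm v y ^ n * v (bez (cf ℚ p) (cf ℚ q) n x x) +
            K * (v (det x y) * (nm v x ^ (2 * n - 1) * nm v y ^ (n - 1)))) / nm v x ^ n := by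
        obtain ⟨m, rfl⟩ := Nat.exists_eq_add_of_le' hn
        have e1 : 2 * (m + 1) - 1 = 2 * m + 1 := by omega
        have e2 : m + 1 - 1 = m := by omega
        rw [e1, e2]
        field_simp
        ring
      rw [e, le_div_iff₀ (by positivity)]
      calc _ = nm v x ^ n * v (bez (cf ℚ p) (cf ℚ q) n x y) := by ring
        _ ≤ _ := h2
    have hmain : dv v (Fm ℚ p q n x) (Fm ℚ p q n y) ≤ (c ^ 2)⁻¹ * (dv v x y * b) := by
      unfold dv
      rw [det_Fm, map_mul, hb]
      have hFx0 : 0 < c * nm v x ^ (n + 1) := by positivity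
      have hFy0 : 0 < c * nm v y ^ (n + 1) := by positivity
      have hFxn := nm_nonneg v (Fm ℚ p q n x)
      calc v (det x y) * v (bez (cf ℚ p) (cf ℚ q) n x y) /
            (nm v (Fm ℚ p q n x) * nm v (Fm ℚ p q n y))
          ≤ v (det x y) * v (bez (cf ℚ p) (cf ℚ q) n x y) /
            ((c * nm v x ^ (n + 1)) * (c * nm v y ^ (n + 1))) := by gcongr
        _ = _ := by
            field_simp
            ring
    have hd0 := dv_nonneg v x y
    have hc2 : 0 ≤ (c ^ 2)⁻¹ := by positivity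
    have hw0 := wv_nonneg v p q n x
    constructor
    · refine hmain.trans ?_
      calc (c ^ 2)⁻¹ * (dv v x y * b) ≤ (c ^ 2)⁻¹ * (dv v x y * (K + 1)) := by
            gcongr
            linarith
        _ = _ := by field_simp
    · refine hmain.trans ?_
      calc (c ^ 2)⁻¹ * (dv v x y * b)
          ≤ (c ^ 2)⁻¹ * (dv v x y * ((K + 1) * (wv v p q n x + dv v x y))) := by
            gcongr
            nlinarith
        _ = _ := by field_simp

end Pool.Agent.Work.MP_1bed24_nt
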