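import Pool.Agent.Work.MP_1bed24_nt.Core

/-!
Finiteness of the Zsigmondy set.
-/

set_option autoImplicit false

namespace Pool.Agent.Work.MP_1bed24_nt

open Finset Polynomial

theorem dvd_Dm (x y : ℚ) (ℓ : ℕ) (hℓ : ℓ.Prime) (h : (ℓ : ℤ) ∣ (x - y).num) :
    (ℓ : ℤ) ∣ det (repZ (some y)) (repZ (some x)) := by
  have h1 : ((det (repZ (some y)) (repZ (some x)) : ℤ) : ℚ) =
      -((x - y) * (x.den : ℚ) * (y.den : ℚ)) := by
    unfold det repZ
    simp only
    push_cast
    have hx := Rat.mul_den_eq_num x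
    have hy := Rat.mul_den_eq_num y
    rw [← hx, ← hy]
    ring
  have h2 : (det (repZ (some y)) (repZ (some x))) * ((x - y).den : ℤ) =
      -((x - y).num * (x.den : ℤ) * (y.den : ℤ)) := by
    have h3 := Rat.mul_den_eq_num (x - y)
    have : (((det (repZ (some y)) (repZ (some x))) * ((x - y).den : ℤ) : ℤ) : ℚ) =
        ((-((x - y).num * (x.den : ℤ) * (y.den : ℤ)) : ℤ) : ℚ) := by
      push_cast
      rw [h1, ← h3]
      ring
    exact_mod_cast this
  have h4 : (ℓ : ℤ) ∣ (det (repZ (some y)) (repZ (some x))) * ((x - y).den : ℤ) := by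
    rw [h2]
    exact ((h.mul_right _).mul_right _).neg_right
  have hp : Prime (ℓ : ℤ) := Nat.prime_iff_prime_int.1 hℓ
  rcases hp.dvd_or_dvd h4 with h5 | h5
  · exact h5
  · exfalso
    have hco := Rat.isCoprime_num_den (x - y)
    exact hp.not_isUnit (hco.isUnit_of_dvd' h h5)

theorem dvd_num (y : ℚ) (w : Option ℚ) (ℓ : ℕ) (hℓ : ℓ.Prime) (hy : ¬ (ℓ : ℤ) ∣ (y.den : ℤ))
    (h : (ℓ : ℤ) ∣ det (repZ (some y)) (repZ w)) :
    ∃ x, w = some x ∧ (ℓ : ℤ) ∣ (x - y).num := by
  rcases w with _ | x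
  · exfalso
    unfold det repZ at h
    simp only [mul_zero, mul_one, zero_sub, Int.dvd_neg] at h
    exact hy h
  · refine ⟨x, rfl, ?_⟩
    have hp : Prime (ℓ : ℤ) := Nat.prime_iff_prime_int.1 hℓ
    have h1 : ((det (repZ (some y)) (repZ (some x)) : ℤ) : ℚ) =
        -((x - y) * (x.den : ℚ) * (y.den : ℚ)) := by
      unfold det repZ
      simp only
      push_cast
      have hx := Rat.mul_den_eq_num x
      have hy := Rat.mul_den_eq_num y
      rw [← hx, ← hy]
      ring
    have h2 : (det (repZ (some y)) (repZ (some x))) * ((x - y).den : ℤ) =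
        -((x - y).num * (x.den : ℤ) * (y.den : ℤ)) := by
      have h3 := Rat.mul_den_eq_num (x - y)
      have : (((det (repZ (some y)) (repZ (some x))) * ((x - y).den : ℤ) : ℤ) : ℚ) =
          ((-((x - y).num * (x.den : ℤ) * (y.den : ℤ)) : ℤ) : ℚ) := by
        push_cast
        rw [h1, ← h3]
        ring
      exact_mod_cast this
    have hxd : ¬ (ℓ : ℤ) ∣ (x.den : ℤ) := by
      intro hx
      have h3 : (ℓ : ℤ) ∣ (y.den : ℤ) * x.num := by
        have e : (y.den : ℤ) * x.num = y.num * (x.den : ℤ) -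
            det (repZ (some y)) (repZ (some x)) := by
          unfold det repZ
          ring
        rw [e]
        exact dvd_sub (hx.mul_left _) h
      rcases hp.dvd_or_dvd h3 with h4 | h4
      · exact hy h4
      · exact hp.not_isUnit ((Rat.isCoprime_num_den x).isUnit_of_dvd' h4 hx)
    have h4 : (ℓ : ℤ) ∣ (x - y).num * (x.den : ℤ) * (y.den : ℤ) := by
      rw [← Int.dvd_neg, ← h2]
      exact h.mul_right _
    rcases hp.dvd_or_dvd h4 with h5 | h5
    · rcases hp.dvd_or_dvd h5 with h6 | h6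
      · exact h6
      · exact absurd h6 hxd
    · exact absurd h5 hy

/-- from the hypothesis on the points of a fibre to the hypothesis on vectors -/
theorem fibre_hyp (p q : ℤ[X]) (n : ℕ) (hd : ratDeg p q = n + 1)
    (hcop : IsCoprime (p.map (Int.castRingHom ℚ)) (q.map (Int.castRingHom ℚ)))
    (β : ℚ) (k : ℕ)
    (hk : ∀ γ : Option ℂ, (ratMap ℂ p q)^[k] γ = some (β : ℂ) →
      ∃ i, IsCritical ℂ p q ((ratMap ℂ p q)^[i] γ)) :
    (∃ j, Wf ℚ p q n (rep ((ratMap ℚ p q)^[j] (some β))) = 0) ∨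
      ∃ k, ∀ y : ℂ × ℂ, y ≠ 0 → det (castv ℂ (repZ (some β))) ((Fm ℂ p q n)^[k] y) = 0 →
        ∃ i < k, Wf ℂ p q n ((Fm ℂ p q n)^[i] y) = 0 := by
  have hFC : ∀ x : ℂ × ℂ, x ≠ 0 → Fm ℂ p q n x ≠ 0 := fun x hx => Fm_ne p q n hd hcop ℂ x hx
  have hβne : castv ℂ (repZ (some β)) ≠ 0 := castv_ne _ (repZ_ne _) ℂ
  have hβP : toP ℂ (castv ℂ (repZ (some β))) = some (β : ℂ) := by
    unfold toP castv repZ
    simp only
    rw [if_neg (by simp)]
    congr 1
    push_cast
    exact_mod_cast congrArg (fun t : ℚ => (t : ℂ)) (Rat.num_div_den β)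
  by_cases hA : ∃ j, Wf ℚ p q n (rep ((ratMap ℚ p q)^[j] (some β))) = 0
  · exact Or.inl hA
  · refine Or.inr ⟨k, fun y hy hdet => ?_⟩
    obtain ⟨hyk, hyP⟩ := toP_iter p q n hd hFC k y hy
    -- the k-th image is the target
    have hprop : ∃ a : ℂ, a ≠ 0 ∧ (Fm ℂ p q n)^[k] y = smulv a (castv ℂ (repZ (some β))) := by
      apply eq_of_toP_eq _ _ hyk hβne
      rw [hβP]
      set x := (Fm ℂ p q n)^[k] y
      unfold det at hdet
      have hd2 : (castv ℂ (repZ (some β))).2 ≠ 0 := by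
        unfold castv repZ
        simp
      by_cases x2 : x.2 = 0
      · have x1 : x.1 ≠ 0 := fun x1 => hyk (Prod.ext x1 x2)
        rw [x2, mul_zero, zero_sub, neg_eq_zero] at hdet
        rcases mul_eq_zero.1 hdet with h | h
        · exact absurd h hd2
        · exact absurd h x1
      · rw [← hβP]
        unfold toP
        rw [if_neg x2, if_neg hd2]
        congr 1
        rw [div_eq_div_iff x2 hd2]
        linear_combination -hdet
    obtain ⟨a, ha, hya⟩ := hprop
    have hγ : (ratMap ℂ p q)^[k] (toP ℂ y) = some (β : ℂ) := by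
      rw [← hyP, hya, toP_smulv a ha, hβP]
    obtain ⟨i, hi⟩ := hk _ hγ
    obtain ⟨hyi, hyiP⟩ := toP_iter p q n hd hFC i y hy
    rw [← hyiP, ← Wf_eq_zero p q n hd _ hyi] at hi
    by_cases hik : i < k
    · exact ⟨i, hik, hi⟩
    · exfalso
      apply hA
      refine ⟨i - k, ?_⟩
      have e1 : (Fm ℂ p q n)^[i] y = (Fm ℂ p q n)^[i - k] ((Fm ℂ p q n)^[k] y) := by
        rw [← Function.iterate_add_apply, Nat.sub_add_cancel (not_lt.1 hik)]
      rw [e1, hya, Fm_iter_smul, Wf_smul] at hi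
      have h2 : Wf ℂ p q n ((Fm ℂ p q n)^[i - k] (castv ℂ (repZ (some β)))) = 0 := by
        rcases mul_eq_zero.1 hi with h | h
        · exact absurd h (pow_ne_zero _ (pow_ne_zero _ ha))
        · exact h
      have h3 : castv ℂ (repZ (some β)) = mapv (algebraMap ℚ ℂ) (rep (some β)) := by
        unfold rep
        rw [mapv_castv]
      rw [h3, Fm_iter_map, Wf_map] at h2
      have h4 : Wf ℚ p q n ((Fm ℚ p q n)^[i - k] (rep (some β))) = 0 :=
        (map_eq_zero (algebraMap ℚ ℂ)).1 h2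
      obtain ⟨b, hb, h5⟩ := Fm_rep p q n hd hcop (rep (some β)) (rep_ne _) (i - k)
      rw [toP_rep] at h5
      rw [h5, Wf_smul] at h4
      rcases mul_eq_zero.1 h4 with h | h
      · exact absurd h (pow_ne_zero _ hb)
      · exact h

theorem main (p q : ℤ[X])
    (hcop : IsCoprime (p.map (Int.castRingHom ℚ)) (q.map (Int.castRingHom ℚ)))
    (hdeg : 2 ≤ ratDeg p q) (α β : ℚ)
    (hβ : Function.Injective fun m : ℕ => (ratMap ℚ p q)^[m] (some β))
    (r s : ℕ) (hαβ : (ratMap ℚ p q)^[r] (some α) = (ratMap ℚ p q)^[s] (some β))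
    (k : ℕ) (hk : ∀ γ : Option ℂ, (ratMap ℂ p q)^[k] γ = some (β : ℂ) →
      ∃ i, IsCritical ℂ p q ((ratMap ℂ p q)^[i] γ)) :
    (zsigSet p q α β).Finite := by
  obtain ⟨n, hn⟩ := Nat.exists_eq_add_of_le' (by omega : 1 ≤ ratDeg p q)
  have hn1 : 1 ≤ n := by omega
  have H := fibre_hyp p q n hn hcop β k hk
  -- the numerators of the first terms
  set a : ℕ → ℤ := fun j => match (ratMap ℚ p q)^[j] (some α) with
    | none => 1
    | some z => if z = β then 1 else (z - β).num with ha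
  have ha0 : ∀ j, a j ≠ 0 := by
    intro j
    simp only [ha]
    rcases (ratMap ℚ p q)^[j] (some α) with _ | z
    · simp
    · simp only
      split_ifs with h
      · simp
      · rw [Rat.num_ne_zero, sub_ne_zero]
        exact h
  set E₀ : ℤ := (β.den : ℤ) * ∏ j ∈ range r, a j with hE₀
  have hE₀0 : E₀ ≠ 0 := mul_ne_zero (by exact_mod_cast β.den_ne_zero)
    (prod_ne_zero_iff.2 fun j _ => ha0 j)
  obtain ⟨N₀, hN₀⟩ := core p q n hn1 hn hcop (some β) H hβ E₀ hE₀0
  refine (Set.finite_Iio (N₀ + r + 1)).subset ?_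
  intro m hm
  by_contra hlarge
  rw [Set.mem_Iio, not_lt] at hlarge
  obtain ⟨hm1, y, hy, hyβ, hall⟩ := hm
  have hshift : ∀ j, r ≤ j → (ratMap ℚ p q)^[j] (some α) =
      (ratMap ℚ p q)^[j - r + s] (some β) := by
    intro j hj
    have e : j = (j - r) + r := by omega
    conv_lhs => rw [e]
    rw [Function.iterate_add_apply, hαβ, ← Function.iterate_add_apply]
  obtain ⟨ℓ, hℓ, hℓE, hℓN, hprim⟩ := hN₀ (m - r + s) (by omega)
  have hℓβ : ¬ (ℓ : ℤ) ∣ (β.den : ℤ) := fun h => hℓE (h.mul_right _)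
  obtain ⟨x, hx, hxnum⟩ := dvd_num β _ ℓ hℓ hℓβ hℓN
  rw [← hshift m (by omega), hy] at hx
  have hxy : y = x := Option.some.inj hx
  rw [← hxy] at hxnum
  obtain ⟨j, hj1, hjm, z, hz, hzβ, hznum⟩ := hall ℓ hℓ hxnum
  by_cases hjr : j < r
  · apply hℓE
    have h1 : a j = (z - β).num := by
      simp only [ha, hz]
      rw [if_neg hzβ]
    refine Dvd.dvd.mul_left ?_ _
    refine Dvd.dvd.trans ?_ (dvd_prod_of_mem a (mem_range.2 hjr))
    rw [h1]
    exact hznum
  · have hjr' : r ≤ j := not_lt.1 hjr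
    have hzs := hshift j hjr'
    rw [hz] at hzs
    have hM1 : 1 ≤ j - r + s := by
      by_contra h
      have h0 : j - r + s = 0 := by omega
      rw [h0, Function.iterate_zero, id_eq] at hzs
      exact hzβ (Option.some.inj hzs)
    apply hprim (j - r + s) hM1 (by omega)
    unfold Dm
    rw [← hzs]
    exact dvd_Dm z β ℓ hℓ hznum

end Pool.Agent.Work.MP_1bed24_nt
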